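import Pool.Agent.Lib.MP_b5d28a_nt.H6.Tree
import Pool.Agent.Lib.MP_b5d28a_nt.H6.D1
import Pool.Agent.Lib.MP_b5d28a_nt.H6.D2
import Pool.Agent.Lib.MP_b5d28a_nt.H6.D3
import Pool.Agent.Lib.MP_b5d28a_nt.H6.D4

/-! The certificates put together. -/

namespace Pool.Agent.Lib.MP_b5d28a_nt.H6

theorem k4 : OKG 4 g4_1 := okg (by decide) a4_1
theorem r4 : ∀ m, 2 * 4 - 1 ≤ m → NoRoot 4 m :=
  main (M := 60) (L := 6) (Ls := [(2, 2, 1, 3)]) (by decide +kernel)
    (List.forall_mem_cons.2 ⟨upto_all (by norm_num) (upto_step (by norm_num) (by decide) k4 (upto_zero 4 2 3) b4_2_1), List.forall_mem_nil _⟩)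
    (fin_sound k4 f4)

theorem k5 : OKG 5 g5_1 := okg (by decide) a5_1
theorem r5 : ∀ m, 2 * 5 - 1 ≤ m → NoRoot 5 m :=
  main (M := 60) (L := 12) (Ls := [(5, 1, 0, 5)]) (by decide +kernel)
    (List.forall_mem_cons.2 ⟨upto_all (by norm_num) (upto_step (by norm_num) (by decide) k5 (upto_zero 5 5 5) b5_5_1), List.forall_mem_nil _⟩)
    (fin_sound k5 f5)

theorem k6 : OKG 6 g6_1 := okg (by decide) a6_1
theorem r6 : ∀ m, 2 * 6 - 1 ≤ m → NoRoot 6 m :=
  main (M := 62) (L := 60) (Ls := [(2, 1, 2, 1), (3, 1, 1, 5)]) (by decide +kernel)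
    (List.forall_mem_cons.2 ⟨upto_all (by norm_num) (upto_step (by norm_num) (by decide) k6 (upto_zero 6 2 1) b6_2_1), List.forall_mem_cons.2 ⟨upto_all (by norm_num) (upto_step (by norm_num) (by decide) k6 (upto_zero 6 3 5) b6_3_1), List.forall_mem_nil _⟩⟩)
    (fin_sound k6 f6)

theorem k7 : OKG 7 g7_1 := okg (by decide) a7_1
theorem r7 : ∀ m, 2 * 7 - 1 ≤ m → NoRoot 7 m :=
  main (M := 79) (L := 60) (Ls := [(7, 1, 0, 5)]) (by decide +kernel)
    (List.forall_mem_cons.2 ⟨upto_all (by norm_num) (upto_step (by norm_num) (by decide) k7 (upto_zero 7 7 5) b7_7_1), List.forall_mem_nil _⟩)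
    (fin_sound k7 f7)

theorem k8 : OKG 8 g8_1 := okg (by decide) a8_1
theorem r8 : ∀ m, 2 * 8 - 1 ≤ m → NoRoot 8 m :=
  main (M := 78) (L := 420) (Ls := [(2, 3, 2, 5)]) (by decide +kernel)
    (List.forall_mem_cons.2 ⟨upto_all (by norm_num) (upto_step (by norm_num) (by decide) k8 (upto_zero 8 2 5) b8_2_1), List.forall_mem_nil _⟩)
    (fin_sound k8 f8)

theorem k9 : OKG 9 g9_1 := okg (by decide) a9_1
theorem r9 : ∀ m, 2 * 9 - 1 ≤ m → NoRoot 9 m :=
  main (M := 143) (L := 840) (Ls := [(3, 2, 1, 9)]) (by decide +kernel)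
    (List.forall_mem_cons.2 ⟨upto_all (by norm_num) (upto_step (by norm_num) (by decide) k9 (upto_zero 9 3 9) b9_3_1), List.forall_mem_nil _⟩)
    (fin_sound k9 f9)

theorem k10 : OKG 10 g10_1 := okg (by decide) a10_1
theorem r10 : ∀ m, 2 * 10 - 1 ≤ m → NoRoot 10 m :=
  main (M := 157) (L := 2520) (Ls := [(2, 1, 3, 1), (5, 1, 1, 4)]) (by decide +kernel)
    (List.forall_mem_cons.2 ⟨upto_all (by norm_num) (upto_step (by norm_num) (by decide) k10 (upto_zero 10 2 1) b10_2_1), List.forall_mem_cons.2 ⟨upto_all (by norm_num) (upto_step (by norm_num) (by decide) k10 (upto_zero 10 5 4) b10_5_1), List.forall_mem_nil _⟩⟩)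
    (fin_sound k10 f10)

theorem k11 : OKG 11 g11_1 := okg (by decide) a11_1
theorem r11 : ∀ m, 2 * 11 - 1 ≤ m → NoRoot 11 m :=
  main (M := 159) (L := 2520) (Ls := [(11, 1, 0, 4)]) (by decide +kernel)
    (List.forall_mem_cons.2 ⟨upto_all (by norm_num) (upto_step (by norm_num) (by decide) k11 (upto_zero 11 11 4) b11_11_1), List.forall_mem_nil _⟩)
    (fin_sound k11 f11)

theorem k12 : OKG 12 g12_1 := okg (by decide) a12_1
theorem r12 : ∀ m, 2 * 12 - 1 ≤ m → NoRoot 12 m :=
  main (M := 235) (L := 27720) (Ls := [(2, 2, 3, 3), (3, 1, 2, 5)]) (by decide +kernel)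
    (List.forall_mem_cons.2 ⟨upto_all (by norm_num) (upto_step (by norm_num) (by decide) k12 (upto_zero 12 2 3) b12_2_1), List.forall_mem_cons.2 ⟨upto_all (by norm_num) (upto_step (by norm_num) (by decide) k12 (upto_zero 12 3 5) b12_3_1), List.forall_mem_nil _⟩⟩)
    (fin_sound k12 f12)

theorem k13 : OKG 13 g13_1 := okg (by decide) a13_1
theorem r13 : ∀ m, 2 * 13 - 1 ≤ m → NoRoot 13 m :=
  main (M := 225) (L := 27720) (Ls := [(13, 1, 0, 4)]) (by decide +kernel)
    (List.forall_mem_cons.2 ⟨upto_all (by norm_num) (upto_step (by norm_num) (by decide) k13 (upto_zero 13 13 4) b13_13_1), List.forall_mem_nil _⟩)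
    (fin_sound k13 f13)

theorem k14 : OKG 14 g14_1 := okg (by decide) a14_1
theorem r14 : ∀ m, 2 * 14 - 1 ≤ m → NoRoot 14 m :=
  main (M := 334) (L := 360360) (Ls := [(2, 1, 3, 1), (7, 1, 1, 5)]) (by decide +kernel)
    (List.forall_mem_cons.2 ⟨upto_all (by norm_num) (upto_step (by norm_num) (by decide) k14 (upto_zero 14 2 1) b14_2_1), List.forall_mem_cons.2 ⟨upto_all (by norm_num) (upto_step (by norm_num) (by decide) k14 (upto_zero 14 7 5) b14_7_1), List.forall_mem_nil _⟩⟩)
    (fin_sound k14 f14)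

theorem k15 : OKG 15 g15_1 := okg (by decide) a15_1
theorem r15 : ∀ m, 2 * 15 - 1 ≤ m → NoRoot 15 m :=
  main (M := 415) (L := 360360) (Ls := [(3, 1, 2, 6), (5, 1, 1, 5)]) (by decide +kernel)
    (List.forall_mem_cons.2 ⟨upto_all (by norm_num) (upto_step (by norm_num) (by decide) k15 (upto_zero 15 3 6) b15_3_1), List.forall_mem_cons.2 ⟨upto_all (by norm_num) (upto_step (by norm_num) (by decide) k15 (upto_zero 15 5 5) b15_5_1), List.forall_mem_nil _⟩⟩)
    (fin_sound k15 f15)

theorem k16 : OKG 16 g16_1 := okg (by decide) a16_1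
theorem r16 : ∀ m, 2 * 16 - 1 ≤ m → NoRoot 16 m :=
  main (M := 296) (L := 360360) (Ls := [(2, 4, 3, 7)]) (by decide +kernel)
    (List.forall_mem_cons.2 ⟨upto_all (by norm_num) (upto_step (by norm_num) (by decide) k16 (upto_zero 16 2 7) b16_2_1), List.forall_mem_nil _⟩)
    (fin_sound k16 f16)

theorem k17 : OKG 17 g17_1 := okg (by decide) a17_1
theorem r17 : ∀ m, 2 * 17 - 1 ≤ m → NoRoot 17 m :=
  main (M := 364) (L := 720720) (Ls := [(17, 1, 0, 4)]) (by decide +kernel)
    (List.forall_mem_cons.2 ⟨upto_all (by norm_num) (upto_step (by norm_num) (by decide) k17 (upto_zero 17 17 4) b17_17_1), List.forall_mem_nil _⟩)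
    (fin_sound k17 f17)

theorem k18 : OKG 18 g18_1 := okg (by decide) a18_1
theorem r18 : ∀ m, 2 * 18 - 1 ≤ m → NoRoot 18 m :=
  main (M := 528) (L := 12252240) (Ls := [(2, 1, 4, 1), (3, 2, 2, 9)]) (by decide +kernel)
    (List.forall_mem_cons.2 ⟨upto_all (by norm_num) (upto_step (by norm_num) (by decide) k18 (upto_zero 18 2 1) b18_2_1), List.forall_mem_cons.2 ⟨upto_all (by norm_num) (upto_step (by norm_num) (by decide) k18 (upto_zero 18 3 9) b18_3_1), List.forall_mem_nil _⟩⟩)
    (fin_sound k18 f18)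

theorem k19 : OKG 19 g19_1 := okg (by decide) a19_1
theorem r19 : ∀ m, 2 * 19 - 1 ≤ m → NoRoot 19 m :=
  main (M := 467) (L := 12252240) (Ls := [(19, 1, 0, 4)]) (by decide +kernel)
    (List.forall_mem_cons.2 ⟨upto_all (by norm_num) (upto_step (by norm_num) (by decide) k19 (upto_zero 19 19 4) b19_19_1), List.forall_mem_nil _⟩)
    (fin_sound k19 f19)

theorem k20 : OKG 20 g20_1 := okg (by decide) a20_1
theorem r20 : ∀ m, 2 * 20 - 1 ≤ m → NoRoot 20 m :=
  main (M := 615) (L := 232792560) (Ls := [(2, 2, 4, 3), (5, 1, 1, 5)]) (by decide +kernel)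
    (List.forall_mem_cons.2 ⟨upto_all (by norm_num) (upto_step (by norm_num) (by decide) k20 (upto_zero 20 2 3) b20_2_1), List.forall_mem_cons.2 ⟨upto_all (by norm_num) (upto_step (by norm_num) (by decide) k20 (upto_zero 20 5 5) b20_5_1), List.forall_mem_nil _⟩⟩)
    (fin_sound k20 f20)

theorem k21 : OKG 21 g21_1 := okg (by decide) a21_1
theorem r21 : ∀ m, 2 * 21 - 1 ≤ m → NoRoot 21 m :=
  main (M := 753) (L := 232792560) (Ls := [(3, 1, 2, 6), (7, 1, 1, 5)]) (by decide +kernel)
    (List.forall_mem_cons.2 ⟨upto_all (by norm_num) (upto_step (by norm_num) (by decide) k21 (upto_zero 21 3 6) b21_3_1), List.forall_mem_cons.2 ⟨upto_all (by norm_num) (upto_step (by norm_num) (by decide) k21 (upto_zero 21 7 5) b21_7_1), List.forall_mem_nil _⟩⟩)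
    (fin_sound k21 f21)

theorem k22 : OKG 22 g22_1 := okg (by decide) a22_1
theorem r22 : ∀ m, 2 * 22 - 1 ≤ m → NoRoot 22 m :=
  main (M := 681) (L := 232792560) (Ls := [(2, 1, 4, 1), (11, 1, 1, 4)]) (by decide +kernel)
    (List.forall_mem_cons.2 ⟨upto_all (by norm_num) (upto_step (by norm_num) (by decide) k22 (upto_zero 22 2 1) b22_2_1), List.forall_mem_cons.2 ⟨upto_all (by norm_num) (upto_step (by norm_num) (by decide) k22 (upto_zero 22 11 4) b22_11_1), List.forall_mem_nil _⟩⟩)
    (fin_sound k22 f22)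

theorem k23 : OKG 23 g23_1 := okg_node (by decide) a23_1 (okg (by decide) a23_2) (okg (by decide) a23_3)
theorem r23 : ∀ m, 2 * 23 - 1 ≤ m → NoRoot 23 m :=
  main (M := 647) (L := 232792560) (Ls := [(23, 1, 0, 4)]) (by decide +kernel)
    (List.forall_mem_cons.2 ⟨upto_all (by norm_num) (upto_step (by norm_num) (by decide) k23 (upto_step (by norm_num) (by decide) k23 (upto_zero 23 23 4) b23_23_1) b23_23_2), List.forall_mem_nil _⟩)
    (fin_sound k23 f23)

theorem k24 : OKG 24 g24_1 := okg (by decide) a24_1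
theorem r24 : ∀ m, 2 * 24 - 1 ≤ m → NoRoot 24 m :=
  main (M := 839) (L := 5354228880) (Ls := [(2, 3, 4, 5), (3, 1, 2, 6)]) (by decide +kernel)
    (List.forall_mem_cons.2 ⟨upto_all (by norm_num) (upto_step (by norm_num) (by decide) k24 (upto_zero 24 2 5) b24_2_1), List.forall_mem_cons.2 ⟨upto_all (by norm_num) (upto_step (by norm_num) (by decide) k24 (upto_zero 24 3 6) b24_3_1), List.forall_mem_nil _⟩⟩)
    (fin_sound k24 f24)

theorem k25 : OKG 25 g25_1 := okg (by decide) a25_1
theorem r25 : ∀ m, 2 * 25 - 1 ≤ m → NoRoot 25 m :=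
  main (M := 826) (L := 5354228880) (Ls := [(5, 2, 1, 7)]) (by decide +kernel)
    (List.forall_mem_cons.2 ⟨upto_all (by norm_num) (upto_step (by norm_num) (by decide) k25 (upto_zero 25 5 7) b25_5_1), List.forall_mem_nil _⟩)
    (fin_sound k25 f25)

theorem k26 : OKG 26 g26_1 := okg (by decide) a26_1
theorem r26 : ∀ m, 2 * 26 - 1 ≤ m → NoRoot 26 m :=
  main (M := 946) (L := 26771144400) (Ls := [(2, 1, 4, 1), (13, 1, 1, 4)]) (by decide +kernel)
    (List.forall_mem_cons.2 ⟨upto_all (by norm_num) (upto_step (by norm_num) (by decide) k26 (upto_zero 26 2 1) b26_2_1), List.forall_mem_cons.2 ⟨upto_all (by norm_num) (upto_step (by norm_num) (by decide) k26 (upto_zero 26 13 4) b26_13_1), List.forall_mem_nil _⟩⟩)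
    (fin_sound k26 f26)

theorem k27 : OKG 27 g27_1 := okg (by decide) a27_1
theorem r27 : ∀ m, 2 * 27 - 1 ≤ m → NoRoot 27 m :=
  main (M := 987) (L := 26771144400) (Ls := [(3, 3, 2, 11)]) (by decide +kernel)
    (List.forall_mem_cons.2 ⟨upto_all (by norm_num) (upto_step (by norm_num) (by decide) k27 (upto_zero 27 3 11) b27_3_1), List.forall_mem_nil _⟩)
    (fin_sound k27 f27)

theorem k28 : OKG 28 g28_1 := okg (by decide) a28_1
theorem r28 : ∀ m, 2 * 28 - 1 ≤ m → NoRoot 28 m :=
  main (M := 1074) (L := 80313433200) (Ls := [(2, 2, 4, 3), (7, 1, 1, 5)]) (by decide +kernel)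
    (List.forall_mem_cons.2 ⟨upto_all (by norm_num) (upto_step (by norm_num) (by decide) k28 (upto_zero 28 2 3) b28_2_1), List.forall_mem_cons.2 ⟨upto_all (by norm_num) (upto_step (by norm_num) (by decide) k28 (upto_zero 28 7 5) b28_7_1), List.forall_mem_nil _⟩⟩)
    (fin_sound k28 f28)

theorem k29 : OKG 29 g29_1 := okg_node (by decide) a29_1 (okg (by decide) a29_2) (okg (by decide) a29_3)
theorem r29 : ∀ m, 2 * 29 - 1 ≤ m → NoRoot 29 m :=
  main (M := 1005) (L := 80313433200) (Ls := [(29, 1, 0, 4)]) (by decide +kernel)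
    (List.forall_mem_cons.2 ⟨upto_all (by norm_num) (upto_step (by norm_num) (by decide) k29 (upto_step (by norm_num) (by decide) k29 (upto_zero 29 29 4) b29_29_1) b29_29_2), List.forall_mem_nil _⟩)
    (fin_sound k29 f29)

theorem k30 : OKG 30 g30_1 := okg (by decide) a30_1
theorem r30 : ∀ m, 2 * 30 - 1 ≤ m → NoRoot 30 m :=
  main (M := 1435) (L := 2329089562800) (Ls := [(2, 1, 4, 1), (3, 1, 3, 5), (5, 1, 2, 5)]) (by decide +kernel)
    (List.forall_mem_cons.2 ⟨upto_all (by norm_num) (upto_step (by norm_num) (by decide) k30 (upto_zero 30 2 1) b30_2_1), List.forall_mem_cons.2 ⟨upto_all (by norm_num) (upto_step (by norm_num) (by decide) k30 (upto_zero 30 3 5) b30_3_1), List.forall_mem_cons.2 ⟨upto_all (by norm_num) (upto_step (by norm_num) (by decide) k30 (upto_zero 30 5 5) b30_5_1), List.forall_mem_nil _⟩⟩⟩)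
    (fin_sound k30 f30)

theorem k31 : OKG 31 g31_1 := okg_node (by decide) a31_1 (okg (by decide) a31_2) (okg (by decide) a31_3)
theorem r31 : ∀ m, 2 * 31 - 1 ≤ m → NoRoot 31 m :=
  main (M := 1184) (L := 2329089562800) (Ls := [(31, 1, 0, 4)]) (by decide +kernel)
    (List.forall_mem_cons.2 ⟨upto_all (by norm_num) (upto_step (by norm_num) (by decide) k31 (upto_step (by norm_num) (by decide) k31 (upto_zero 31 31 4) b31_31_1) b31_31_2), List.forall_mem_nil _⟩)
    (fin_sound k31 f31)

theorem k32 : OKG 32 g32_1 := okg (by decide) a32_1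
theorem r32 : ∀ m, 2 * 32 - 1 ≤ m → NoRoot 32 m :=
  main (M := 1269) (L := 72201776446800) (Ls := [(2, 5, 4, 9)]) (by decide +kernel)
    (List.forall_mem_cons.2 ⟨upto_all (by norm_num) (upto_step (by norm_num) (by decide) k32 (upto_zero 32 2 9) b32_2_1), List.forall_mem_nil _⟩)
    (fin_sound k32 f32)

theorem k33 : OKG 33 g33_1 := okg_node (by decide) a33_1 (okg (by decide) a33_2) (okg (by decide) a33_3)
theorem r33 : ∀ m, 2 * 33 - 1 ≤ m → NoRoot 33 m :=
  main (M := 1623) (L := 144403552893600) (Ls := [(3, 1, 3, 5), (11, 1, 1, 4)]) (by decide +kernel)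
    (List.forall_mem_cons.2 ⟨upto_all (by norm_num) (upto_step (by norm_num) (by decide) k33 (upto_zero 33 3 5) b33_3_1), List.forall_mem_cons.2 ⟨upto_all (by norm_num) (upto_step (by norm_num) (by decide) k33 (upto_zero 33 11 4) b33_11_1), List.forall_mem_nil _⟩⟩)
    (fin_sound k33 f33)

theorem k34 : OKG 34 g34_1 := okg_node (by decide) a34_1 (okg (by decide) a34_2) (okg (by decide) a34_3)
theorem r34 : ∀ m, 2 * 34 - 1 ≤ m → NoRoot 34 m :=
  main (M := 1589) (L := 144403552893600) (Ls := [(2, 1, 5, 1), (17, 1, 1, 4)]) (by decide +kernel)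
    (List.forall_mem_cons.2 ⟨upto_all (by norm_num) (upto_step (by norm_num) (by decide) k34 (upto_zero 34 2 1) b34_2_1), List.forall_mem_cons.2 ⟨upto_all (by norm_num) (upto_step (by norm_num) (by decide) k34 (upto_zero 34 17 4) b34_17_1), List.forall_mem_nil _⟩⟩)
    (fin_sound k34 f34)

theorem k35 : OKG 35 g35_1 := okg_node (by decide) a35_1 (okg (by decide) a35_2) (okg (by decide) a35_3)
theorem r35 : ∀ m, 2 * 35 - 1 ≤ m → NoRoot 35 m :=
  main (M := 1862) (L := 144403552893600) (Ls := [(5, 1, 2, 5), (7, 1, 1, 6)]) (by decide +kernel)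
    (List.forall_mem_cons.2 ⟨upto_all (by norm_num) (upto_step (by norm_num) (by decide) k35 (upto_zero 35 5 5) b35_5_1), List.forall_mem_cons.2 ⟨upto_all (by norm_num) (upto_step (by norm_num) (by decide) k35 (upto_zero 35 7 6) b35_7_1), List.forall_mem_nil _⟩⟩)
    (fin_sound k35 f35)

theorem k36 : OKG 36 g36_1 := okg (by decide) a36_1
theorem r36 : ∀ m, 2 * 36 - 1 ≤ m → NoRoot 36 m :=
  main (M := 1682) (L := 144403552893600) (Ls := [(2, 2, 5, 3), (3, 2, 3, 7)]) (by decide +kernel)
    (List.forall_mem_cons.2 ⟨upto_all (by norm_num) (upto_step (by norm_num) (by decide) k36 (upto_zero 36 2 3) b36_2_1), List.forall_mem_cons.2 ⟨upto_all (by norm_num) (upto_step (by norm_num) (by decide) k36 (upto_zero 36 3 7) b36_3_1), List.forall_mem_nil _⟩⟩)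
    (fin_sound k36 f36)

theorem k37 : OKG 37 g37_1 := okg_node (by decide) a37_1 (okg (by decide) a37_2) (okg_node (by decide) a37_3 (okg (by decide) a37_4) (okg (by decide) a37_5))
theorem r37 : ∀ m, 2 * 37 - 1 ≤ m → NoRoot 37 m :=
  main (M := 1587) (L := 144403552893600) (Ls := [(37, 1, 0, 4)]) (by decide +kernel)
    (List.forall_mem_cons.2 ⟨upto_all (by norm_num) (upto_step (by norm_num) (by decide) k37 (upto_step (by norm_num) (by decide) k37 (upto_step (by norm_num) (by decide) k37 (upto_zero 37 37 4) b37_37_1) b37_37_2) b37_37_3), List.forall_mem_nil _⟩)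
    (fin_sound k37 f37)

theorem k38 : OKG 38 g38_1 := okg_node (by decide) a38_1 (okg (by decide) a38_2) (okg_node (by decide) a38_3 (okg (by decide) a38_4) (okg_node (by decide) a38_5 (okg (by decide) a38_6) (okg (by decide) a38_7)))
theorem r38 : ∀ m, 2 * 38 - 1 ≤ m → NoRoot 38 m :=
  main (M := 1931) (L := 5342931457063200) (Ls := [(2, 1, 5, 1), (19, 1, 1, 4)]) (by decide +kernel)
    (List.forall_mem_cons.2 ⟨upto_all (by norm_num) (upto_step (by norm_num) (by decide) k38 (upto_zero 38 2 1) b38_2_1), List.forall_mem_cons.2 ⟨upto_all (by norm_num) (upto_step (by norm_num) (by decide) k38 (upto_step (by norm_num) (by decide) k38 (upto_zero 38 19 4) b38_19_1) b38_19_2), List.forall_mem_nil _⟩⟩)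
    (fin_sound k38 f38)

theorem k39 : OKG 39 g39_1 := okg_node (by decide) a39_1 (okg (by decide) a39_2) (okg_node (by decide) a39_3 (okg (by decide) a39_4) (okg (by decide) a39_5))
theorem r39 : ∀ m, 2 * 39 - 1 ≤ m → NoRoot 39 m :=
  main (M := 2087) (L := 5342931457063200) (Ls := [(3, 1, 3, 5), (13, 1, 1, 4)]) (by decide +kernel)
    (List.forall_mem_cons.2 ⟨upto_all (by norm_num) (upto_step (by norm_num) (by decide) k39 (upto_zero 39 3 5) b39_3_1), List.forall_mem_cons.2 ⟨upto_all (by norm_num) (upto_step (by norm_num) (by decide) k39 (upto_zero 39 13 4) b39_13_1), List.forall_mem_nil _⟩⟩)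
    (fin_sound k39 f39)

theorem k40 : OKG 40 g40_1 := okg_node (by decide) a40_1 (okg (by decide) a40_2) (okg (by decide) a40_3)
theorem r40 : ∀ m, 2 * 40 - 1 ≤ m → NoRoot 40 m :=
  main (M := 2123) (L := 5342931457063200) (Ls := [(2, 3, 5, 5), (5, 1, 2, 6)]) (by decide +kernel)
    (List.forall_mem_cons.2 ⟨upto_all (by norm_num) (upto_step (by norm_num) (by decide) k40 (upto_zero 40 2 5) b40_2_1), List.forall_mem_cons.2 ⟨upto_all (by norm_num) (upto_step (by norm_num) (by decide) k40 (upto_zero 40 5 6) b40_5_1), List.forall_mem_nil _⟩⟩)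
    (fin_sound k40 f40)

theorem k41 : OKG 41 g41_1 := okg_node (by decide) a41_1 (okg (by decide) a41_2) (okg_node (by decide) a41_3 (okg (by decide) a41_4) (okg_node (by decide) a41_5 (okg (by decide) a41_6) (okg (by decide) a41_7)))
theorem r41 : ∀ m, 2 * 41 - 1 ≤ m → NoRoot 41 m :=
  main (M := 1919) (L := 5342931457063200) (Ls := [(41, 1, 0, 4)]) (by decide +kernel)
    (List.forall_mem_cons.2 ⟨upto_all (by norm_num) (upto_step (by norm_num) (by decide) k41 (upto_step (by norm_num) (by decide) k41 (upto_step (by norm_num) (by decide) k41 (upto_zero 41 41 4) b41_41_1) b41_41_2) b41_41_3), List.forall_mem_nil _⟩)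
    (fin_sound k41 f41)

theorem k42 : OKG 42 g42_1 := okg_node (by decide) a42_1 (okg (by decide) a42_2) (okg (by decide) a42_3)
theorem r42 : ∀ m, 2 * 42 - 1 ≤ m → NoRoot 42 m :=
  main (M := 2616) (L := 219060189739591200) (Ls := [(2, 1, 5, 1), (3, 1, 3, 7), (7, 1, 1, 5)]) (by decide +kernel)
    (List.forall_mem_cons.2 ⟨upto_all (by norm_num) (upto_step (by norm_num) (by decide) k42 (upto_zero 42 2 1) b42_2_1), List.forall_mem_cons.2 ⟨upto_all (by norm_num) (upto_step (by norm_num) (by decide) k42 (upto_zero 42 3 7) b42_3_1), List.forall_mem_cons.2 ⟨upto_all (by norm_num) (upto_step (by norm_num) (by decide) k42 (upto_zero 42 7 5) b42_7_1), List.forall_mem_nil _⟩⟩⟩)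
    (fin_sound k42 f42)

theorem k43 : OKG 43 g43_1 := okg_node (by decide) a43_1 (okg (by decide) a43_2) (okg_node (by decide) a43_3 (okg (by decide) a43_4) (okg_node (by decide) a43_5 (okg (by decide) a43_6) (okg (by decide) a43_7)))
theorem r43 : ∀ m, 2 * 43 - 1 ≤ m → NoRoot 43 m :=
  main (M := 2178) (L := 219060189739591200) (Ls := [(43, 1, 0, 4)]) (by decide +kernel)
    (List.forall_mem_cons.2 ⟨upto_all (by norm_num) (upto_step (by norm_num) (by decide) k43 (upto_step (by norm_num) (by decide) k43 (upto_step (by norm_num) (by decide) k43 (upto_zero 43 43 4) b43_43_1) b43_43_2) b43_43_3), List.forall_mem_nil _⟩)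
    (fin_sound k43 f43)

theorem k44 : OKG 44 g44_1 := okg_node (by decide) a44_1 (okg_node (by decide) a44_2 (okg (by decide) a44_3) (okg (by decide) a44_4)) (okg_node (by decide) a44_5 (okg (by decide) a44_6) (okg (by decide) a44_7))
theorem r44 : ∀ m, 2 * 44 - 1 ≤ m → NoRoot 44 m :=
  main (M := 2530) (L := 9419588158802421600) (Ls := [(2, 2, 5, 3), (11, 1, 1, 4)]) (by decide +kernel)
    (List.forall_mem_cons.2 ⟨upto_all (by norm_num) (upto_step (by norm_num) (by decide) k44 (upto_zero 44 2 3) b44_2_1), List.forall_mem_cons.2 ⟨upto_all (by norm_num) (upto_step (by norm_num) (by decide) k44 (upto_zero 44 11 4) b44_11_1), List.forall_mem_nil _⟩⟩)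
    (fin_sound k44 f44)

theorem k45 : OKG 45 g45_1 := okg_node (by decide) a45_1 (okg_node (by decide) a45_2 (okg (by decide) a45_3) (okg (by decide) a45_4)) (okg (by decide) a45_5)
theorem r45 : ∀ m, 2 * 45 - 1 ≤ m → NoRoot 45 m :=
  main (M := 2985) (L := 9419588158802421600) (Ls := [(3, 2, 3, 9), (5, 1, 2, 6)]) (by decide +kernel)
    (List.forall_mem_cons.2 ⟨upto_all (by norm_num) (upto_step (by norm_num) (by decide) k45 (upto_zero 45 3 9) b45_3_1), List.forall_mem_cons.2 ⟨upto_all (by norm_num) (upto_step (by norm_num) (by decide) k45 (upto_zero 45 5 6) b45_5_1), List.forall_mem_nil _⟩⟩)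
    (fin_sound k45 f45)

theorem k46 : OKG 46 g46_1 := okg_node (by decide) a46_1 (okg_node (by decide) a46_2 (okg (by decide) a46_3) (okg (by decide) a46_4)) (okg_node (by decide) a46_5 (okg (by decide) a46_6) (okg_node (by decide) a46_7 (okg (by decide) a46_8) (okg (by decide) a46_9)))
theorem r46 : ∀ m, 2 * 46 - 1 ≤ m → NoRoot 46 m :=
  main (M := 2718) (L := 9419588158802421600) (Ls := [(2, 1, 5, 1), (23, 1, 1, 4)]) (by decide +kernel)
    (List.forall_mem_cons.2 ⟨upto_all (by norm_num) (upto_step (by norm_num) (by decide) k46 (upto_zero 46 2 1) b46_2_1), List.forall_mem_cons.2 ⟨upto_all (by norm_num) (upto_step (by norm_num) (by decide) k46 (upto_step (by norm_num) (by decide) k46 (upto_zero 46 23 4) b46_23_1) b46_23_2), List.forall_mem_nil _⟩⟩)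
    (fin_sound k46 f46)

theorem k47 : OKG 47 g47_1 := okg_node (by decide) a47_1 (okg_node (by decide) a47_2 (okg (by decide) a47_3) (okg (by decide) a47_4)) (okg_node (by decide) a47_5 (okg_node (by decide) a47_6 (okg (by decide) a47_7) (okg (by decide) a47_8)) (okg_node (by decide) a47_9 (okg (by decide) a47_10) (okg_node (by decide) a47_11 (okg (by decide) a47_12) (okg (by decide) a47_13))))
theorem r47 : ∀ m, 2 * 47 - 1 ≤ m → NoRoot 47 m :=
  main (M := 2570) (L := 9419588158802421600) (Ls := [(47, 1, 0, 4)]) (by decide +kernel)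
    (List.forall_mem_cons.2 ⟨upto_all (by norm_num) (upto_step (by norm_num) (by decide) k47 (upto_step (by norm_num) (by decide) k47 (upto_step (by norm_num) (by decide) k47 (upto_step (by norm_num) (by decide) k47 (upto_step (by norm_num) (by decide) k47 (upto_zero 47 47 4) b47_47_1) b47_47_2) b47_47_3) b47_47_4) b47_47_5), List.forall_mem_nil _⟩)
    (fin_sound k47 f47)

theorem k48 : OKG 48 g48_1 := okg_node (by decide) a48_1 (okg_node (by decide) a48_2 (okg (by decide) a48_3) (okg (by decide) a48_4)) (okg (by decide) a48_5)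
theorem r48 : ∀ m, 2 * 48 - 1 ≤ m → NoRoot 48 m :=
  main (M := 3039) (L := 442720643463713815200) (Ls := [(2, 4, 5, 7), (3, 1, 3, 6)]) (by decide +kernel)
    (List.forall_mem_cons.2 ⟨upto_all (by norm_num) (upto_step (by norm_num) (by decide) k48 (upto_zero 48 2 7) b48_2_1), List.forall_mem_cons.2 ⟨upto_all (by norm_num) (upto_step (by norm_num) (by decide) k48 (upto_zero 48 3 6) b48_3_1), List.forall_mem_nil _⟩⟩)
    (fin_sound k48 f48)

theorem k49 : OKG 49 g49_1 := okg_node (by decide) a49_1 (okg_node (by decide) a49_2 (okg (by decide) a49_3) (okg (by decide) a49_4)) (okg (by decide) a49_5)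
theorem r49 : ∀ m, 2 * 49 - 1 ≤ m → NoRoot 49 m :=
  main (M := 2968) (L := 442720643463713815200) (Ls := [(7, 2, 1, 7)]) (by decide +kernel)
    (List.forall_mem_cons.2 ⟨upto_all (by norm_num) (upto_step (by norm_num) (by decide) k49 (upto_zero 49 7 7) b49_7_1), List.forall_mem_nil _⟩)
    (fin_sound k49 f49)

theorem k50 : OKG 50 g50_1 := okg_node (by decide) a50_1 (okg_node (by decide) a50_2 (okg (by decide) a50_3) (okg (by decide) a50_4)) (okg (by decide) a50_5)
theorem r50 : ∀ m, 2 * 50 - 1 ≤ m → NoRoot 50 m :=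
  main (M := 3260) (L := 3099044504245996706400) (Ls := [(2, 1, 5, 1), (5, 2, 2, 7)]) (by decide +kernel)
    (List.forall_mem_cons.2 ⟨upto_all (by norm_num) (upto_step (by norm_num) (by decide) k50 (upto_zero 50 2 1) b50_2_1), List.forall_mem_cons.2 ⟨upto_all (by norm_num) (upto_step (by norm_num) (by decide) k50 (upto_zero 50 5 7) b50_5_1), List.forall_mem_nil _⟩⟩)
    (fin_sound k50 f50)

theorem k51 : OKG 51 g51_1 := okg_node (by decide) a51_1 (okg_node (by decide) a51_2 (okg (by decide) a51_3) (okg (by decide) a51_4)) (okg_node (by decide) a51_5 (okg (by decide) a51_6) (okg_node (by decide) a51_7 (okg (by decide) a51_8) (okg (by decide) a51_9)))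
theorem r51 : ∀ m, 2 * 51 - 1 ≤ m → NoRoot 51 m :=
  main (M := 3715) (L := 3099044504245996706400) (Ls := [(3, 1, 3, 7), (17, 1, 1, 5)]) (by decide +kernel)
    (List.forall_mem_cons.2 ⟨upto_all (by norm_num) (upto_step (by norm_num) (by decide) k51 (upto_zero 51 3 7) b51_3_1), List.forall_mem_cons.2 ⟨upto_all (by norm_num) (upto_step (by norm_num) (by decide) k51 (upto_step (by norm_num) (by decide) k51 (upto_zero 51 17 5) b51_17_1) b51_17_2), List.forall_mem_nil _⟩⟩)
    (fin_sound k51 f51)

theorem k52 : OKG 52 g52_1 := okg_node (by decide) a52_1 (okg_node (by decide) a52_2 (okg (by decide) a52_3) (okg (by decide) a52_4)) (okg_node (by decide) a52_5 (okg (by decide) a52_6) (okg (by decide) a52_7))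
theorem r52 : ∀ m, 2 * 52 - 1 ≤ m → NoRoot 52 m :=
  main (M := 3328) (L := 3099044504245996706400) (Ls := [(2, 2, 5, 3), (13, 1, 1, 4)]) (by decide +kernel)
    (List.forall_mem_cons.2 ⟨upto_all (by norm_num) (upto_step (by norm_num) (by decide) k52 (upto_zero 52 2 3) b52_2_1), List.forall_mem_cons.2 ⟨upto_all (by norm_num) (upto_step (by norm_num) (by decide) k52 (upto_zero 52 13 4) b52_13_1), List.forall_mem_nil _⟩⟩)
    (fin_sound k52 f52)

theorem k53 : OKG 53 g53_1 := okg_node (by decide) a53_1 (okg_node (by decide) a53_2 (okg (by decide) a53_3) (okg (by decide) a53_4)) (okg_node (by decide) a53_5 (okg_node (by decide) a53_6 (okg (by decide) a53_7) (okg (by decide) a53_8)) (okg_node (by decide) a53_9 (okg (by decide) a53_10) (okg_node (by decide) a53_11 (okg (by decide) a53_12) (okg (by decide) a53_13))))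
theorem r53 : ∀ m, 2 * 53 - 1 ≤ m → NoRoot 53 m :=
  main (M := 3225) (L := 3099044504245996706400) (Ls := [(53, 1, 0, 4)]) (by decide +kernel)
    (List.forall_mem_cons.2 ⟨upto_all (by norm_num) (upto_step (by norm_num) (by decide) k53 (upto_step (by norm_num) (by decide) k53 (upto_step (by norm_num) (by decide) k53 (upto_step (by norm_num) (by decide) k53 (upto_step (by norm_num) (by decide) k53 (upto_step (by norm_num) (by decide) k53 (upto_zero 53 53 4) b53_53_1) b53_53_2) b53_53_3) b53_53_4) b53_53_5) b53_53_6), List.forall_mem_nil _⟩)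
    (fin_sound k53 f53)

theorem k54 : OKG 54 g54_1 := okg_node (by decide) a54_1 (okg_node (by decide) a54_2 (okg (by decide) a54_3) (okg (by decide) a54_4)) (okg (by decide) a54_5)
theorem r54 : ∀ m, 2 * 54 - 1 ≤ m → NoRoot 54 m :=
  main (M := 3752) (L := 164249358725037825439200) (Ls := [(2, 1, 5, 1), (3, 3, 3, 10)]) (by decide +kernel)
    (List.forall_mem_cons.2 ⟨upto_all (by norm_num) (upto_step (by norm_num) (by decide) k54 (upto_zero 54 2 1) b54_2_1), List.forall_mem_cons.2 ⟨upto_all (by norm_num) (upto_step (by norm_num) (by decide) k54 (upto_zero 54 3 10) b54_3_1), List.forall_mem_nil _⟩⟩)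
    (fin_sound k54 f54)

theorem k55 : OKG 55 g55_1 := okg_node (by decide) a55_1 (okg_node (by decide) a55_2 (okg (by decide) a55_3) (okg (by decide) a55_4)) (okg_node (by decide) a55_5 (okg (by decide) a55_6) (okg (by decide) a55_7))
theorem r55 : ∀ m, 2 * 55 - 1 ≤ m → NoRoot 55 m :=
  main (M := 3964) (L := 164249358725037825439200) (Ls := [(5, 1, 2, 5), (11, 1, 1, 4)]) (by decide +kernel)
    (List.forall_mem_cons.2 ⟨upto_all (by norm_num) (upto_step (by norm_num) (by decide) k55 (upto_zero 55 5 5) b55_5_1), List.forall_mem_cons.2 ⟨upto_all (by norm_num) (upto_step (by norm_num) (by decide) k55 (upto_zero 55 11 4) b55_11_1), List.forall_mem_nil _⟩⟩)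
    (fin_sound k55 f55)

theorem k56 : OKG 56 g56_1 := okg_node (by decide) a56_1 (okg_node (by decide) a56_2 (okg (by decide) a56_3) (okg (by decide) a56_4)) (okg (by decide) a56_5)
theorem r56 : ∀ m, 2 * 56 - 1 ≤ m → NoRoot 56 m :=
  main (M := 3962) (L := 164249358725037825439200) (Ls := [(2, 3, 5, 5), (7, 1, 2, 5)]) (by decide +kernel)
    (List.forall_mem_cons.2 ⟨upto_all (by norm_num) (upto_step (by norm_num) (by decide) k56 (upto_zero 56 2 5) b56_2_1), List.forall_mem_cons.2 ⟨upto_all (by norm_num) (upto_step (by norm_num) (by decide) k56 (upto_zero 56 7 5) b56_7_1), List.forall_mem_nil _⟩⟩)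
    (fin_sound k56 f56)

theorem k57 : OKG 57 g57_1 := okg_node (by decide) a57_1 (okg_node (by decide) a57_2 (okg (by decide) a57_3) (okg_node (by decide) a57_4 (okg (by decide) a57_5) (okg (by decide) a57_6))) (okg_node (by decide) a57_7 (okg (by decide) a57_8) (okg_node (by decide) a57_9 (okg (by decide) a57_10) (okg_node (by decide) a57_11 (okg (by decide) a57_12) (okg (by decide) a57_13))))
theorem r57 : ∀ m, 2 * 57 - 1 ≤ m → NoRoot 57 m :=
  main (M := 4432) (L := 164249358725037825439200) (Ls := [(3, 1, 3, 10), (19, 1, 1, 4)]) (by decide +kernel)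
    (List.forall_mem_cons.2 ⟨upto_all (by norm_num) (upto_step (by norm_num) (by decide) k57 (upto_zero 57 3 10) b57_3_1), List.forall_mem_cons.2 ⟨upto_all (by norm_num) (upto_step (by norm_num) (by decide) k57 (upto_step (by norm_num) (by decide) k57 (upto_zero 57 19 4) b57_19_1) b57_19_2), List.forall_mem_nil _⟩⟩)
    (fin_sound k57 f57)

theorem k58 : OKG 58 g58_1 := okg_node (by decide) a58_1 (okg_node (by decide) a58_2 (okg (by decide) a58_3) (okg (by decide) a58_4)) (okg_node (by decide) a58_5 (okg (by decide) a58_6) (okg_node (by decide) a58_7 (okg (by decide) a58_8) (okg_node (by decide) a58_9 (okg (by decide) a58_10) (okg (by decide) a58_11))))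
theorem r58 : ∀ m, 2 * 58 - 1 ≤ m → NoRoot 58 m :=
  main (M := 4049) (L := 164249358725037825439200) (Ls := [(2, 1, 5, 1), (29, 1, 1, 4)]) (by decide +kernel)
    (List.forall_mem_cons.2 ⟨upto_all (by norm_num) (upto_step (by norm_num) (by decide) k58 (upto_zero 58 2 1) b58_2_1), List.forall_mem_cons.2 ⟨upto_all (by norm_num) (upto_step (by norm_num) (by decide) k58 (upto_step (by norm_num) (by decide) k58 (upto_zero 58 29 4) b58_29_1) b58_29_2), List.forall_mem_nil _⟩⟩)
    (fin_sound k58 f58)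

theorem k59 : OKG 59 g59_1 := okg_node (by decide) a59_1 (okg_node (by decide) a59_2 (okg (by decide) a59_3) (okg (by decide) a59_4)) (okg_node (by decide) a59_5 (okg_node (by decide) a59_6 (okg (by decide) a59_7) (okg (by decide) a59_8)) (okg_node (by decide) a59_9 (okg_node (by decide) a59_10 (okg (by decide) a59_11) (okg (by decide) a59_12)) (okg_node (by decide) a59_13 (okg (by decide) a59_14) (okg_node (by decide) a59_15 (okg (by decide) a59_16) (okg (by decide) a59_17)))))
theorem r59 : ∀ m, 2 * 59 - 1 ≤ m → NoRoot 59 m :=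
  main (M := 3844) (L := 164249358725037825439200) (Ls := [(59, 1, 0, 4)]) (by decide +kernel)
    (List.forall_mem_cons.2 ⟨upto_all (by norm_num) (upto_step (by norm_num) (by decide) k59 (upto_step (by norm_num) (by decide) k59 (upto_step (by norm_num) (by decide) k59 (upto_step (by norm_num) (by decide) k59 (upto_step (by norm_num) (by decide) k59 (upto_step (by norm_num) (by decide) k59 (upto_step (by norm_num) (by decide) k59 (upto_zero 59 59 4) b59_59_1) b59_59_2) b59_59_3) b59_59_4) b59_59_5) b59_59_6) b59_59_7), List.forall_mem_nil _⟩)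
    (fin_sound k59 f59)

theorem k60 : OKG 60 g60_1 := okg_node (by decide) a60_1 (okg_node (by decide) a60_2 (okg (by decide) a60_3) (okg_node (by decide) a60_4 (okg (by decide) a60_5) (okg (by decide) a60_6))) (okg_node (by decide) a60_7 (okg (by decide) a60_8) (okg (by decide) a60_9))
theorem r60 : ∀ m, 2 * 60 - 1 ≤ m → NoRoot 60 m :=
  main (M := 4876) (L := 9690712164777231700912800) (Ls := [(2, 2, 5, 3), (3, 1, 3, 7), (5, 1, 2, 5)]) (by decide +kernel)
    (List.forall_mem_cons.2 ⟨upto_all (by norm_num) (upto_step (by norm_num) (by decide) k60 (upto_zero 60 2 3) b60_2_1), List.forall_mem_cons.2 ⟨upto_all (by norm_num) (upto_step (by norm_num) (by decide) k60 (upto_zero 60 3 7) b60_3_1), List.forall_mem_cons.2 ⟨upto_all (by norm_num) (upto_step (by norm_num) (by decide) k60 (upto_zero 60 5 5) b60_5_1), List.forall_mem_nil _⟩⟩⟩)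
    (fin_sound k60 f60)

theorem k61 : OKG 61 g61_1 := okg_node (by decide) a61_1 (okg_node (by decide) a61_2 (okg_node (by decide) a61_3 (okg (by decide) a61_4) (okg (by decide) a61_5)) (okg (by decide) a61_6)) (okg_node (by decide) a61_7 (okg (by decide) a61_8) (okg_node (by decide) a61_9 (okg (by decide) a61_10) (okg_node (by decide) a61_11 (okg (by decide) a61_12) (okg_node (by decide) a61_13 (okg (by decide) a61_14) (okg (by decide) a61_15)))))
theorem r61 : ∀ m, 2 * 61 - 1 ≤ m → NoRoot 61 m :=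
  main (M := 4228) (L := 9690712164777231700912800) (Ls := [(61, 1, 0, 4)]) (by decide +kernel)
    (List.forall_mem_cons.2 ⟨upto_all (by norm_num) (upto_step (by norm_num) (by decide) k61 (upto_step (by norm_num) (by decide) k61 (upto_step (by norm_num) (by decide) k61 (upto_step (by norm_num) (by decide) k61 (upto_step (by norm_num) (by decide) k61 (upto_zero 61 61 4) b61_61_1) b61_61_2) b61_61_3) b61_61_4) b61_61_5), List.forall_mem_nil _⟩)
    (fin_sound k61 f61)

theorem k62 : OKG 62 g62_1 := okg_node (by decide) a62_1 (okg_node (by decide) a62_2 (okg (by decide) a62_3) (okg_node (by decide) a62_4 (okg (by decide) a62_5) (okg (by decide) a62_6))) (okg_node (by decide) a62_7 (okg (by decide) a62_8) (okg_node (by decide) a62_9 (okg (by decide) a62_10) (okg_node (by decide) a62_11 (okg (by decide) a62_12) (okg (by decide) a62_13))))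
theorem r62 : ∀ m, 2 * 62 - 1 ≤ m → NoRoot 62 m :=
  main (M := 4850) (L := 591133442051411133755680800) (Ls := [(2, 1, 5, 1), (31, 1, 1, 4)]) (by decide +kernel)
    (List.forall_mem_cons.2 ⟨upto_all (by norm_num) (upto_step (by norm_num) (by decide) k62 (upto_zero 62 2 1) b62_2_1), List.forall_mem_cons.2 ⟨upto_all (by norm_num) (upto_step (by norm_num) (by decide) k62 (upto_step (by norm_num) (by decide) k62 (upto_zero 62 31 4) b62_31_1) b62_31_2), List.forall_mem_nil _⟩⟩)
    (fin_sound k62 f62)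

theorem k63 : OKG 63 g63_1 := okg_node (by decide) a63_1 (okg_node (by decide) a63_2 (okg (by decide) a63_3) (okg_node (by decide) a63_4 (okg (by decide) a63_5) (okg (by decide) a63_6))) (okg_node (by decide) a63_7 (okg (by decide) a63_8) (okg (by decide) a63_9))
theorem r63 : ∀ m, 2 * 63 - 1 ≤ m → NoRoot 63 m :=
  main (M := 5270) (L := 591133442051411133755680800) (Ls := [(3, 2, 3, 8), (7, 1, 2, 5)]) (by decide +kernel)
    (List.forall_mem_cons.2 ⟨upto_all (by norm_num) (upto_step (by norm_num) (by decide) k63 (upto_zero 63 3 8) b63_3_1), List.forall_mem_cons.2 ⟨upto_all (by norm_num) (upto_step (by norm_num) (by decide) k63 (upto_zero 63 7 5) b63_7_1), List.forall_mem_nil _⟩⟩)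
    (fin_sound k63 f63)

theorem k64 : OKG 64 g64_1 := okg_node (by decide) a64_1 (okg_node (by decide) a64_2 (okg (by decide) a64_3) (okg (by decide) a64_4)) (okg (by decide) a64_5)
theorem r64 : ∀ m, 2 * 64 - 1 ≤ m → NoRoot 64 m :=
  main (M := 4576) (L := 591133442051411133755680800) (Ls := [(2, 6, 5, 11)]) (by decide +kernel)
    (List.forall_mem_cons.2 ⟨upto_all (by norm_num) (upto_step (by norm_num) (by decide) k64 (upto_zero 64 2 11) b64_2_1), List.forall_mem_nil _⟩)
    (fin_sound k64 f64)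

theorem k65 : OKG 65 g65_1 := okg_node (by decide) a65_1 (okg_node (by decide) a65_2 (okg_node (by decide) a65_3 (okg (by decide) a65_4) (okg (by decide) a65_5)) (okg_node (by decide) a65_6 (okg (by decide) a65_7) (okg (by decide) a65_8))) (okg_node (by decide) a65_9 (okg (by decide) a65_10) (okg_node (by decide) a65_11 (okg (by decide) a65_12) (okg (by decide) a65_13)))
theorem r65 : ∀ m, 2 * 65 - 1 ≤ m → NoRoot 65 m :=
  main (M := 5411) (L := 1182266884102822267511361600) (Ls := [(5, 1, 2, 6), (13, 1, 1, 4)]) (by decide +kernel)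
    (List.forall_mem_cons.2 ⟨upto_all (by norm_num) (upto_step (by norm_num) (by decide) k65 (upto_zero 65 5 6) b65_5_1), List.forall_mem_cons.2 ⟨upto_all (by norm_num) (upto_step (by norm_num) (by decide) k65 (upto_zero 65 13 4) b65_13_1), List.forall_mem_nil _⟩⟩)
    (fin_sound k65 f65)

theorem k66 : OKG 66 g66_1 := okg_node (by decide) a66_1 (okg_node (by decide) a66_2 (okg_node (by decide) a66_3 (okg (by decide) a66_4) (okg (by decide) a66_5)) (okg_node (by decide) a66_6 (okg (by decide) a66_7) (okg (by decide) a66_8))) (okg_node (by decide) a66_9 (okg (by decide) a66_10) (okg_node (by decide) a66_11 (okg (by decide) a66_12) (okg (by decide) a66_13)))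
theorem r66 : ∀ m, 2 * 66 - 1 ≤ m → NoRoot 66 m :=
  main (M := 5718) (L := 1182266884102822267511361600) (Ls := [(2, 1, 6, 1), (3, 1, 3, 6), (11, 1, 1, 5)]) (by decide +kernel)
    (List.forall_mem_cons.2 ⟨upto_all (by norm_num) (upto_step (by norm_num) (by decide) k66 (upto_zero 66 2 1) b66_2_1), List.forall_mem_cons.2 ⟨upto_all (by norm_num) (upto_step (by norm_num) (by decide) k66 (upto_zero 66 3 6) b66_3_1), List.forall_mem_cons.2 ⟨upto_all (by norm_num) (upto_step (by norm_num) (by decide) k66 (upto_zero 66 11 5) b66_11_1), List.forall_mem_nil _⟩⟩⟩)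
    (fin_sound k66 f66)

theorem k67 : OKG 67 g67_1 := okg_node (by decide) a67_1 (okg_node (by decide) a67_2 (okg_node (by decide) a67_3 (okg (by decide) a67_4) (okg (by decide) a67_5)) (okg_node (by decide) a67_6 (okg (by decide) a67_7) (okg (by decide) a67_8))) (okg_node (by decide) a67_9 (okg (by decide) a67_10) (okg_node (by decide) a67_11 (okg_node (by decide) a67_12 (okg (by decide) a67_13) (okg (by decide) a67_14)) (okg_node (by decide) a67_15 (okg (by decide) a67_16) (okg_node (by decide) a67_17 (okg (by decide) a67_18) (okg (by decide) a67_19)))))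
theorem r67 : ∀ m, 2 * 67 - 1 ≤ m → NoRoot 67 m :=
  main (M := 4986) (L := 1182266884102822267511361600) (Ls := [(67, 1, 0, 4)]) (by decide +kernel)
    (List.forall_mem_cons.2 ⟨upto_all (by norm_num) (upto_step (by norm_num) (by decide) k67 (upto_step (by norm_num) (by decide) k67 (upto_step (by norm_num) (by decide) k67 (upto_step (by norm_num) (by decide) k67 (upto_step (by norm_num) (by decide) k67 (upto_step (by norm_num) (by decide) k67 (upto_step (by norm_num) (by decide) k67 (upto_zero 67 67 4) b67_67_1) b67_67_2) b67_67_3) b67_67_4) b67_67_5) b67_67_6) b67_67_7), List.forall_mem_nil _⟩)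
    (fin_sound k67 f67)

theorem k68 : OKG 68 g68_1 := okg_node (by decide) a68_1 (okg_node (by decide) a68_2 (okg_node (by decide) a68_3 (okg (by decide) a68_4) (okg (by decide) a68_5)) (okg_node (by decide) a68_6 (okg (by decide) a68_7) (okg (by decide) a68_8))) (okg_node (by decide) a68_9 (okg (by decide) a68_10) (okg_node (by decide) a68_11 (okg (by decide) a68_12) (okg (by decide) a68_13)))
theorem r68 : ∀ m, 2 * 68 - 1 ≤ m → NoRoot 68 m :=
  main (M := 5632) (L := 79211881234889091923261227200) (Ls := [(2, 2, 6, 3), (17, 1, 1, 4)]) (by decide +kernel)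
    (List.forall_mem_cons.2 ⟨upto_all (by norm_num) (upto_step (by norm_num) (by decide) k68 (upto_zero 68 2 3) b68_2_1), List.forall_mem_cons.2 ⟨upto_all (by norm_num) (upto_step (by norm_num) (by decide) k68 (upto_step (by norm_num) (by decide) k68 (upto_zero 68 17 4) b68_17_1) b68_17_2), List.forall_mem_nil _⟩⟩)
    (fin_sound k68 f68)

theorem k69 : OKG 69 g69_1 := okg_node (by decide) a69_1 (okg_node (by decide) a69_2 (okg_node (by decide) a69_3 (okg (by decide) a69_4) (okg (by decide) a69_5)) (okg_node (by decide) a69_6 (okg (by decide) a69_7) (okg (by decide) a69_8))) (okg_node (by decide) a69_9 (okg (by decide) a69_10) (okg_node (by decide) a69_11 (okg (by decide) a69_12) (okg_node (by decide) a69_13 (okg (by decide) a69_14) (okg (by decide) a69_15))))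
theorem r69 : ∀ m, 2 * 69 - 1 ≤ m → NoRoot 69 m :=
  main (M := 6021) (L := 79211881234889091923261227200) (Ls := [(3, 1, 3, 6), (23, 1, 1, 4)]) (by decide +kernel)
    (List.forall_mem_cons.2 ⟨upto_all (by norm_num) (upto_step (by norm_num) (by decide) k69 (upto_zero 69 3 6) b69_3_1), List.forall_mem_cons.2 ⟨upto_all (by norm_num) (upto_step (by norm_num) (by decide) k69 (upto_step (by norm_num) (by decide) k69 (upto_zero 69 23 4) b69_23_1) b69_23_2), List.forall_mem_nil _⟩⟩)
    (fin_sound k69 f69)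

theorem k70 : OKG 70 g70_1 := okg_node (by decide) a70_1 (okg_node (by decide) a70_2 (okg_node (by decide) a70_3 (okg (by decide) a70_4) (okg (by decide) a70_5)) (okg_node (by decide) a70_6 (okg (by decide) a70_7) (okg (by decide) a70_8))) (okg_node (by decide) a70_9 (okg (by decide) a70_10) (okg_node (by decide) a70_11 (okg (by decide) a70_12) (okg (by decide) a70_13)))
theorem r70 : ∀ m, 2 * 70 - 1 ≤ m → NoRoot 70 m :=
  main (M := 6510) (L := 79211881234889091923261227200) (Ls := [(2, 1, 6, 1), (5, 1, 2, 6), (7, 1, 2, 5)]) (by decide +kernel)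
    (List.forall_mem_cons.2 ⟨upto_all (by norm_num) (upto_step (by norm_num) (by decide) k70 (upto_zero 70 2 1) b70_2_1), List.forall_mem_cons.2 ⟨upto_all (by norm_num) (upto_step (by norm_num) (by decide) k70 (upto_zero 70 5 6) b70_5_1), List.forall_mem_cons.2 ⟨upto_all (by norm_num) (upto_step (by norm_num) (by decide) k70 (upto_zero 70 7 5) b70_7_1), List.forall_mem_nil _⟩⟩⟩)
    (fin_sound k70 f70)

theorem all (s : ℕ) (h1 : 4 ≤ s) (h2 : s ≤ 70) : ∀ m, 2 * s - 1 ≤ m → NoRoot s m := by
  interval_cases s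
  exacts [r4, r5, r6, r7, r8, r9, r10, r11, r12, r13, r14, r15, r16, r17, r18, r19, r20, r21, r22, r23, r24, r25, r26, r27, r28, r29, r30, r31, r32, r33, r34, r35, r36, r37, r38, r39, r40, r41, r42, r43, r44, r45, r46, r47, r48, r49, r50, r51, r52, r53, r54, r55, r56, r57, r58, r59, r60, r61, r62, r63, r64, r65, r66, r67, r68, r69, r70]

end Pool.Agent.Lib.MP_b5d28a_nt.H6
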