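import Pool.Agent.Lib.MP_b5d28a_nt.H6.Main

-- part Pool.Agent.Lib.MP_b5d28a_nt.H6.Pow
section

/-!
The valuation of the sum `E` through power sums and Bernoulli numbers.
-/

namespace Pool.Agent.Lib.MP_b5d28a_nt.H6

open Finset

/-- sum over the `j < s` prime to `l` -/
def SU (l s : ℕ) (g : ℕ → ℤ) : ℤ := ∑ j ∈ range s, if j % l = 0 then 0 else g j

def P (l s r : ℕ) : ℤ := SU l s fun j => (j : ℤ) ^ r

theorem SU_dvd {l s : ℕ} {g : ℕ → ℤ} {d : ℤ} (h : ∀ j, j < s → j % l ≠ 0 → d ∣ g j) :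
    d ∣ SU l s g := by
  refine dvd_sum fun j hj => ?_
  split_ifs with h1
  · exact dvd_zero _
  · exact h j (mem_range.1 hj) h1

theorem SU_add (l s : ℕ) (f g : ℕ → ℤ) : SU l s (fun j => f j + g j) = SU l s f + SU l s g := by
  unfold SU; rw [← sum_add_distrib]; exact sum_congr rfl fun j _ => by split_ifs <;> simp

theorem SU_mul (l s : ℕ) (c : ℤ) (f : ℕ → ℤ) : SU l s (fun j => c * f j) = c * SU l s f := by
  unfold SU; rw [mul_sum]; exact sum_congr rfl fun j _ => by split_ifs <;> simp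

theorem SU_reflect {l s : ℕ} (hls : l ∣ s) (g : ℕ → ℤ) : SU l s (fun j => g (s - j)) = SU l s g := by
  have h0 : s % l = 0 := Nat.mod_eq_zero_of_dvd hls
  have := sum_range_reflect (fun j => if j % l = 0 then 0 else g j) (s + 1)
  rw [sum_range_succ, sum_range_succ] at this
  simp only [Nat.add_sub_cancel, Nat.sub_self, Nat.zero_mod, if_true, add_zero, h0] at this
  unfold SU
  rw [← this]
  refine sum_congr rfl fun j hj => ?_
  have hj := (mem_range.1 hj).le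
  have : (s - j) % l = 0 ↔ j % l = 0 := by
    rw [← Nat.dvd_iff_mod_eq_zero, ← Nat.dvd_iff_mod_eq_zero]
    refine ⟨fun h => ?_, fun h => Nat.dvd_sub hls h⟩
    have := Nat.dvd_sub hls h
    rwa [Nat.sub_sub_self hj] at this
  simp only [this]

theorem P_odd {l s r : ℕ} (hl : l.Prime) (h2 : l ≠ 2) (hls : l ∣ s) (hr : Odd r) :
    (l : ℤ) ∣ P l s r := by
  have h1 : (l : ℤ) ∣ SU l s fun j => (j : ℤ) ^ r + ((s - j : ℕ) : ℤ) ^ r := by
    refine SU_dvd fun j hj _ => ?_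
    refine dvd_trans ?_ (hr.add_dvd_pow_add_pow _ _)
    rw [Nat.cast_sub hj.le, add_sub_cancel]
    exact_mod_cast hls
  rw [SU_add, SU_reflect hls (fun j => (j : ℤ) ^ r), ← two_mul] at h1
  refine ((Nat.prime_iff_prime_int.1 hl).dvd_or_dvd h1).resolve_left fun h => h2 ?_
  exact (Nat.prime_dvd_prime_iff_eq hl Nat.prime_two).1 (by exact_mod_cast h)

theorem E_eq (s l m : ℕ) :
    (E s l m : ℤ) = SU l s fun j => ((s - j : ℕ) : ℤ) ^ m * ((DD l s / j : ℕ) : ℤ) := by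
  unfold E SU; rw [Nat.cast_sum]
  exact sum_congr rfl fun j _ => by split_ifs <;> simp

theorem not_dvd_DD {l : ℕ} (hl : l.Prime) (s : ℕ) : ¬ l ∣ DD l s := by
  unfold DD
  rw [(Nat.prime_iff.1 hl).dvd_finsetProd_iff]
  rintro ⟨j, -, h⟩
  split_ifs at h with h1
  · exact hl.not_dvd_one h
  · exact h1 (Nat.mod_eq_zero_of_dvd h)

theorem unit_cancel {l j x : ℕ} (hl : l.Prime) (h : j % l ≠ 0) {z : ℤ} (hz : (l : ℤ) ^ x ∣ j * z) :
    (l : ℤ) ^ x ∣ z :=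
  (Nat.prime_iff_prime_int.1 hl).pow_dvd_of_dvd_mul_left x
    (fun hc => h (Nat.mod_eq_zero_of_dvd (by exact_mod_cast hc))) hz

theorem caseA {l s w d m : ℕ} (hl : l.Prime) (hw : 1 ≤ w) (hs : l ^ w ∣ s)
    (hd : d = 0 ∨ (d = 1 ∧ l ≠ 2)) (hm : Even m) (h : l ^ (w + d) ∣ E s l (m + 3)) :
    (l : ℤ) ^ (w + d) ∣ P l s (m + 2) := by
  have hls : l ∣ s := (dvd_pow_self l (by omega)).trans hs
  have hs' : (l : ℤ) ^ w ∣ s := by exact_mod_cast hs
  have h1 : (l : ℤ) ^ (w + d) ∣ SU l s fun j => ((s - j : ℕ) : ℤ) ^ (m + 3) * ((DD l s / j : ℕ) : ℤ) +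
      ((DD l s : ℤ) * (j : ℤ) ^ (m + 2) + -(DD l s * (m + 3) * s) * (j : ℤ) ^ (m + 1)) := by
    refine SU_dvd fun j hj hjl => unit_cancel hl hjl ?_
    obtain ⟨e, he⟩ := dvd_DD hj hjl
    have hj0 : 0 < j := Nat.pos_of_ne_zero (by rintro rfl; simp at hjl)
    have h2 := sq_dvd_add_pow_sub_sub (s : ℤ) (-(j : ℤ)) (m + 3)
    have h3 : (l : ℤ) ^ (w + d) ∣ (s : ℤ) ^ 2 := by
      refine dvd_trans ?_ (pow_dvd_pow_of_dvd hs' 2)
      rw [← pow_mul]; exact pow_dvd_pow _ (by omega)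
    refine ((h3.trans h2).mul_left (DD l s)).trans (dvd_of_eq ?_)
    rw [he, Nat.mul_div_cancel_left _ hj0, Nat.cast_sub hj.le, show m + 3 - 1 = m + 2 by omega,
      (hm.add even_two).neg_pow, (hm.add_odd (by decide : Odd 3)).neg_pow, neg_add_eq_sub]
    push_cast
    ring
  rw [SU_add, SU_add, SU_mul, SU_mul, ← E_eq] at h1
  have h4 : (l : ℤ) ^ (w + d) ∣ -(DD l s * (m + 3) * s) * P l s (m + 1) := by
    rcases hd with rfl | ⟨rfl, h2⟩
    · exact Dvd.dvd.mul_right (dvd_neg.2 (hs'.mul_left _)) _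
    · rw [pow_succ]
      exact mul_dvd_mul (dvd_neg.2 (hs'.mul_left _)) (P_odd hl h2 hls hm.add_one)
  have h5 : (l : ℤ) ^ (w + d) ∣ (E s l (m + 3) : ℤ) := by exact_mod_cast h
  have h6 := (dvd_add_left h4).1 ((dvd_add_right h5).1 h1)
  exact unit_cancel hl (fun hc => not_dvd_DD hl s (Nat.dvd_of_mod_eq_zero hc)) h6

theorem tail {l s w v d q : ℕ} (hl : l.Prime) (hw : 1 ≤ w) (hs : l ^ w ∣ s) (hq : l ^ v ∣ q + 3)
    (hd : ∀ r, 3 ≤ r → d + 2 ≤ r ∧ r < l ^ (r - 1 - d)) (x : ℤ) :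
    (l : ℤ) ^ (v + 2 * w + d) ∣ (s + x) ^ (q + 3) - (x ^ (q + 3) + (q + 3) * s * x ^ (q + 2) +
      ((q + 3).choose 2 : ℕ) * s ^ 2 * x ^ (q + 1)) := by
  rw [add_pow, sum_range_succ', sum_range_succ', sum_range_succ']
  have h1 : (l : ℤ) ^ (v + 2 * w + d) ∣ ∑ r ∈ range (q + 1), (s : ℤ) ^ (r + 1 + 1 + 1) *
      x ^ (q + 3 - (r + 1 + 1 + 1)) * ((q + 3).choose (r + 1 + 1 + 1) : ℕ) := by
    refine dvd_sum fun r _ => ?_
    obtain ⟨a1, a2⟩ := hd (r + 1 + 1 + 1) (by omega)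
    rw [show r + 1 + 1 + 1 - 1 - d = (r + 1 - d) + 1 by omega] at a2
    refine cancel hl (by omega) a2 ?_
    have e : (((r + 1 + 1 + 1) * (q + 3).choose (r + 1 + 1 + 1) : ℕ) : ℤ)
        = (((q + 3) * (q + 3 - 1).choose (r + 1 + 1) : ℕ) : ℤ) := by
      rw [mul_choose (by omega)]
    have h2 : (l : ℤ) ^ (v + 2 * w + d + (r + 1 - d)) ∣ ((q + 3 : ℕ) : ℤ) * (s : ℤ) ^ (r + 1 + 1 + 1) := by
      refine dvd_trans ?_ (mul_dvd_mul (show (l : ℤ) ^ v ∣ _ by exact_mod_cast hq)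
        (pow_dvd_pow_of_dvd (show (l : ℤ) ^ w ∣ _ by exact_mod_cast hs) _))
      rw [← pow_mul, ← pow_add]
      refine pow_dvd_pow _ ?_
      have : r + 1 ≤ w * (r + 1) := Nat.le_mul_of_pos_left _ hw
      have e : w * (r + 1 + 1 + 1) = w * (r + 1) + 2 * w := by ring
      omega
    refine (h2.mul_right (x ^ (q + 3 - (r + 1 + 1 + 1)) * ((q + 3 - 1).choose (r + 1 + 1) : ℕ))).trans
      (dvd_of_eq ?_)
    generalize q + 3 - (r + 1 + 1 + 1) = y
    push_cast at e ⊢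
    linear_combination (-(s : ℤ) ^ (r + 1 + 1 + 1) * x ^ y) * e
  refine h1.trans (dvd_of_eq ?_)
  simp only [zero_add, Nat.choose_one_right, Nat.choose_zero_right, Nat.sub_zero,
    show q + 3 - (1 + 1) = q + 1 by omega, show q + 3 - 1 = q + 2 by omega]
  push_cast
  ring

theorem caseB {l s w v d m : ℕ} (hl : l.Prime) (hw : 1 ≤ w) (hs : l ^ w ∣ s) (hs1 : ¬ l ^ (w + 1) ∣ s)
    (hq : l ^ v ∣ m + 5) (hq1 : ¬ l ^ (v + 1) ∣ m + 5) (hd : d = 0 ∨ (d = 1 ∧ l ≠ 2))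
    (hd' : ∀ r, 3 ≤ r → d + 2 ≤ r ∧ r < l ^ (r - 1 - d)) (hm : Even m)
    (h : l ^ (v + 2 * w + d) ∣ 2 * E s l (m + 4)) : (l : ℤ) ^ (w + d) ∣ P l s (m + 2) := by
  have hls : l ∣ s := (dvd_pow_self l (by omega)).trans hs
  have hs' : (l : ℤ) ^ w ∣ s := by exact_mod_cast hs
  have hq' : (l : ℤ) ^ v ∣ (m + 5) := by exact_mod_cast hq
  obtain ⟨u, hu⟩ := hm
  have hm : Even m := ⟨u, hu⟩
  have hC : (((m + 2 + 3).choose 2 : ℕ) : ℤ) = (m + 5) * (u + 2) := by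
    rw [Nat.choose_two_right, show (m + 2 + 3) * (m + 2 + 3 - 1) = 2 * ((m + 5) * (u + 2)) by
      rw [show m + 2 + 3 - 1 = m + 4 by omega, hu]; ring, Nat.mul_div_cancel_left _ two_pos]
    push_cast; ring
  have hqs : (l : ℤ) ^ (v + 2 * w) ∣ (m + 5) * (s : ℤ) ^ 2 := by
    rw [pow_add, mul_comm 2 w, pow_mul]
    exact mul_dvd_mul hq' (pow_dvd_pow_of_dvd hs' 2)
  have h1 : (l : ℤ) ^ (v + 2 * w + d) ∣ SU l s fun j =>
      (((s - j : ℕ) : ℤ) ^ (m + 4) * ((DD l s / j : ℕ) : ℤ) +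
        ((s - (s - j) : ℕ) : ℤ) ^ (m + 4) * ((DD l s / (s - j) : ℕ) : ℤ)) +
      ((DD l s * ((m + 5) * s) : ℤ) * (j : ℤ) ^ (m + 2) +
        -(DD l s * (u + 1) * ((m + 5) * s ^ 2)) * (j : ℤ) ^ (m + 1)) := by
    refine SU_dvd fun j hj hjl => ?_
    have hjl' : (s - j) % l ≠ 0 := by
      intro hc
      have := Nat.dvd_sub hls (Nat.dvd_of_mod_eq_zero hc)
      rw [Nat.sub_sub_self hj.le] at this
      exact hjl (Nat.mod_eq_zero_of_dvd this)
    refine unit_cancel hl hjl (unit_cancel hl hjl' ?_)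
    have hj0 : 0 < j := Nat.pos_of_ne_zero (by rintro rfl; simp at hjl)
    have e1 : (j : ℤ) * ((DD l s / j : ℕ) : ℤ) = DD l s := by
      exact_mod_cast Nat.mul_div_cancel' (dvd_DD hj hjl)
    have e2 : ((s - j : ℕ) : ℤ) * ((DD l s / (s - j) : ℕ) : ℤ) = DD l s := by
      exact_mod_cast Nat.mul_div_cancel' (dvd_DD (by omega) hjl')
    have h2 := tail (q := m + 2) hl hw hs hq hd' (-(j : ℤ))
    have h3 : (l : ℤ) ^ (v + 2 * w + d) ∣ (m + 5) * (s : ℤ) ^ 2 * s := by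
      refine dvd_trans ?_ (mul_dvd_mul hqs hs')
      rw [← pow_add]; exact pow_dvd_pow _ (by omega)
    refine (dvd_sub (h2.mul_left (DD l s)) (h3.mul_left (DD l s * (u + 1) * (j : ℤ) ^ (m + 2)))).trans
      (dvd_of_eq ?_)
    rw [Nat.sub_sub_self hj.le, hC, (hm.add_odd (by decide : Odd 3)).neg_pow,
      show m + 2 + 3 = m + 5 by omega, (hm.add_odd (by decide : Odd 5)).neg_pow,
      show m + 2 + 2 = m + 4 by omega, (hm.add (by decide : Even 4)).neg_pow]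
    generalize ((DD l s / j : ℕ) : ℤ) = a at *
    generalize ((DD l s / (s - j) : ℕ) : ℤ) = b at *
    rw [Nat.cast_sub hj.le] at *
    push_cast
    rw [← sub_eq_add_neg]
    linear_combination (-((s : ℤ) - j) ^ (m + 5)) * e1 - (j : ℤ) ^ (m + 5) * e2
  rw [SU_add, SU_add, SU_add, SU_mul, SU_mul,
    SU_reflect hls (fun j => ((s - j : ℕ) : ℤ) ^ (m + 4) * ((DD l s / j : ℕ) : ℤ)), ← E_eq,
    ← two_mul] at h1
  have h4 : (l : ℤ) ^ (v + 2 * w + d) ∣ -(DD l s * (u + 1) * ((m + 5) * s ^ 2)) * P l s (m + 1) := by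
    rcases hd with rfl | ⟨rfl, h2⟩
    · exact Dvd.dvd.mul_right (dvd_neg.2 (hqs.mul_left _)) _
    · rw [pow_succ]
      exact mul_dvd_mul (dvd_neg.2 (hqs.mul_left _)) (P_odd hl h2 hls hm.add_one)
  have h5 : (l : ℤ) ^ (v + 2 * w + d) ∣ 2 * (E s l (m + 4) : ℤ) := by exact_mod_cast h
  have h6 := (dvd_add_left h4).1 ((dvd_add_right h5).1 h1)
  obtain ⟨q', hq2⟩ := hq
  obtain ⟨s', hs2⟩ := hs
  have n1 : q' % l ≠ 0 := fun hc => hq1 (by
    rw [hq2, pow_succ]; exact Nat.mul_dvd_mul_left _ (Nat.dvd_of_mod_eq_zero hc))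
  have n2 : s' % l ≠ 0 := fun hc => hs1 (by
    rw [hs2, pow_succ]; exact Nat.mul_dvd_mul_left _ (Nat.dvd_of_mod_eq_zero hc))
  refine unit_cancel hl n1 (unit_cancel hl n2 (unit_cancel hl
    (fun hc => not_dvd_DD hl s (Nat.dvd_of_mod_eq_zero hc)) ?_))
  have hq3 : (m + 5 : ℤ) = l ^ v * q' := by exact_mod_cast hq2
  have hs3 : (s : ℤ) = l ^ w * s' := by exact_mod_cast hs2
  refine (mul_dvd_mul_iff_left (pow_ne_zero (v + w) (by exact_mod_cast hl.ne_zero : (l : ℤ) ≠ 0))).1 ?_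
  rw [← pow_add, show v + w + (w + d) = v + 2 * w + d by ring]
  refine h6.trans (dvd_of_eq ?_)
  change _ * P l s (m + 2) = _
  generalize P l s (m + 2) = y
  generalize (DD l s : ℤ) = D
  rw [hq3, hs3]; ring

theorem P_mul {l N : ℕ} (h : l ∣ N) (r b : ℕ) : (N : ℤ) ^ 2 ∣ P l (N * b) (r + 1) -
    (b * P l N (r + 1) + (r + 1) * N * (b.choose 2 : ℕ) * P l N r) := by
  induction b with
  | zero => simp [P, SU]
  | succ b ih =>
    have e : P l (N * (b + 1)) (r + 1) = P l (N * b) (r + 1) +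
        SU l N fun j => ((j : ℤ) + N * b) ^ (r + 1) := by
      unfold P SU
      rw [mul_add, mul_one, sum_range_add]
      congr 1
      refine sum_congr rfl fun j _ => ?_
      obtain ⟨c, rfl⟩ := h
      rw [mul_assoc, Nat.mul_add_mod]
      push_cast
      rw [add_comm, mul_assoc]
    have h1 : (N : ℤ) ^ 2 ∣ SU l N fun j => ((j : ℤ) + N * b) ^ (r + 1) +
        (-((r + 1) * N * b) * (j : ℤ) ^ r + (-1) * (j : ℤ) ^ (r + 1)) := by
      refine SU_dvd fun j _ _ => ?_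
      have := sq_dvd_add_pow_sub_sub ((N : ℤ) * b) j (r + 1)
      refine ((pow_dvd_pow_of_dvd (dvd_mul_right _ _) 2).trans this).trans (dvd_of_eq ?_)
      rw [Nat.add_sub_cancel]; push_cast; ring
    rw [SU_add, SU_add, SU_mul, SU_mul] at h1
    refine (dvd_add ih h1).trans (dvd_of_eq ?_)
    rw [e, Nat.choose_succ_succ' b 1, Nat.choose_one_right]
    unfold P
    push_cast
    ring

theorem P_prime {l r : ℕ} (hl : l.Prime) (hr : l - 1 ∣ r) : (l : ℤ) ∣ P l l r + 1 := by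
  have h1 : (l : ℤ) ∣ SU l l fun j => (j : ℤ) ^ r + (-1) * 1 := by
    refine SU_dvd fun j hj hjl => ?_
    obtain ⟨c, rfl⟩ := hr
    have hc : Nat.Coprime j l := ((Nat.Prime.coprime_iff_not_dvd hl).2
      fun hc => hjl (Nat.mod_eq_zero_of_dvd hc)).symm
    have h2 := (Nat.ModEq.pow_totient hc).pow c
    rw [Nat.totient_prime hl, ← pow_mul, one_pow] at h2
    have := h2.symm.dvd
    push_cast at this
    simpa [sub_eq_add_neg] using this
  rw [SU_add, SU_mul] at h1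
  have h2 : SU l l (fun _ => 1) = l - 1 := by
    obtain ⟨u, rfl⟩ : ∃ u, l = u + 1 := ⟨l - 1, by have := hl.pos; omega⟩
    unfold SU
    rw [sum_range_succ', sum_congr rfl (g := fun _ => (1 : ℤ)) fun j hj => by
      rw [if_neg]
      rw [Nat.mod_eq_of_lt (by have := mem_range.1 hj; omega)]; omega]
    simp
  rw [h2] at h1
  refine (dvd_add h1 (dvd_refl _)).trans (dvd_of_eq ?_)
  unfold P; ring

theorem P_pow {l r : ℕ} (hl : l.Prime) (hr : l - 1 ∣ r + 1) (he : Even (r + 1)) (w : ℕ) :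
    (l : ℤ) ^ (w + 1) ∣ P l (l ^ (w + 1)) (r + 1) + l ^ w := by
  induction w with
  | zero => simpa using P_prime hl hr
  | succ w ih =>
    have h1 := P_mul (dvd_pow_self l (by omega : w + 1 ≠ 0)) r l
    rw [← pow_succ] at h1
    have h2 : (l : ℤ) ^ (w + 1 + 1) ∣ ((l ^ (w + 1) : ℕ) : ℤ) ^ 2 := by
      push_cast; rw [← pow_mul]; exact pow_dvd_pow _ (by omega)
    obtain ⟨u, hu⟩ := he
    have hu' : (r + 1 : ℤ) = u + u := by exact_mod_cast hu
    have h3 : (l.choose 2 : ℤ) * 2 = l * (l - 1 : ℕ) := by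
      have := Nat.choose_succ_right_eq l 1
      rw [Nat.choose_one_right] at this
      exact_mod_cast this
    have h4 : (l : ℤ) ^ (w + 1 + 1) ∣ l * (P l (l ^ (w + 1)) (r + 1) + l ^ w) := by
      rw [pow_succ']; exact mul_dvd_mul_left _ ih
    refine (dvd_add (dvd_add (h2.trans h1) h4) (dvd_mul_right ((l : ℤ) ^ (w + 1 + 1))
      (u * (l - 1 : ℕ) * P l (l ^ (w + 1)) r))).trans (dvd_of_eq ?_)
    rw [hu']
    push_cast
    linear_combination (-(u : ℤ) * l ^ (w + 1) * P l (l ^ (w + 1)) r) * h3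

theorem P_coarse {l r w s : ℕ} (hl : l.Prime) (hr : l - 1 ∣ r + 1) (he : Even (r + 1)) (hw : 1 ≤ w)
    (hs : l ^ w ∣ s) (hs1 : ¬ l ^ (w + 1) ∣ s) : ¬ (l : ℤ) ^ w ∣ P l s (r + 1) := by
  obtain ⟨w, rfl⟩ : ∃ u, w = u + 1 := ⟨w - 1, by omega⟩
  obtain ⟨s', rfl⟩ := hs
  have n2 : s' % l ≠ 0 := fun hc => hs1 (by
    rw [pow_succ l (w + 1)]; exact Nat.mul_dvd_mul_left _ (Nat.dvd_of_mod_eq_zero hc))
  intro h
  have h1 := (dvd_pow_self _ two_ne_zero).trans (P_mul (dvd_pow_self l (by omega : w + 1 ≠ 0)) r s')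
  have h2 := (P_pow hl hr he w).mul_left s'
  push_cast at h1
  have h3 : (l : ℤ) ^ (w + 1) ∣ s' * l ^ w := by
    refine (dvd_add (dvd_add (dvd_sub h1 h) h2) (dvd_mul_right ((l : ℤ) ^ (w + 1))
      ((r + 1) * (s'.choose 2 : ℕ) * P l (l ^ (w + 1)) r))).trans (dvd_of_eq ?_)
    ring
  have h4 := unit_cancel hl n2 h3
  have h5 : l ^ (w + 1) ∣ l ^ w := by exact_mod_cast h4
  have := (Nat.pow_dvd_pow_iff_le_right hl.one_lt).1 h5
  omega

theorem norm_div {l x t d : ℕ} [hl : Fact l.Prime] {a : ℤ} (hd : 0 < d) (hdt : d < l ^ (t + 1))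
    (ha : (l : ℤ) ^ (x + t) ∣ a) : padicNorm l (a / d) ≤ (l : ℚ) ^ (-(x : ℤ)) := by
  obtain ⟨b, d', hd', rfl⟩ := Nat.exists_eq_pow_mul_and_not_dvd hd.ne' l hl.out.ne_one
  have hb : b ≤ t := by
    by_contra hc
    have h1 : l ^ (t + 1) ≤ l ^ b := Nat.pow_le_pow_right hl.out.pos (by omega)
    have h2 : l ^ b ≤ l ^ b * d' := Nat.le_mul_of_pos_right _ (Nat.pos_of_mul_pos_left hd)
    omega
  obtain ⟨c, rfl⟩ := ha
  obtain ⟨y, rfl⟩ := Nat.exists_eq_add_of_le hb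
  have hl0 : (l : ℚ) ≠ 0 := by exact_mod_cast hl.out.ne_zero
  have e : ((((l : ℤ) ^ (x + (b + y)) * c : ℤ) : ℚ) / ((l ^ b * d' : ℕ) : ℚ))
      = (((l : ℤ) ^ x * (l ^ y * c) : ℤ) : ℚ) / (d' : ℚ) := by
    push_cast
    rw [pow_add, pow_add]
    by_cases h0 : (d' : ℚ) = 0
    · simp [h0]
    · field_simp
  rw [e, padicNorm.div, (padicNorm.nat_eq_one_iff d').2 hd', div_one]
  exact padicNorm.dvd_iff_norm_le.1 (by push_cast; exact dvd_mul_right _ _)

theorem norm_bernoulli {l : ℕ} [hl : Fact l.Prime] (i : ℕ) : padicNorm l (bernoulli i) ≤ l := by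
  have h1 : (1 : ℚ) ≤ l := by exact_mod_cast hl.out.one_le
  have hp : ∀ p : ℕ, p.Prime → padicNorm l (1 / p) ≤ l := by
    intro p hp
    rw [padicNorm.div, padicNorm.one]
    by_cases h : l = p
    · subst h; rw [padicNorm.padicNorm_p hp.one_lt]; simp
    · rw [(padicNorm.nat_eq_one_iff p).2 fun hc => h ((Nat.prime_dvd_prime_iff_eq hl.out hp).1 hc)]
      simpa using h1
  rcases Nat.even_or_odd' i with ⟨k, rfl | rfl⟩
  · obtain ⟨z, hz⟩ := Bernoulli.vonStaudt_clausen k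
    rw [← sub_eq_iff_eq_add] at hz
    rw [← hz]
    refine padicNorm.sub.trans (max_le ((padicNorm.of_int z).trans h1) ?_)
    exact padicNorm.sum_le' (fun p hp' => hp p (mem_filter.1 hp').2.1) (by linarith)
  · rcases Nat.eq_zero_or_pos k with rfl | hk
    · have := hp 2 Nat.prime_two
      rw [mul_zero, zero_add, bernoulli_one, neg_div, padicNorm.neg]
      simpa using this
    · rw [bernoulli_eq_zero_of_odd (odd_two_mul_add_one k) (by omega), padicNorm.zero]; linarith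

theorem five_pow {l : ℕ} (h : 5 ≤ l) (r : ℕ) (hr : 3 ≤ r) : 1 + 2 ≤ r ∧ r < l ^ (r - 1 - 1) := by
  refine ⟨hr, lt_of_lt_of_le ?_ (Nat.pow_le_pow_left h _)⟩
  obtain ⟨u, rfl⟩ := Nat.exists_eq_add_of_le hr
  rw [show 3 + u - 1 - 1 = u + 1 by omega, pow_succ]
  have := Nat.lt_pow_self (n := u) (show 1 < 5 by norm_num)
  omega

theorem two_pow {l : ℕ} (h : 2 ≤ l) (r : ℕ) (hr : 3 ≤ r) : 0 + 2 ≤ r ∧ r < l ^ (r - 1 - 0) := by
  refine ⟨by omega, lt_of_lt_of_le ?_ (Nat.pow_le_pow_left h _)⟩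
  obtain ⟨u, rfl⟩ := Nat.exists_eq_add_of_le hr
  rw [show 3 + u - 1 - 0 = u + 2 by omega, pow_add]
  have := Nat.lt_pow_self (n := u) (show 1 < 2 by norm_num)
  omega

theorem P_fine {l r w s : ℕ} (hl : l.Prime) (h5 : 5 ≤ l) (he : Even r) (hw : 1 ≤ w) (hwr : w ≤ r + 3)
    (hs : l ^ w ∣ s) (hs1 : ¬ l ^ (w + 1) ∣ s) (hB : ¬ (l : ℤ) ∣ (bernoulli (r + 4)).num) :
    ¬ (l : ℤ) ^ (w + 1) ∣ P l s (r + 4) := by
  have : Fact l.Prime := ⟨hl⟩
  intro h
  have hl0 : (0 : ℚ) < l := by exact_mod_cast hl.pos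
  have h1 : (l : ℤ) ^ (w + 1) ∣ ∑ j ∈ range s, (j : ℤ) ^ (r + 4) - P l s (r + 4) := by
    unfold P SU
    rw [← sum_sub_distrib]
    refine dvd_sum fun j _ => ?_
    split_ifs with hj
    · rw [sub_zero]
      exact (pow_dvd_pow _ (by omega)).trans (pow_dvd_pow_of_dvd
        (by exact_mod_cast Nat.dvd_of_mod_eq_zero hj) _)
    · simp
  have h2 := dvd_add h1 h
  rw [sub_add_cancel] at h2
  rw [← Nat.cast_pow] at h2
  have h3 := padicNorm.dvd_iff_norm_le.1 h2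
  push_cast at h3
  rw [sum_range_pow, sum_range_succ, sum_range_succ,
    bernoulli_eq_zero_of_odd (he.add_odd (by decide : Odd 3)) (by omega)] at h3
  have e : bernoulli (r + 4) * ((r + 4 + 1).choose (r + 4) : ℕ) * (s : ℚ) ^ (r + 4 + 1 - (r + 4)) /
      (((r + 4 : ℕ) : ℚ) + 1) = s * bernoulli (r + 4) := by
    rw [Nat.choose_succ_self_right, show r + 4 + 1 - (r + 4) = 1 by omega]
    push_cast
    field_simp
  rw [e, zero_mul, zero_mul, zero_div, add_zero] at h3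
  have h4 : padicNorm l (∑ i ∈ range (r + 3), bernoulli i * ((r + 4 + 1).choose i : ℕ) *
      (s : ℚ) ^ (r + 4 + 1 - i) / (((r + 4 : ℕ) : ℚ) + 1)) ≤ (l : ℚ) ^ (-((w : ℤ) + 1)) := by
    refine padicNorm.sum_le' (fun i hi => ?_) (by positivity)
    have hi := mem_range.1 hi
    obtain ⟨d, hd⟩ : ∃ d, r + 4 + 1 - i = d + 3 := ⟨r + 2 - i, by omega⟩
    have e1 := Nat.choose_mul_succ_eq (r + 4) i
    rw [hd] at e1 ⊢
    have e2 : bernoulli i * ((r + 4 + 1).choose i : ℕ) * (s : ℚ) ^ (d + 3) / (((r + 4 : ℕ) : ℚ) + 1)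
        = bernoulli i * (((((r + 4).choose i * s ^ (d + 3) : ℕ) : ℤ) : ℚ) / ((d + 3 : ℕ) : ℚ)) := by
      have e3 : (((r + 4).choose i : ℕ) : ℚ) * (((r + 4 : ℕ) : ℚ) + 1)
          = ((r + 4 + 1).choose i : ℕ) * ((d + 3 : ℕ) : ℚ) := by exact_mod_cast e1
      have : (0 : ℚ) < ((d + 3 : ℕ) : ℚ) := by positivity
      rw [Int.cast_natCast, Nat.cast_mul, Nat.cast_pow]
      field_simp
      linear_combination (-bernoulli i * (s : ℚ) ^ (d + 3)) * e3
    have h5 := (five_pow h5 (d + 3) (by omega)).2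
    have h6 := norm_div (l := l) (x := w + 2) (t := d) (d := d + 3)
      (a := (((r + 4).choose i * s ^ (d + 3) : ℕ) : ℤ)) (by omega) h5 (by
        have : l ^ (w + 2 + d) ∣ (r + 4).choose i * s ^ (d + 3) := by
          refine Dvd.dvd.mul_left (dvd_trans ?_ (pow_dvd_pow_of_dvd hs _)) _
          rw [← pow_mul]
          exact pow_dvd_pow _ (by nlinarith)
        exact_mod_cast this)
    rw [e2, padicNorm.mul]
    refine (mul_le_mul (norm_bernoulli i) h6 (padicNorm.nonneg _) hl0.le).trans_eq ?_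
    rw [show (-((w : ℤ) + 1)) = 1 + -((w + 2 : ℕ) : ℤ) by push_cast; ring, zpow_add₀ hl0.ne', zpow_one]
  have h7 : padicNorm l (s * bernoulli (r + 4)) ≤ (l : ℚ) ^ (-((w : ℤ) + 1)) := by
    have := (padicNorm.sub (p := l)).trans (max_le h3 h4)
    rwa [add_sub_cancel_left] at this
  have h8 : padicNorm l ((s * (bernoulli (r + 4)).num : ℤ) : ℚ) ≤ (l : ℚ) ^ (-((w + 1 : ℕ) : ℤ)) := by
    have e4 : ((s * (bernoulli (r + 4)).num : ℤ) : ℚ) = s * bernoulli (r + 4) * (bernoulli (r + 4)).den := by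
      rw [mul_assoc, Rat.mul_den_eq_num]; push_cast; rfl
    rw [e4, padicNorm.mul]
    exact (mul_le_of_le_one_right (padicNorm.nonneg _) (padicNorm.of_nat _)).trans
      (by push_cast; exact h7)
  have h9 := padicNorm.dvd_iff_norm_le.2 h8
  obtain ⟨s', rfl⟩ := hs
  have n2 : s' % l ≠ 0 := fun hc => hs1 (by
    rw [pow_succ l w]; exact Nat.mul_dvd_mul_left _ (Nat.dvd_of_mod_eq_zero hc))
  apply hB
  rw [← pow_one (l : ℤ)]
  refine unit_cancel hl n2 ?_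
  refine (mul_dvd_mul_iff_left (pow_ne_zero w (by exact_mod_cast hl.ne_zero : (l : ℤ) ≠ 0))).1 ?_
  push_cast at h9
  rw [← pow_add]
  exact h9.trans (dvd_of_eq (by ring))

end Pool.Agent.Lib.MP_b5d28a_nt.H6
end

-- part Pool.Agent.Lib.MP_b5d28a_nt.H6.Bern
section

/-!
No root when `k ≥ 3 s^2` and `s` is prime to the numerator of a Bernoulli number.
-/

namespace Pool.Agent.Lib.MP_b5d28a_nt.H6

open Finset
open Nat (lcmUpto lcmUpto_ne_zero lcmUpto_pos factorization_lcmUpto)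

theorem dvd_lcmUpto {j n : ℕ} (h1 : 1 ≤ j) (h : j ≤ n) : j ∣ lcmUpto n :=
  Finset.dvd_lcm (f := id) (mem_Icc.2 ⟨h1, h⟩)

theorem lcm_odd (k : ℕ) : lcmUpto (2 * k + 1) ∣ lcmUpto (k + 1) * (2 * k + 1).choose k := by
  have hc : (2 * k + 1).choose k ≠ 0 := (Nat.choose_pos (by omega)).ne'
  rw [← Nat.factorization_prime_le_iff_dvd (lcmUpto_ne_zero _) (mul_ne_zero (lcmUpto_ne_zero _) hc)]
  intro p hp
  rw [Nat.factorization_mul (lcmUpto_ne_zero _) hc, Finsupp.add_apply, factorization_lcmUpto _ hp,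
    factorization_lcmUpto _ hp]
  by_cases h : p.log (2 * k + 1) ≤ p.log (k + 1)
  · omega
  obtain ⟨a, ha⟩ : ∃ a, p.log (2 * k + 1) = a + 1 := ⟨p.log (2 * k + 1) - 1, by omega⟩
  have h1 : k + 1 < p ^ (a + 1) := Nat.lt_pow_of_log_lt hp.one_lt (by omega)
  have h2 : p ^ (a + 1) ≤ 2 * k + 1 := ha ▸ Nat.pow_log_le_self p (by omega)
  have h3 : a ≤ p.log (k + 1) := by
    refine Nat.le_log_of_pow_le hp.one_lt ?_
    have := Nat.mul_le_mul_left (p ^ a) hp.two_le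
    rw [pow_succ] at h2
    omega
  have h4 : 1 ≤ ((2 * k + 1).choose k).factorization p := by
    rw [Nat.factorization_choose (b := a + 2) hp (by omega) (by omega)]
    refine card_pos.2 ⟨a + 1, mem_filter.2 ⟨mem_Ico.2 ⟨by omega, by omega⟩, ?_⟩⟩
    rw [Nat.mod_eq_of_lt (by omega), Nat.mod_eq_of_lt (by omega)]
    omega
  omega

theorem lcm_even (k : ℕ) : lcmUpto (2 * k + 2) ∣ 2 * lcmUpto (2 * k + 1) := by
  refine Finset.lcm_dvd fun j hj => ?_
  obtain ⟨h1, h2⟩ := mem_Icc.1 hj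
  rcases Nat.lt_or_eq_of_le h2 with h | rfl
  · exact (dvd_lcmUpto h1 (by omega)).mul_left _
  · exact (show 2 * (k + 1) ∣ _ from Nat.mul_dvd_mul_left 2 (dvd_lcmUpto (by omega) (by omega)))

theorem lcm_le (n : ℕ) : 1 ≤ n → 4 * lcmUpto n ≤ 4 ^ n := by
  induction n using Nat.strong_induction_on with
  | _ n ih =>
    intro hn
    rcases Nat.even_or_odd' n with ⟨k, rfl | rfl⟩
    · obtain ⟨k, rfl⟩ : ∃ j, k = j + 1 := ⟨k - 1, by omega⟩
      have h1 := Nat.le_of_dvd (Nat.mul_pos two_pos (lcmUpto_pos _)) (lcm_even k)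
      have h2 := ih (2 * k + 1) (by omega) (by omega)
      rw [show 2 * (k + 1) = 2 * k + 2 by ring, show 2 * k + 2 = 2 * k + 1 + 1 by ring, pow_succ] at *
      omega
    · rcases Nat.eq_zero_or_pos k with rfl | hk
      · simp [lcmUpto]
      have h1 := Nat.le_of_dvd (Nat.mul_pos (lcmUpto_pos _) (Nat.choose_pos (by omega))) (lcm_odd k)
      have h2 := ih (k + 1) (by omega) (by omega)
      calc 4 * lcmUpto (2 * k + 1) ≤ 4 * lcmUpto (k + 1) * (2 * k + 1).choose k := by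
            rw [mul_assoc]; exact Nat.mul_le_mul_left _ h1
        _ ≤ 4 ^ (k + 1) * 4 ^ k := Nat.mul_le_mul h2 (Nat.choose_middle_le_pow k)
        _ = _ := by rw [← pow_add]; congr 1; ring

theorem exists_c {s k l w v : ℕ} (hl : l.Prime) (hk : 3 * s ^ 2 ≤ k) (hs : 4 ≤ s) (hw : 1 ≤ w)
    (hs0 : l ^ w ∣ s) (hs1 : ¬ l ^ (w + 1) ∣ s) (hq : l ^ v ∣ k) (hq1 : ¬ l ^ (v + 1) ∣ k)
    (hB : 5 ≤ l → ¬ (l : ℤ) ∣ (bernoulli (2 * (k / 2) - 2)).num) :
    ∃ c, c ≤ v + 2 * w + 1 ∧ (l = 2 → w = 1 → c ≤ 1) ∧ ¬ l ^ c ∣ E s l (k - 1) := by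
  have hws : w < s := (Nat.lt_pow_self hl.one_lt).trans_le (Nat.le_of_dvd (by omega) hs0)
  have hk' : 12 * s ≤ k := by nlinarith
  obtain ⟨d, hd, hd', hP, hd2⟩ : ∃ d, (d = 0 ∨ (d = 1 ∧ l ≠ 2)) ∧
      (∀ r, 3 ≤ r → d + 2 ≤ r ∧ r < l ^ (r - 1 - d)) ∧
      ¬ (l : ℤ) ^ (w + d) ∣ P l s (2 * (k / 2) - 2) ∧ (l = 2 → d = 0) := by
    by_cases h5 : 5 ≤ l
    · refine ⟨1, Or.inr ⟨rfl, by omega⟩, five_pow h5, ?_, by omega⟩
      have e : 2 * (k / 2) - 2 = 2 * (k / 2 - 3) + 4 := by omega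
      rw [e] at hB ⊢
      exact P_fine hl h5 (even_two_mul _) hw (by omega) hs0 hs1 (hB h5)
    · refine ⟨0, Or.inl rfl, two_pow hl.two_le, ?_, fun _ => rfl⟩
      have e : 2 * (k / 2) - 2 = (2 * (k / 2 - 2) + 1) + 1 := by omega
      have he : Even (2 * (k / 2 - 2) + 1 + 1) := ⟨k / 2 - 1, by omega⟩
      rw [e]
      refine P_coarse hl ?_ he hw hs0 hs1
      have h2 := hl.two_le
      have : l ≠ 4 := by rintro rfl; norm_num at hl
      obtain rfl | rfl : l = 2 ∨ l = 3 := by omega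
      · simp
      · exact he.two_dvd
  rcases Nat.even_or_odd' k with ⟨u, rfl | rfl⟩
  · refine ⟨w + d, by omega, fun h1 h2 => by have := hd2 h1; omega, fun h => hP ?_⟩
    rw [show 2 * u - 1 = 2 * (u - 2) + 3 by omega] at h
    rw [show 2 * (2 * u / 2) - 2 = 2 * (u - 2) + 2 by omega]
    exact caseA hl hw hs0 hd (even_two_mul _) h
  · rw [show 2 * ((2 * u + 1) / 2) - 2 = 2 * (u - 2) + 2 by omega] at hP
    rw [show 2 * u + 1 = 2 * (u - 2) + 5 by omega] at hq hq1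
    rw [show 2 * u + 1 - 1 = 2 * (u - 2) + 4 by omega]
    have h1 := fun h => hP (caseB hl hw hs0 hs1 hq hq1 hd hd' (even_two_mul _) h)
    by_cases h2 : l = 2
    · subst h2
      obtain rfl := hd2 rfl
      have hv : v = 0 := by
        by_contra hv
        have := (dvd_pow_self 2 hv).trans hq
        omega
      refine ⟨2 * w - 1, by omega, fun _ _ => by omega, fun h => h1 ?_⟩
      rw [show v + 2 * w + 0 = (2 * w - 1) + 1 by omega, pow_succ']
      exact Nat.mul_dvd_mul_left 2 h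
    · exact ⟨v + 2 * w + d, by omega, fun h => absurd h h2, fun h => h1 (h.mul_left 2)⟩

theorem cube_le (y : ℕ) (h : 16 ≤ y) : 8 * (y + 1) ^ 3 ≤ 2 ^ y := by
  induction y, h using Nat.le_induction with
  | base => norm_num
  | succ y hy ih =>
    rw [pow_succ 2]
    have : (y + 1 + 1) ^ 3 ≤ 2 * (y + 1) ^ 3 := by
      have h1 : 17 * (y + 1) ≤ (y + 1) * (y + 1) := Nat.mul_le_mul_right _ (by omega)
      have h2 : 17 * ((y + 1) * (y + 1)) ≤ (y + 1) * ((y + 1) * (y + 1)) :=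
        Nat.mul_le_mul_right _ (by omega)
      nlinarith
    omega

theorem four_le (s : ℕ) (h : 6 ≤ s) : s ^ 4 ≤ 2 ^ (s + 5) := by
  induction s, h using Nat.le_induction with
  | base => norm_num
  | succ y hy ih =>
    rw [show y + 1 + 5 = y + 5 + 1 by ring, pow_succ 2]
    obtain ⟨z, rfl⟩ := Nat.exists_eq_add_of_le hy
    have : (6 + z + 1) ^ 4 ≤ 2 * (6 + z) ^ 4 := by ring_nf; omega
    omega

theorem size1 {s m : ℕ} (hs : 4 ≤ s) (h : 3 * s ^ 2 ≤ m + 1) :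
    4 * ((m + 1) * s ^ 4) ≤ 2 ^ (m / 2) := by
  have h1 : 16 ≤ s ^ 2 := by nlinarith
  refine le_trans ?_ (cube_le _ (by omega))
  have h2 : s ^ 2 ≤ m / 2 + 1 := by omega
  have h3 : m + 1 ≤ 2 * (m / 2 + 1) := by omega
  calc 4 * ((m + 1) * s ^ 4) = 4 * ((m + 1) * (s ^ 2) ^ 2) := by ring
    _ ≤ 4 * (2 * (m / 2 + 1) * (m / 2 + 1) ^ 2) := by gcongr
    _ = _ := by ring

theorem size2 (m : ℕ) : 2 ^ (m / 2) * 2 ^ m ≤ 3 ^ m := by
  rcases Nat.even_or_odd' m with ⟨y, rfl | rfl⟩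
  · rw [Nat.mul_div_cancel_left _ two_pos, pow_mul, pow_mul, ← mul_pow]
    exact Nat.pow_le_pow_left (by norm_num) y
  · rw [show (2 * y + 1) / 2 = y by omega, pow_succ, pow_succ, pow_mul, pow_mul, ← mul_assoc, ← mul_pow]
    exact Nat.mul_le_mul (Nat.pow_le_pow_left (by norm_num) y) (by norm_num)

theorem size3 {s m : ℕ} (hs : 4 ≤ s) (h : 3 * s ^ 2 ≤ m + 1) : s ^ 2 * 3 ^ m + s * 2 ^ m ≤ 4 ^ m := by
  have h1 : 16 ≤ s ^ 2 := by nlinarith
  obtain ⟨z, hz⟩ : ∃ z, s ^ 2 = z + 3 := ⟨s ^ 2 - 3, by omega⟩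
  refine sum_mono (M := 3 * (z + 2)) (by omega) ?_
  have h2 : 2 ^ (3 * (z + 2)) ≤ 3 ^ (3 * (z + 2)) := Nat.pow_le_pow_left (by norm_num) _
  have h3 : s * 2 ^ (3 * (z + 2)) ≤ s ^ 2 * 3 ^ (3 * (z + 2)) := Nat.mul_le_mul (by nlinarith) h2
  have h4 : 2 ^ (z + 2) * 3 ^ (3 * (z + 2)) ≤ 4 ^ (3 * (z + 2)) := by
    rw [pow_mul, pow_mul, ← mul_pow]
    exact Nat.pow_le_pow_left (by norm_num) _
  have h5 : 2 * s ^ 2 ≤ 2 ^ (z + 2) := by
    have := Nat.lt_pow_self (n := z) (show 1 < 2 by norm_num)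
    rw [pow_add]; omega
  have h6 := Nat.mul_le_mul_right (3 ^ (3 * (z + 2))) h5
  nlinarith

theorem size4 {s m : ℕ} (hs : 4 ≤ s) (h : 3 * s ^ 2 ≤ m + 1) :
    lcmUpto (s - 1) * (m + 1) * s ^ 2 * (s - 1) ^ m < s ^ m := by
  obtain ⟨r, rfl⟩ : ∃ r, s = r + 1 := ⟨s - 1, by omega⟩
  rw [Nat.add_sub_cancel]
  have hr : 3 ≤ r := by omega
  have h1 := lcm_le r (by omega)
  have h2 : 2 * r ^ r ≤ (r + 1) ^ r := by
    obtain ⟨u, rfl⟩ : ∃ u, r = u + 1 := ⟨r - 1, by omega⟩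
    rw [add_pow (u + 1) 1, sum_range_succ, sum_range_succ]
    simp only [Nat.choose_self, Nat.choose_succ_self_right, one_pow, Nat.cast_id, mul_one]
    rw [pow_succ]
    omega
  have h3 : 3 * r + 6 ≤ m / r := by
    rw [Nat.le_div_iff_mul_le (by omega)]
    nlinarith
  obtain ⟨y, hy⟩ := Nat.exists_eq_add_of_le h3
  have h4 : m + 1 ≤ r * (3 * r + 7 + y) := by
    have := Nat.div_add_mod m r
    have := Nat.mod_lt m (show 0 < r by omega)
    rw [hy] at *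
    nlinarith
  have h5 : 2 ^ (m / r) * r ^ m ≤ (r + 1) ^ m := by
    have := Nat.pow_le_pow_left h2 (m / r)
    rw [mul_pow, ← pow_mul, ← pow_mul] at this
    exact pow_mono (b := 1) (Nat.le_succ r) (Nat.mul_div_le m r) (by simpa using this) |>.trans_eq
      (one_mul _)
  refine lt_of_lt_of_le (Nat.mul_lt_mul_of_pos_right ?_ (by positivity)) h5
  have h6 : (r + 1) ^ 4 ≤ 2 ^ (r + 6) := by
    rcases Nat.lt_or_ge r 5 with h | h
    · interval_cases r <;> norm_num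
    · exact four_le (r + 1) (by omega)
  have h7 : y + 1 ≤ 2 ^ y := Nat.lt_pow_self (by norm_num)
  have h8 : (m + 1) * (r + 1) ^ 2 < 4 * (r + 1) ^ 4 * (y + 1) := by
    have : r * (3 * r + 7 + y) < 4 * (r + 1) ^ 2 * (y + 1) := by nlinarith [Nat.zero_le (r * r * y), Nat.zero_le (r * y)]
    calc (m + 1) * (r + 1) ^ 2 < 4 * (r + 1) ^ 2 * (y + 1) * (r + 1) ^ 2 :=
        Nat.mul_lt_mul_of_pos_right (h4.trans_lt this) (by positivity)
      _ = _ := by ring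
  refine Nat.lt_of_mul_lt_mul_left (a := 4) ?_
  calc 4 * (lcmUpto r * (m + 1) * (r + 1) ^ 2) = 4 * lcmUpto r * ((m + 1) * (r + 1) ^ 2) := by ring
    _ ≤ 4 ^ r * ((m + 1) * (r + 1) ^ 2) := Nat.mul_le_mul_right _ h1
    _ < 4 ^ r * (4 * (r + 1) ^ 4 * (y + 1)) := Nat.mul_lt_mul_of_pos_left h8 (by positivity)
    _ ≤ 4 ^ r * (4 * 2 ^ (r + 6) * 2 ^ y) := by gcongr
    _ = 4 * 2 ^ (m / r) := by
      rw [hy, show (4 : ℕ) ^ r = 2 ^ (2 * r) by rw [pow_mul]; norm_num]; ring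

theorem bern {s k : ℕ} (hs : 4 ≤ s) (hk : 3 * s ^ 2 ≤ k)
    (hB : ∀ l : ℕ, l.Prime → 5 ≤ l → l ∣ s → ¬ (l : ℤ) ∣ (bernoulli (2 * (k / 2) - 2)).num) :
    NoRoot s (k - 1) := by
  have h16 : 16 ≤ s ^ 2 := by nlinarith
  obtain ⟨m, rfl⟩ : ∃ m, k = m + 1 := ⟨k - 1, by omega⟩
  rw [Nat.add_sub_cancel]
  intro n h
  rcases Nat.eq_zero_or_pos n with rfl | hn
  · exact (low (by omega) (by rw [zero_mul]; positivity)).ne' h
  have hd := dvd_L (L := lcmUpto (s - 1)) (by omega) hn (fun j h1 h2 => dvd_lcmUpto h2 (by omega)) h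
  have h1 : n ∣ lcmUpto (s - 1) * (m + 1) * s ^ 2 := by
    rw [Nat.dvd_iff_prime_pow_dvd_dvd]
    intro l j hl hj
    by_cases hls : l ∣ s
    · obtain ⟨w, s', a1, a2⟩ := Nat.exists_eq_pow_mul_and_not_dvd (by omega : s ≠ 0) l hl.ne_one
      obtain ⟨v, k', a3, a4⟩ := Nat.exists_eq_pow_mul_and_not_dvd (by omega : m + 1 ≠ 0) l hl.ne_one
      have b1 : l ^ w ∣ s := ⟨s', a2⟩
      have b2 : l ^ v ∣ m + 1 := ⟨k', a4⟩
      have hw : 1 ≤ w := Nat.pos_of_ne_zero (by rintro rfl; exact a1 (by simpa [a2] using hls))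
      obtain ⟨c, c1, c2, c3⟩ := exists_c hl hk hs hw b1
        (by rw [a2, pow_succ]; exact fun hc => a1 (Nat.dvd_of_mul_dvd_mul_left (pow_pos hl.pos _) hc))
        b2
        (by rw [a4, pow_succ]; exact fun hc => a3 (Nat.dvd_of_mul_dvd_mul_left (pow_pos hl.pos _) hc))
        (fun h5 => hB l hl h5 hls)
      rw [Nat.add_sub_cancel] at c3
      have t1 : l ^ l.log (s - 1) ≤ s - 1 := Nat.pow_log_le_self l (by omega)
      have t2 : s - 1 < l ^ (l.log (s - 1) + 1) := Nat.lt_pow_succ_log_self hl.one_lt _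
      generalize l.log (s - 1) = t at t1 t2
      have d1 : l ^ c ≤ (m + 1) * s ^ 3 := by
        calc l ^ c ≤ l ^ (v + 2 * w + 1) := Nat.pow_le_pow_right hl.pos c1
          _ = l ^ v * ((l ^ w) ^ 2 * l) := by ring
          _ ≤ (m + 1) * (s ^ 2 * s) := by
            have := Nat.le_of_dvd (by omega) b1
            have := Nat.le_of_dvd (by omega) b2
            have := Nat.le_of_dvd (by omega) hls
            gcongr
          _ = _ := by ring
      have d2 := size1 hs hk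
      have d3 : c + t ≤ m := by
        have e1 : 2 ^ (c + t) ≤ l ^ (c + t) := Nat.pow_le_pow_left hl.two_le _
        have e2 : l ^ (c + t) ≤ (m + 1) * s ^ 3 * s := by
          rw [pow_add]; exact Nat.mul_le_mul d1 (by omega)
        have e3 : 2 ^ (m / 2) ≤ 2 ^ m := Nat.pow_le_pow_right two_pos (Nat.div_le_self _ _)
        refine (Nat.pow_le_pow_iff_right (show 1 < 2 by norm_num)).1 ?_
        rw [mul_assoc, show s ^ 3 * s = s ^ 4 by ring] at e2
        omega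
      have := val_bound (c := c) (t := t) hs hl hn b1 (by omega) d3 (by omega) (size3 hs hk) (by
        by_cases h3 : 3 ≤ l ^ w
        · refine Or.inl ⟨h3, le_trans (Nat.mul_le_mul_right _ ?_) (size2 m)⟩
          calc l ^ c * s * 4 ≤ (m + 1) * s ^ 3 * s * 4 := by gcongr
            _ = 4 * ((m + 1) * s ^ 4) := by ring
            _ ≤ _ := d2
        · have e1 : l ≤ l ^ w := Nat.le_self_pow (by omega) l
          have e2 := hl.two_le
          obtain rfl : l = 2 := by omega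
          have e3 : w = 1 := by
            by_contra hc
            have : 2 ^ 2 ≤ 2 ^ w := Nat.pow_le_pow_right two_pos (by omega)
            omega
          exact Or.inr ⟨rfl, e3, c2 rfl e3⟩) c3 h
      have d4 : j ≤ t + v + w * 2 := by
        by_contra hc
        exact this ((pow_dvd_pow l (by omega)).trans hj)
      refine (pow_dvd_pow l d4).trans ?_
      rw [pow_add, pow_add, pow_mul]
      exact mul_dvd_mul (mul_dvd_mul (dvd_lcmUpto (Nat.one_le_pow _ _ hl.pos) t1) b2)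
        (pow_dvd_pow_of_dvd b1 2)
    · have h1 : (l ^ j).Coprime (s ^ m) :=
        Nat.Coprime.pow _ _ ((Nat.Prime.coprime_iff_not_dvd hl).2 hls)
      exact ((h1.dvd_of_dvd_mul_right (hj.trans hd)).mul_right _).mul_right _
  have h2 := Nat.le_of_dvd (by have := lcmUpto_pos (s - 1); positivity) h1
  exact (low (by omega) (lt_of_le_of_lt (Nat.mul_le_mul_right _ h2) (size4 hs hk))).ne' h

end Pool.Agent.Lib.MP_b5d28a_nt.H6
end
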