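import Mathlib

-- part Pool.Agent.Lib.MP_b5d28a_nt.H6.Real
section

/-!
Size estimates for the natural roots of the Moser polynomials.
-/

namespace Pool.Agent.Lib.MP_b5d28a_nt.H6

open Finset

/-- `± F_{s,m+1}(n)` -/
def Fz (s m n : ℕ) : ℤ := ∑ j ∈ range s, (-1) ^ j * (((s - j) ^ m * n.choose j : ℕ) : ℤ)

theorem alt (r : ℕ) : ∀ (T : ℕ → ℤ), (∀ j, 0 ≤ T j) → (∀ j, j + 1 < r → T (j + 1) ≤ T j) →
    0 ≤ ∑ j ∈ range r, (-1) ^ j * T j ∧ ∑ j ∈ range r, (-1) ^ j * T j ≤ T 0 := by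
  induction r with
  | zero => intro T h0 _; simpa using h0 0
  | succ r ih =>
    intro T h0 h
    have := ih (fun j => T (j + 1)) (fun j => h0 _) (fun j hj => h _ (by omega))
    have e : ∑ j ∈ range (r + 1), (-1) ^ j * T j = T 0 - ∑ j ∈ range r, (-1) ^ j * T (j + 1) := by
      rw [sum_range_succ', sub_eq_neg_add, ← sum_neg_distrib]
      congr 1
      · exact sum_congr rfl fun j _ => by ring
      · ring
    rw [e]
    refine ⟨?_, by linarith [this.1]⟩
    rcases Nat.eq_zero_or_pos r with rfl | hr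
    · simpa using h0 0
    · have := h 0 (by omega)
      linarith [this, (ih (fun j => T (j + 1)) (fun j => h0 _) (fun j hj => h _ (by omega))).2]

theorem alt_step (r : ℕ) (T : ℕ → ℤ) :
    ∑ j ∈ range (r + 1), (-1) ^ j * T j = T 0 - ∑ j ∈ range r, (-1) ^ j * T (j + 1) := by
  rw [sum_range_succ', sub_eq_neg_add, ← sum_neg_distrib]
  congr 1
  · exact sum_congr rfl fun j _ => by ring
  · ring

theorem alt_pos (r : ℕ) (T : ℕ → ℤ) (h0 : ∀ j, 0 ≤ T j) (h : ∀ j, j + 1 < r + 1 → T (j + 1) ≤ T j)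
    (h1 : T 1 < T 0) : 0 < ∑ j ∈ range (r + 1), (-1) ^ j * T j := by
  rw [alt_step]
  have := (alt r (fun j => T (j + 1)) (fun j => h0 _) (fun j hj => h _ (by omega))).2
  simp only [zero_add] at this
  linarith

theorem low {s m n : ℕ} (hs : 1 ≤ s) (h : n * (s - 1) ^ m < s ^ m) : 0 < Fz s m n := by
  obtain ⟨r, rfl⟩ : ∃ r, s = r + 1 := ⟨s - 1, by omega⟩
  unfold Fz
  refine alt_pos r (fun j => (((r + 1 - j) ^ m * n.choose j : ℕ) : ℤ)) (fun j => by positivity)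
    (fun j hj => ?_) ?_
  · simp only [Nat.add_sub_cancel] at h
    rw [Nat.cast_le]
    have h1 : n.choose (j + 1) ≤ n.choose j * n := by
      have := Nat.choose_succ_right_eq n j
      calc n.choose (j + 1) ≤ n.choose (j + 1) * (j + 1) := Nat.le_mul_of_pos_right _ (by omega)
        _ = n.choose j * (n - j) := this
        _ ≤ n.choose j * n := Nat.mul_le_mul_left _ (Nat.sub_le _ _)
    have h2 : (r + 1 - (j + 1)) * (r + 1) ≤ (r + 1 - j) * r := by
      obtain ⟨u, rfl⟩ : ∃ u, r = j + u := ⟨r - j, by omega⟩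
      rw [show j + u + 1 - (j + 1) = u by omega, show j + u + 1 - j = u + 1 by omega]
      nlinarith
    have h3 := Nat.pow_le_pow_left h2 m
    rw [mul_pow, mul_pow] at h3
    have hp : 0 < (r + 1) ^ m := by positivity
    refine Nat.le_of_mul_le_mul_right ?_ hp
    calc (r + 1 - (j + 1)) ^ m * n.choose (j + 1) * (r + 1) ^ m
        = ((r + 1 - (j + 1)) ^ m * (r + 1) ^ m) * n.choose (j + 1) := by ring
      _ ≤ ((r + 1 - j) ^ m * r ^ m) * (n.choose j * n) := Nat.mul_le_mul h3 h1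
      _ = (r + 1 - j) ^ m * n.choose j * (n * r ^ m) := by ring
      _ ≤ (r + 1 - j) ^ m * n.choose j * (r + 1) ^ m := Nat.mul_le_mul_left _ h.le
  · rw [Nat.cast_lt]
    simpa [mul_comm] using h

/-- the terms in the reverse order -/
def U (s m n i : ℕ) : ℤ := (((i + 1) ^ m * n.choose (s - 1 - i) : ℕ) : ℤ)

theorem Fz_rev (s m n : ℕ) :
    Fz s m n = (-1) ^ (s - 1) * ∑ i ∈ range s, (-1) ^ i * U s m n i := by
  unfold Fz
  rw [← sum_range_reflect, mul_sum]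
  refine sum_congr rfl fun i hi => ?_
  have hi := mem_range.1 hi
  unfold U
  rw [show s - (s - 1 - i) = i + 1 by omega]
  obtain ⟨u, hu⟩ : ∃ u, s - 1 = i + u := ⟨s - 1 - i, by omega⟩
  rw [hu, Nat.add_sub_cancel_left, pow_add]
  have : ((-1 : ℤ) ^ i) * (-1) ^ i = 1 := by rw [← mul_pow]; simp
  linear_combination (-(-1 : ℤ) ^ u * (((i + 1) ^ m * n.choose u : ℕ) : ℤ)) * this

theorem U_nonneg (s m n i : ℕ) : 0 ≤ U s m n i := by unfold U; positivity

theorem U_ratio {s m n i c : ℕ} (hi : i + 2 ≤ s) (h : c * (i + 2) ^ m * s + s * (i + 1) ^ m ≤ (i + 1) ^ m * n) :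
    c * U s m n (i + 1) ≤ U s m n i := by
  unfold U
  obtain ⟨j, rfl⟩ : ∃ j, s = i + 2 + j := ⟨s - (i + 2), by omega⟩
  rw [show i + 2 + j - 1 - (i + 1) = j by omega, show i + 2 + j - 1 - i = j + 1 by omega]
  rw [← Nat.cast_mul, Nat.cast_le]
  have e := Nat.choose_succ_right_eq n j
  refine Nat.le_of_mul_le_mul_right ?_ (Nat.succ_pos j)
  have hp : 0 < (i + 1) ^ m := by positivity
  have hn : i + 2 + j ≤ n := by
    by_contra hc
    have : (i + 1) ^ m * n < (i + 1) ^ m * (i + 2 + j) := Nat.mul_lt_mul_of_pos_left (by omega) hp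
    nlinarith [Nat.zero_le (c * (i + 2) ^ m * (i + 2 + j))]
  obtain ⟨v, rfl⟩ : ∃ v, n = j + v := ⟨n - j, by omega⟩
  rw [Nat.add_sub_cancel_left] at e
  have h1 : c * (i + 2) ^ m * (j + 1) ≤ (i + 1) ^ m * v := by
    have : c * (i + 2) ^ m * (j + 1) ≤ c * (i + 2) ^ m * (i + 2 + j) :=
      Nat.mul_le_mul_left _ (by omega)
    nlinarith [Nat.zero_le ((i + 2) * (i + 1) ^ m)]
  calc c * ((i + 1 + 1) ^ m * (j + v).choose j) * j.succ
      = (c * (i + 2) ^ m * (j + 1)) * (j + v).choose j := by rw [Nat.succ_eq_add_one]; ring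
    _ ≤ ((i + 1) ^ m * v) * (j + v).choose j := Nat.mul_le_mul_right _ h1
    _ = (i + 1) ^ m * ((j + v).choose j * v) := by ring
    _ = (i + 1) ^ m * (j + v).choose (j + 1) * j.succ := by rw [← e, Nat.succ_eq_add_one]; ring

theorem high {s m n : ℕ} (hs : 1 ≤ s) (h : s * 2 ^ (m + 2) ≤ n) : Fz s m n ≠ 0 := by
  obtain ⟨r, rfl⟩ : ∃ r, s = r + 1 := ⟨s - 1, by omega⟩
  have key : ∀ i, i + 2 ≤ r + 1 → 2 * U (r + 1) m n (i + 1) ≤ U (r + 1) m n i := by
    intro i hi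
    have := @U_ratio (r + 1) m n i 2 hi (by
      have h1 : (i + 2) ^ m ≤ (2 * (i + 1)) ^ m := Nat.pow_le_pow_left (by omega) m
      rw [mul_pow] at h1
      have h2 : 1 ≤ 2 ^ m := Nat.one_le_two_pow
      have h3 := Nat.mul_le_mul_left ((i + 1) ^ m) h
      rw [pow_add] at h3
      have h4 : (r + 1) * (i + 1) ^ m * 1 ≤ (r + 1) * (i + 1) ^ m * 2 ^ m := Nat.mul_le_mul_left _ h2
      have h5 := Nat.mul_le_mul_left (2 * (r + 1)) h1
      nlinarith [Nat.zero_le ((r + 1) * (i + 1) ^ m * 2 ^ m)])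
    exact_mod_cast this
  have hn : r + 1 ≤ n := le_trans (Nat.le_mul_of_pos_right _ (by positivity)) h
  have h0 : 0 < U (r + 1) m n 0 := by
    unfold U
    have := Nat.choose_pos (show r + 1 - 1 - 0 ≤ n by omega)
    positivity
  rw [Fz_rev]
  refine mul_ne_zero (pow_ne_zero _ (by norm_num)) (ne_of_gt ?_)
  rcases Nat.eq_zero_or_pos r with rfl | hr
  · simpa using h0
  refine alt_pos r _ (U_nonneg _ _ _) (fun j hj => ?_) ?_
  · linarith [key j (by omega), U_nonneg (r + 1) m n (j + 1)]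
  · have := key 0 (by omega)
    simp only [zero_add] at this
    linarith

theorem arith {r v u a b c P Q : ℕ} (hu : r + 4 + v = P * u) (ha : 0 < a) (hb : 0 < b) (hp : 0 < P)
    (e1 : b * (r + 2) = a * (v + 3)) (e2 : c * (r + 2 + 1) = b * (v + 2)) (h32 : 4 * P ≤ Q)
    (hn4 : (r + 4) ^ 2 * Q + (r + 4) * P ≤ P * (r + 4 + v))
    (h : (r + 4) ^ 2 * Q + (r + 4) * P ≤ P * P) :
    c + Q * a < P * b ∨ (P * b < c + b ∧ 2 * b ≤ Q * a) ∨ P * b < c := by
  rcases lt_trichotomy u (r + 3) with hlt | heq | hgt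
  · left
    have h5 : r + 4 + v ≤ P * (r + 2) := hu ▸ Nat.mul_le_mul_left _ (by omega)
    have h6 : c * (r + 3) + P * b ≤ P * b * (r + 3) := by
      have := Nat.mul_le_mul_left b h5
      nlinarith
    have h7 : Q * a * (r + 3) < P * b := by
      refine Nat.lt_of_mul_lt_mul_right (a := r + 2) ?_
      have h8 : Q * ((r + 3) * (r + 2)) < P * (v + 3) := by nlinarith
      calc Q * a * (r + 3) * (r + 2) = a * (Q * ((r + 3) * (r + 2))) := by ring
        _ < a * (P * (v + 3)) := Nat.mul_lt_mul_of_pos_left h8 ha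
        _ = P * (a * (v + 3)) := by ring
        _ = P * b * (r + 2) := by rw [← e1]; ring
    refine Nat.lt_of_mul_lt_mul_right (a := r + 3) ?_
    nlinarith
  · subst heq
    refine Or.inr (Or.inl ⟨?_, ?_⟩)
    · refine Nat.lt_of_mul_lt_mul_right (a := r + 3) ?_
      have : b * (r + 4 + v) = b * (P * (r + 3)) := by rw [hu]
      nlinarith
    · refine Nat.le_of_mul_le_mul_right ?_ (show 0 < r + 2 by omega)
      have h8 : 2 * (v + 3) ≤ Q * (r + 2) := by
        have := Nat.mul_le_mul_right (r + 2) h32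
        nlinarith
      calc 2 * b * (r + 2) = a * (2 * (v + 3)) := by rw [mul_assoc, e1]; ring
        _ ≤ a * (Q * (r + 2)) := Nat.mul_le_mul_left _ h8
        _ = Q * a * (r + 2) := by ring
  · refine Or.inr (Or.inr ?_)
    have h5 : P * (r + 4) ≤ r + 4 + v := hu ▸ Nat.mul_le_mul_left _ (by omega)
    have hP : r + 4 ≤ P := by
      by_contra hc
      have : P * P < P * (r + 4) := Nat.mul_lt_mul_of_pos_left (by omega) hp
      nlinarith [Nat.zero_le ((r + 4) ^ 2 * Q)]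
    refine Nat.lt_of_mul_lt_mul_right (a := r + 3) ?_
    have h6 : P * (r + 3) < v + 2 := by nlinarith
    have := Nat.mul_lt_mul_of_pos_left h6 hb
    nlinarith

theorem two_pow_not_dvd {s m n : ℕ} (hs : 4 ≤ s) (hm : 4 ≤ m) (h : s ^ 2 * 3 ^ m + s * 2 ^ m ≤ 4 ^ m)
    (hn : 0 < n) (hd : 2 ^ m ∣ n) : Fz s m n ≠ 0 := by
  obtain ⟨r, rfl⟩ : ∃ r, s = r + 4 := ⟨s - 4, by omega⟩
  obtain ⟨u, hu⟩ := hd
  have hu0 : 1 ≤ u := Nat.pos_of_ne_zero (by rintro rfl; omega)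
  have h4 : 4 ^ m = 2 ^ m * 2 ^ m := by rw [← mul_pow]; norm_num
  have hp : 0 < 2 ^ m := by positivity
  have hge : 2 ^ m ≤ n := hu ▸ Nat.le_mul_of_pos_right _ hu0
  have hn4 : (r + 4) ^ 2 * 3 ^ m + (r + 4) * 2 ^ m ≤ 2 ^ m * n := by
    refine h.trans ?_
    rw [h4]; exact Nat.mul_le_mul_left _ hge
  have h32 : 4 * 2 ^ m ≤ 3 ^ m := by
    obtain ⟨v, rfl⟩ : ∃ v, m = v + 4 := ⟨m - 4, by omega⟩
    have : 2 ^ v ≤ 3 ^ v := Nat.pow_le_pow_left (by norm_num) v
    rw [pow_add, pow_add]; omega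
  have hsn : r + 4 ≤ n := by
    by_contra hc
    have : 2 ^ m * n < 2 ^ m * (r + 4) := Nat.mul_lt_mul_of_pos_left (by omega) hp
    nlinarith [Nat.zero_le ((r + 4) ^ 2 * 3 ^ m)]
  have key : ∀ i, 1 ≤ i → i + 2 ≤ r + 4 → 2 * U (r + 4) m n (i + 1) ≤ U (r + 4) m n i := by
    intro i h1 hi
    have := @U_ratio (r + 4) m n i 2 hi (by
      have h1 : (2 * (i + 2)) ^ m ≤ (3 * (i + 1)) ^ m := Nat.pow_le_pow_left (by omega) m
      rw [mul_pow, mul_pow] at h1
      refine Nat.le_of_mul_le_mul_left ?_ hp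
      have h3 := Nat.mul_le_mul_left ((i + 1) ^ m) hn4
      have h5 := Nat.mul_le_mul_left (2 * (r + 4)) h1
      have h6 : 2 * (r + 4) * (3 ^ m * (i + 1) ^ m) ≤ (r + 4) ^ 2 * (3 ^ m * (i + 1) ^ m) :=
        Nat.mul_le_mul_right _ (by nlinarith)
      nlinarith)
    exact_mod_cast this
  rw [Fz_rev]
  refine mul_ne_zero (pow_ne_zero _ (by norm_num)) ?_
  rw [alt_step, alt_step, alt_step]
  have hW := alt (r + 1) (fun j => U (r + 4) m n (j + 1 + 1 + 1)) (fun j => U_nonneg _ _ _ _)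
    (fun j hj => by
      have h1 := key (j + 1 + 1 + 1) (by omega) (by omega)
      have h2 := U_nonneg (r + 4) m n (j + 1 + 1 + 1 + 1)
      linarith)
  have h23 := key 2 (by omega) (by omega)
  simp only [zero_add] at hW h23 ⊢
  generalize ∑ j ∈ range (r + 1), (-1) ^ j * U (r + 4) m n (j + 1 + 1 + 1) = W at hW ⊢
  obtain ⟨v, rfl⟩ : ∃ v, n = r + 4 + v := ⟨n - (r + 4), by omega⟩
  have e1 := Nat.choose_succ_right_eq (r + 4 + v) (r + 1)
  have e2 := Nat.choose_succ_right_eq (r + 4 + v) (r + 2)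
  rw [show r + 4 + v - (r + 1) = v + 3 by omega] at e1
  rw [show r + 4 + v - (r + 2) = v + 2 by omega] at e2
  have ha : 0 < (r + 4 + v).choose (r + 1) := Nat.choose_pos (by omega)
  have hb : 0 < (r + 4 + v).choose (r + 2) := Nat.choose_pos (by omega)
  have eX : U (r + 4) m (r + 4 + v) 0 = ((r + 4 + v).choose (r + 2 + 1) : ℕ) := by
    unfold U; simp
  have eY : U (r + 4) m (r + 4 + v) 1 = (2 ^ m : ℕ) * ((r + 4 + v).choose (r + 2) : ℕ) := by
    unfold U; rw [show r + 4 - 1 - 1 = r + 2 by omega]; push_cast; norm_num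
  have eZ : U (r + 4) m (r + 4 + v) (1 + 1) = (3 ^ m : ℕ) * ((r + 4 + v).choose (r + 1) : ℕ) := by
    unfold U; rw [show r + 4 - 1 - (1 + 1) = r + 1 by omega]; push_cast; norm_num
  have h23' : 2 * U (r + 4) m (r + 4 + v) (1 + 1 + 1) ≤ U (r + 4) m (r + 4 + v) (1 + 1) := h23
  rw [eZ] at h23'
  rw [eX, eY, eZ]
  rw [show r + 1 + 1 = r + 2 by omega] at e1
  generalize (r + 4 + v).choose (r + 1) = a at *
  generalize (r + 4 + v).choose (r + 2) = b at *
  generalize (r + 4 + v).choose (r + 2 + 1) = c at *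
  generalize U (r + 4) m (r + 4 + v) (1 + 1 + 1) = V at *
  generalize 2 ^ m = P at *
  generalize 3 ^ m = Q at *
  intro h0
  rcases arith hu ha hb hp e1 e2 h32 hn4 (h4 ▸ h) with h1 | ⟨h1, h2⟩ | h1
  · have h11 : (c : ℤ) + Q * a < P * b := by exact_mod_cast h1
    linarith [hW.1]
  · have h11 : (P : ℤ) * b < c + b := by exact_mod_cast h1
    have h12 : 2 * (b : ℤ) ≤ Q * a := by exact_mod_cast h2
    linarith [hW.2]
  · have h11 : (P : ℤ) * b < c := by exact_mod_cast h1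
    have h12 : (0 : ℤ) ≤ Q * a := by positivity
    linarith [hW.2]

end Pool.Agent.Lib.MP_b5d28a_nt.H6
end

-- part Pool.Agent.Lib.MP_b5d28a_nt.H6.Adic
section

/-!
Divisibility properties of the natural roots of the Moser polynomials.
-/

namespace Pool.Agent.Lib.MP_b5d28a_nt.H6

open Finset

theorem mul_choose {n : ℕ} (hn : 0 < n) (j : ℕ) :
    (j + 1) * n.choose (j + 1) = n * (n - 1).choose j := by
  obtain ⟨r, rfl⟩ : ∃ r, n = r + 1 := ⟨n - 1, by omega⟩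
  rw [Nat.add_sub_cancel, Nat.add_one_mul_choose_eq, mul_comm]

theorem dvd_L {s m n L : ℕ} (hs : 1 ≤ s) (hn : 0 < n) (hL : ∀ j, j < s → 1 ≤ j → j ∣ L)
    (h : Fz s m n = 0) : n ∣ L * s ^ m := by
  obtain ⟨r, rfl⟩ : ∃ r, s = r + 1 := ⟨s - 1, by omega⟩
  unfold Fz at h
  rw [sum_range_succ'] at h
  have h1 : (n : ℤ) ∣ (L : ℤ) * ∑ j ∈ range r,
      (-1) ^ (j + 1) * (((r + 1 - (j + 1)) ^ m * n.choose (j + 1) : ℕ) : ℤ) := by
    rw [mul_sum]
    refine dvd_sum fun j hj => ?_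
    obtain ⟨c, rfl⟩ := hL (j + 1) (by have := mem_range.1 hj; omega) (by omega)
    have e : (((j + 1) * n.choose (j + 1) : ℕ) : ℤ) = ((n * (n - 1).choose j : ℕ) : ℤ) := by
      rw [mul_choose hn]
    generalize r + 1 - (j + 1) = y
    refine ⟨c * (-1) ^ (j + 1) * (y ^ m : ℕ) * ((n - 1).choose j : ℕ), ?_⟩
    push_cast at e ⊢
    linear_combination (c * (-1) ^ (j + 1) * (y : ℤ) ^ m) * e
  rw [eq_neg_of_add_eq_zero_left h] at h1
  simp only [pow_zero, Nat.sub_zero, Nat.choose_zero_right, mul_one, one_mul, mul_neg, dvd_neg] at h1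
  exact_mod_cast h1

theorem cancel {l t x j : ℕ} (hl : l.Prime) (hj : 0 < j) (hjt : j < l ^ (t + 1)) {z : ℤ}
    (h : (l : ℤ) ^ (x + t) ∣ j * z) : (l : ℤ) ^ x ∣ z := by
  obtain ⟨b, j', hj', rfl⟩ := Nat.exists_eq_pow_mul_and_not_dvd hj.ne' l hl.ne_one
  have hb : b ≤ t := by
    by_contra hc
    have h1 : l ^ (t + 1) ≤ l ^ b := Nat.pow_le_pow_right hl.pos (by omega)
    have h2 : l ^ b ≤ l ^ b * j' := Nat.le_mul_of_pos_right _ (Nat.pos_of_mul_pos_left hj)
    omega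
  have h1 : (l : ℤ) ^ b * (l : ℤ) ^ x ∣ (l : ℤ) ^ b * (j' * z) := by
    refine dvd_trans ?_ (h.trans (dvd_of_eq (by push_cast; ring)))
    rw [← pow_add]
    exact pow_dvd_pow _ (by omega)
  have h2 := (mul_dvd_mul_iff_left (pow_ne_zero b (by exact_mod_cast hl.ne_zero))).1 h1
  exact (Nat.prime_iff_prime_int.1 hl).pow_dvd_of_dvd_mul_left x (by exact_mod_cast hj') h2

/-- product of the `j < s` prime to `l` -/
def DD (l s : ℕ) : ℕ := ∏ j ∈ range s, if j % l = 0 then 1 else j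

def E (s l m : ℕ) : ℕ := ∑ j ∈ range s, if j % l = 0 then 0 else (s - j) ^ m * (DD l s / j)

theorem dvd_DD {l s j : ℕ} (hj : j < s) (h : j % l ≠ 0) : j ∣ DD l s := by
  have := dvd_prod_of_mem (fun j => if j % l = 0 then 1 else j) (mem_range.2 hj)
  simpa [h, DD] using this

theorem u_cong {l t c n : ℕ} (hl : l.Prime) (hn : 0 < n) (hd : l ^ (c + t) ∣ n) :
    ∀ j, j < l ^ (t + 1) → (l : ℤ) ^ c ∣ (-1) ^ j * ((n - 1).choose j : ℤ) - 1 := by
  intro j
  induction j with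
  | zero => simp
  | succ j ih =>
    intro hj
    have h1 := ih (by omega)
    have e : ((j + 1 : ℕ) : ℤ) * ((n - 1).choose (j + 1) : ℤ)
        = ((n : ℤ) - (j + 1)) * ((n - 1).choose j : ℤ) := by
      have := Nat.choose_succ_right_eq (n - 1) j
      rcases le_or_gt (j + 1) n with h | h
      · have h2 : ((n - 1 - j : ℕ) : ℤ) = n - (j + 1) := by omega
        rw [← h2]
        exact_mod_cast (by rw [mul_comm, this, mul_comm])
      · rw [Nat.choose_eq_zero_of_lt (by omega), Nat.choose_eq_zero_of_lt (by omega)]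
        simp
    have h2 : (l : ℤ) ^ c ∣ (-1) ^ (j + 1) * ((n - 1).choose (j + 1) : ℤ)
        - (-1) ^ j * ((n - 1).choose j : ℤ) := by
      refine cancel hl (Nat.succ_pos j) hj ?_
      have h3 : (l : ℤ) ^ (c + t) ∣ n := by exact_mod_cast hd
      refine (h3.mul_right (-((-1) ^ j * ((n - 1).choose j : ℤ)))).trans (dvd_of_eq ?_)
      push_cast at e ⊢
      linear_combination ((-1) ^ j) * e
    simpa using dvd_add h2 h1

theorem adic {s m n l t c a : ℕ} (hl : l.Prime) (hn : 0 < n) (hls : l ∣ s) (hs : s ≤ l ^ (t + 1))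
    (ha : l ^ a ∣ n) (ha' : ¬ l ^ (a + 1) ∣ n) (hca : c + t ≤ a) (hm : c + t ≤ m)
    (hsm : l ^ (a + c) ∣ s ^ m) (h : Fz s m n = 0) : l ^ c ∣ E s l m := by
  have hu := u_cong (c := c) hl hn ((pow_dvd_pow l hca).trans ha)
  have hp := Nat.prime_iff_prime_int.1 hl
  set g : ℕ → ℤ := fun j => if j % l = 0 then 0 else
    (((s - j) ^ m * (DD l s / j) : ℕ) : ℤ) * ((-1) ^ (j - 1) * ((n - 1).choose (j - 1) : ℤ)) with hg
  have h1 : (l : ℤ) ^ (a + c) ∣ DD l s * Fz s m n + n * ∑ j ∈ range s, g j := by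
    unfold Fz
    rw [mul_sum, mul_sum, ← sum_add_distrib]
    refine dvd_sum fun j hj => ?_
    have hj := mem_range.1 hj
    by_cases hjl : j % l = 0
    · simp only [hg, hjl, if_true, mul_zero, add_zero]
      refine Dvd.dvd.mul_left (Dvd.dvd.mul_left ?_ _) _
      rcases Nat.eq_zero_or_pos j with rfl | hj0
      · simpa using (Int.natCast_dvd_natCast.2 hsm)
      · obtain ⟨i, rfl⟩ : ∃ i, j = i + 1 := ⟨j - 1, by omega⟩
        have h2 : (l : ℤ) ^ (a - t) ∣ (n.choose (i + 1) : ℤ) := by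
          refine cancel hl hj0 (lt_of_lt_of_le hj hs) ?_
          rw [show a - t + t = a by omega]
          have : l ^ a ∣ (i + 1) * n.choose (i + 1) := by
            rw [mul_choose hn]; exact ha.mul_right _
          exact_mod_cast this
        have h3 : l ^ m ∣ (s - (i + 1)) ^ m :=
          pow_dvd_pow_of_dvd (Nat.dvd_sub hls (Nat.dvd_of_mod_eq_zero hjl)) m
        have h4 : (l : ℤ) ^ m ∣ ((s - (i + 1) : ℕ) : ℤ) ^ m := by exact_mod_cast h3
        push_cast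
        refine dvd_trans ?_ (mul_dvd_mul h4 h2)
        rw [← pow_add]
        exact pow_dvd_pow _ (by omega)
    · have hj0 : 0 < j := Nat.pos_of_ne_zero (by rintro rfl; simp at hjl)
      obtain ⟨i, rfl⟩ : ∃ i, j = i + 1 := ⟨j - 1, by omega⟩
      obtain ⟨d, hd⟩ := dvd_DD hj hjl
      simp only [hg, hjl, if_false, Nat.add_sub_cancel]
      have e : (((i + 1) * n.choose (i + 1) : ℕ) : ℤ) = ((n * (n - 1).choose i : ℕ) : ℤ) := by
        rw [mul_choose hn]
      rw [hd, Nat.mul_div_cancel_left _ hj0]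
      generalize s - (i + 1) = y
      refine (dvd_zero _).trans (dvd_of_eq (Eq.symm ?_))
      push_cast at e ⊢
      linear_combination (d * (-1) ^ (i + 1) * (y : ℤ) ^ m) * e
  rw [h, mul_zero, zero_add] at h1
  obtain ⟨n', hn'⟩ := ha
  have h2 : ¬ (l : ℤ) ∣ n' := by
    intro hc
    apply ha'
    rw [hn', pow_succ]
    exact Nat.mul_dvd_mul_left _ (by exact_mod_cast hc)
  have h3 : (l : ℤ) ^ c ∣ ∑ j ∈ range s, g j := by
    refine hp.pow_dvd_of_dvd_mul_left c h2 ?_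
    refine (mul_dvd_mul_iff_left (pow_ne_zero a hp.ne_zero)).1 ?_
    rw [← pow_add]
    refine h1.trans (dvd_of_eq ?_)
    rw [hn']; push_cast; ring
  have h4 : (l : ℤ) ^ c ∣ ∑ j ∈ range s, g j - (E s l m : ℤ) := by
    unfold E
    push_cast
    rw [← sum_sub_distrib]
    refine dvd_sum fun j hj => ?_
    have hj := mem_range.1 hj
    by_cases hjl : j % l = 0
    · simp [hg, hjl]
    · simp only [hg, hjl, if_false]
      have := (hu (j - 1) (by omega)).mul_left (((s - j) ^ m * (DD l s / j) : ℕ) : ℤ)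
      refine this.trans (dvd_of_eq ?_)
      push_cast; ring
  have h5 := dvd_sub h3 h4
  rw [sub_sub_cancel] at h5
  exact_mod_cast h5

end Pool.Agent.Lib.MP_b5d28a_nt.H6
end

-- part Pool.Agent.Lib.MP_b5d28a_nt.H6.Main
section

/-!
Assembly: from the local information to the absence of roots.
-/

namespace Pool.Agent.Lib.MP_b5d28a_nt.H6

open Finset

def NoRoot (s m : ℕ) : Prop := ∀ n, Fz s m n ≠ 0

def Good (s l cm m : ℕ) : Prop := NoRoot s m ∨ ∃ c, c ≤ cm ∧ ¬ l ^ c ∣ E s l m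

theorem pow_mono {a b x y M m : ℕ} (hxy : x ≤ y) (hm : M ≤ m) (h : a * x ^ M ≤ b * y ^ M) :
    a * x ^ m ≤ b * y ^ m := by
  obtain ⟨d, rfl⟩ := Nat.exists_eq_add_of_le hm
  rw [pow_add, pow_add, ← mul_assoc, ← mul_assoc]
  exact Nat.mul_le_mul h (Nat.pow_le_pow_left hxy d)

/-- the valuation of a root at a prime factor of `s` is bounded -/
theorem val_bound {s m n l w t c : ℕ} (hs : 4 ≤ s) (hl : l.Prime) (hn : 0 < n) (hw : l ^ w ∣ s)
    (hst : s ≤ l ^ (t + 1)) (hm : c + t ≤ m) (hm4 : 4 ≤ m)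
    (h2 : s ^ 2 * 3 ^ m + s * 2 ^ m ≤ 4 ^ m)
    (hc : (3 ≤ l ^ w ∧ l ^ c * s * 4 * 2 ^ m ≤ 3 ^ m) ∨ (l = 2 ∧ w = 1 ∧ c ≤ 1))
    (hE : ¬ l ^ c ∣ E s l m) (h : Fz s m n = 0) : ¬ l ^ (c + t) ∣ n := by
  intro hd
  obtain ⟨a, n', hn', hn''⟩ := Nat.exists_eq_pow_mul_and_not_dvd hn.ne' l hl.ne_one
  have ha : l ^ a ∣ n := ⟨n', hn''⟩
  have ha' : ¬ l ^ (a + 1) ∣ n := by
    rw [hn'', pow_succ]
    intro hc
    exact hn' (Nat.dvd_of_mul_dvd_mul_left (pow_pos hl.pos a) hc)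
  have hca : c + t ≤ a := by
    by_contra hc
    exact ha' ((pow_dvd_pow l (by omega)).trans hd)
  have hw0 : w ≠ 0 := by
    rintro rfl
    rcases hc with hc | hc
    · simp at hc
    · omega
  have hls : l ∣ s := (dvd_pow_self l hw0).trans hw
  have key : a + c ≤ w * m := by
    rcases hc with ⟨h3, hc⟩ | ⟨rfl, rfl, hc⟩
    · have h1 : n < s * 2 ^ (m + 2) := by
        by_contra h1
        exact high (by omega) (not_lt.1 h1) h
      have h4 : l ^ a ≤ n := Nat.le_of_dvd hn ha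
      have h5 : 3 ^ m ≤ l ^ (w * m) := by rw [pow_mul]; exact Nat.pow_le_pow_left h3 m
      refine (Nat.pow_le_pow_iff_right hl.one_lt).1 ?_
      calc l ^ (a + c) = l ^ c * l ^ a := by ring
        _ ≤ l ^ c * (s * 2 ^ (m + 2)) := Nat.mul_le_mul_left _ (h4.trans h1.le)
        _ = l ^ c * s * 4 * 2 ^ m := by ring
        _ ≤ _ := hc.trans h5
    · by_contra h1
      exact two_pow_not_dvd hs hm4 h2 hn ((pow_dvd_pow 2 (by omega)).trans ha) h
  refine hE (adic hl hn hls hst ha ha' hca hm ?_ h)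
  exact (pow_dvd_pow l key).trans (by rw [pow_mul]; exact pow_dvd_pow_of_dvd hw m)

theorem dvd_of_val {s m n L : ℕ} (Ls : List (ℕ × ℕ × ℕ)) (hprod : (Ls.map fun x => x.1 ^ x.2.1).prod = s)
    (hp : ∀ x ∈ Ls, x.1.Prime) (hv : ∀ x ∈ Ls, ¬ x.1 ^ (x.2.2 + 1) ∣ n) (h : n ∣ L * s ^ m) :
    n ∣ L * (Ls.map fun x => x.1 ^ x.2.2).prod := by
  rw [Nat.dvd_iff_prime_pow_dvd_dvd]
  intro q k hq hk
  by_cases hqs : q ∣ s
  · rw [← hprod] at hqs
    obtain ⟨y, hy, hqy⟩ := (Prime.dvd_prod_iff hq.prime).1 hqs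
    obtain ⟨x, hx, rfl⟩ := List.mem_map.1 hy
    have e : q = x.1 := (Nat.prime_dvd_prime_iff_eq hq (hp x hx)).1 (hq.dvd_of_dvd_pow hqy)
    have hk' : k ≤ x.2.2 := by
      by_contra hc
      exact hv x hx (e ▸ (pow_dvd_pow q (by omega)).trans hk)
    refine Dvd.dvd.mul_left ?_ _
    rw [e]
    exact (pow_dvd_pow _ hk').trans (List.dvd_prod (List.mem_map.2 ⟨x, hx, rfl⟩))
  · have h1 : (q ^ k).Coprime (s ^ m) :=
      Nat.Coprime.pow _ _ ((Nat.Prime.coprime_iff_not_dvd hq).2 hqs)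
    exact (h1.dvd_of_dvd_mul_right (hk.trans h)).mul_right _

/-- numerical side conditions; the entries are `(l, w, t, cm)` -/
def Size (s M L : ℕ) (Ls : List (ℕ × ℕ × ℕ × ℕ)) : Prop :=
  4 ≤ s ∧ 4 ≤ M ∧ 0 < L ∧ (∀ j, j < s → 1 ≤ j → j ∣ L) ∧
  (Ls.map fun x => x.1 ^ x.2.1).prod = s ∧
  L * (Ls.map fun x => x.1 ^ (x.2.2.2 + x.2.2.1 - 1)).prod * (s - 1) ^ M < s ^ M ∧
  s ^ 2 * 3 ^ M + s * 2 ^ M ≤ 4 ^ M ∧
  ∀ x ∈ Ls, s ≤ x.1 ^ (x.2.2.1 + 1) ∧ 1 ≤ x.2.2.2 ∧ x.2.2.2 + x.2.2.1 ≤ M ∧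
    ((3 ≤ x.1 ^ x.2.1 ∧ x.1 ^ x.2.2.2 * s * 4 * 2 ^ M ≤ 3 ^ M) ∨ (x.1 = 2 ∧ x.2.1 = 1 ∧ x.2.2.2 ≤ 1))

instance (s M L : ℕ) (Ls : List (ℕ × ℕ × ℕ × ℕ)) : Decidable (Size s M L Ls) := by
  unfold Size; infer_instance

theorem sum_mono {s M m : ℕ} (hm : M ≤ m) (h : s ^ 2 * 3 ^ M + s * 2 ^ M ≤ 4 ^ M) :
    s ^ 2 * 3 ^ m + s * 2 ^ m ≤ 4 ^ m := by
  obtain ⟨d, rfl⟩ := Nat.exists_eq_add_of_le hm
  have h1 : 3 ^ d ≤ 4 ^ d := Nat.pow_le_pow_left (by norm_num) d
  have h2 : 2 ^ d ≤ 4 ^ d := Nat.pow_le_pow_left (by norm_num) d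
  calc s ^ 2 * 3 ^ (M + d) + s * 2 ^ (M + d) = s ^ 2 * 3 ^ M * 3 ^ d + s * 2 ^ M * 2 ^ d := by ring
    _ ≤ s ^ 2 * 3 ^ M * 4 ^ d + s * 2 ^ M * 4 ^ d :=
      Nat.add_le_add (Nat.mul_le_mul_left _ h1) (Nat.mul_le_mul_left _ h2)
    _ = (s ^ 2 * 3 ^ M + s * 2 ^ M) * 4 ^ d := by ring
    _ ≤ 4 ^ M * 4 ^ d := Nat.mul_le_mul_right _ h
    _ = _ := by ring

theorem main {s M L : ℕ} {Ls : List (ℕ × ℕ × ℕ × ℕ)} (hS : Size s M L Ls)
    (hG : ∀ x ∈ Ls, x.1.Prime ∧ ∀ m, Good s x.1 x.2.2.2 m)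
    (hfin : ∀ m, 2 * s - 1 ≤ m → m < M → NoRoot s m) : ∀ m, 2 * s - 1 ≤ m → NoRoot s m := by
  obtain ⟨hs, hM, hL0, hL, hprod, hN, h2, hx⟩ := hS
  intro m hm
  rcases lt_or_ge m M with hlt | hge
  · exact hfin m hm hlt
  intro n h
  have hsm : 0 < s ^ m := by positivity
  rcases Nat.eq_zero_or_pos n with rfl | hn
  · exact (low (by omega) (by simpa using hsm)).ne' h
  have h1 := dvd_of_val (s := s) (m := m) (n := n) (L := L)
    (Ls.map fun x => (x.1, x.2.1, x.2.2.2 + x.2.2.1 - 1)) (by simpa [Function.comp_def] using hprod)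
    (by
      intro y hy
      obtain ⟨x, hx', rfl⟩ := List.mem_map.1 hy
      exact (hG x hx').1)
    (by
      intro y hy
      obtain ⟨x, hx', rfl⟩ := List.mem_map.1 hy
      obtain ⟨a1, a2, a3, a4⟩ := hx x hx'
      rcases (hG x hx').2 m with hg | ⟨c, hc, hE⟩
      · exact absurd h (hg n)
      have hw : x.1 ^ x.2.1 ∣ s := hprod ▸ List.dvd_prod (List.mem_map.2 ⟨x, hx', rfl⟩)
      have := val_bound (c := c) hs (hG x hx').1 hn hw a1 (by omega) (by omega) (sum_mono hge h2) (by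
        rcases a4 with ⟨b1, b2⟩ | ⟨b1, b2, b3⟩
        · refine Or.inl ⟨b1, ?_⟩
          have := pow_mono (b := 1) (by norm_num : 2 ≤ 3) hge (by simpa using b2)
          rw [one_mul] at this
          refine le_trans ?_ this
          have := Nat.pow_le_pow_right (hG x hx').1.pos hc
          gcongr
        · exact Or.inr ⟨b1, b2, by omega⟩) hE h
      intro hd
      exact this ((pow_dvd_pow _ (by simp only; omega)).trans hd))
    (dvd_L (by omega) hn hL h)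
  rw [List.map_map] at h1
  simp only [Function.comp_def] at h1
  have hpos : 0 < L * (Ls.map fun x => x.1 ^ (x.2.2.2 + x.2.2.1 - 1)).prod := by
    refine Nat.mul_pos hL0 (List.prod_pos ?_)
    intro y hy
    obtain ⟨x, hx', rfl⟩ := List.mem_map.1 hy
    exact pow_pos (hG x hx').1.pos _
  have h3 := Nat.le_of_dvd hpos h1
  refine (low (by omega) ?_).ne' h
  obtain ⟨d, rfl⟩ := Nat.exists_eq_add_of_le hge
  have h4 : (s - 1) ^ d ≤ s ^ d := Nat.pow_le_pow_left (by omega) d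
  calc n * (s - 1) ^ (M + d) = n * (s - 1) ^ M * (s - 1) ^ d := by ring
    _ ≤ n * (s - 1) ^ M * s ^ d := Nat.mul_le_mul_left _ h4
    _ < s ^ M * s ^ d := Nat.mul_lt_mul_of_pos_right
        (lt_of_le_of_lt (Nat.mul_le_mul_right _ h3) hN) (by positivity)
    _ = _ := by ring

theorem prod_eq (n j : ℕ) :
    ∏ i ∈ range j, ((n : ℚ) - i) = (j.factorial : ℚ) * (n.choose j : ℚ) := by
  induction j with
  | zero => simp
  | succ j ih =>
    rw [prod_range_succ, ih, Nat.factorial_succ]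
    have e := Nat.choose_succ_right_eq n j
    rcases le_or_gt j n with h | h
    · have e' : (n.choose (j + 1) : ℚ) * (j + 1) = n.choose j * (n - j) := by
        rw [← Nat.cast_sub h]; exact_mod_cast e
      push_cast
      linear_combination (-(j.factorial : ℚ)) * e'
    · rw [Nat.choose_eq_zero_of_lt h, Nat.choose_eq_zero_of_lt (by omega)]
      simp

theorem final {s k : ℕ} (hs : 1 ≤ s) (h : NoRoot s (k - 1)) (n : ℤ) :
    ∑ p ∈ Finset.Icc 1 s, (-1 : ℚ) ^ (p - 1) * (p : ℚ) ^ (k - 1) *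
      ((∏ i ∈ Finset.range (s - p), ((n : ℚ) - i)) / ((s - p).factorial : ℚ)) ≠ 0 := by
  rcases le_or_gt 0 n with hn | hn
  · obtain ⟨r, rfl⟩ := Int.eq_ofNat_of_zero_le hn
    have h1 := h r
    rw [Fz_rev] at h1
    have h2 := right_ne_zero_of_mul h1
    intro h3
    apply h2
    have : ((∑ i ∈ range s, (-1) ^ i * U s (k - 1) r i : ℤ) : ℚ) = 0 := by
      rw [← h3, range_eq_Ico, ← Finset.Ico_add_one_right_eq_Icc, ← sum_Ico_add' _ 0 s 1]
      push_cast
      refine sum_congr rfl fun i _ => ?_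
      have hf : ((s - (i + 1)).factorial : ℚ) ≠ 0 := by positivity
      rw [prod_eq, mul_div_cancel_left₀ _ hf]
      unfold U
      rw [show s - 1 - i = s - (i + 1) by omega]
      push_cast
      ring
    exact_mod_cast this
  · intro h3
    have h4 : 0 < (-1 : ℚ) ^ (s - 1) * ∑ p ∈ Finset.Icc 1 s, (-1 : ℚ) ^ (p - 1) * (p : ℚ) ^ (k - 1) *
      ((∏ i ∈ Finset.range (s - p), ((n : ℚ) - i)) / ((s - p).factorial : ℚ)) := by
      rw [mul_sum]
      refine sum_pos (fun p hp => ?_) ⟨1, by simp [hs]⟩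
      obtain ⟨h1, h2⟩ := mem_Icc.1 hp
      have e : ∏ i ∈ Finset.range (s - p), ((n : ℚ) - i)
          = (-1) ^ (s - p) * ∏ i ∈ Finset.range (s - p), ((i : ℚ) - n) := by
        have := prod_neg (s := range (s - p)) (fun i : ℕ => ((i : ℚ) - n))
        rw [card_range] at this
        rw [← this]
        exact prod_congr rfl fun i _ => by ring
      have hp : 0 < ∏ i ∈ Finset.range (s - p), ((i : ℚ) - n) := by
        refine prod_pos fun i _ => ?_
        have : (n : ℚ) < 0 := by exact_mod_cast hn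
        have : (0 : ℚ) ≤ i := by positivity
        linarith
      have e2 : (-1 : ℚ) ^ (s - 1) * ((-1) ^ (p - 1) * (-1) ^ (s - p)) = 1 := by
        rw [← pow_add, show p - 1 + (s - p) = s - 1 by omega, ← mul_pow]; simp
      have hp0 : (0 : ℚ) < p := by exact_mod_cast h1
      have : 0 < (p : ℚ) ^ (k - 1) * ((∏ i ∈ Finset.range (s - p), ((i : ℚ) - n)) /
        ((s - p).factorial : ℚ)) := by positivity
      rw [e]
      refine this.trans_eq ?_
      linear_combination (-((p : ℚ) ^ (k - 1) * ((∏ i ∈ Finset.range (s - p), ((i : ℚ) - n)) /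
        ((s - p).factorial : ℚ)))) * e2
    rw [h3, mul_zero] at h4
    exact lt_irrefl _ h4

end Pool.Agent.Lib.MP_b5d28a_nt.H6
end
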