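import Mathlib
import Pool.Agent.Lib.MP_b5d28a_nt.H6.Main

-- part Pool.Agent.Lib.MP_b5d28a_nt.H6.Chk
section
/-!
Kernel-friendly checkers for the Moser polynomial certificates (definitions only).
-/

namespace Pool.Agent.Lib.MP_b5d28a_nt.H6

noncomputable def force {α : Type} (n : Nat) (k : Nat → α) : α :=
  Nat.rec (motive := fun _ => α) (k 0) (fun m _ => k m) (Nat.add n 1)

/-- `if x = 0 then a else b` -/
noncomputable def ifz {α : Type} (x : Nat) (a b : α) : α :=
  Nat.rec (motive := fun _ => α) a (fun _ _ => b) x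

/-- the number with `N` digits `1` in base `2^w` -/
noncomputable def ones (w N : Nat) : Nat :=
  Nat.div (Nat.pred (Nat.shiftLeft 1 (Nat.mul w N))) (Nat.pred (Nat.shiftLeft 1 w))

/-- no `d` with `2 ≤ d < K + 2`, `d * d ≤ p` divides `p` -/
noncomputable def noDiv (p K : Nat) : Bool :=
  Nat.rec (motive := fun _ => Bool) true
    (fun d ih => ifz (Nat.mod p (Nat.add d 2))
      (Bool.rec (motive := fun _ => Bool) ih false (Nat.ble (Nat.add d 3) p)) ih) K

noncomputable def primeB (p : Nat) : Bool :=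
  force (Nat.shiftLeft 1 (Nat.succ (Nat.div (Nat.log2 p) 2))) fun K =>
    Bool.rec (motive := fun _ => Bool) false
      (Bool.rec (motive := fun _ => Bool) false (noDiv p K) (Nat.ble p (Nat.mul K K))) (Nat.ble 2 p)

/-- reduction modulo `p` of all the digits -/
noncomputable def red (p k u M A : Nat) : Nat :=
  Nat.sub A (Nat.mul (Nat.land (Nat.shiftRight (Nat.mul A u) k) M) p)

inductive L2 : Type
  | nil : L2
  | cons : Nat → Nat → L2 → L2

noncomputable def mkU (s p k w u M n : Nat) : Nat → L2 → (L2 → Bool) → Bool :=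
  Nat.rec (motive := fun _ => Nat → L2 → (L2 → Bool) → Bool) (fun _ acc c => c acc)
    (fun i ih V acc c =>
      force (Nat.shiftLeft V (Nat.mul w i)) fun U =>
      force (Nat.sub s i) fun b =>
      force (red p k u M (Nat.add V (Nat.shiftLeft V w))) fun V' => ih V' (L2.cons b U acc) c) n

noncomputable def pw (p k w u M f : Nat) : Nat → Nat :=
  Nat.rec (motive := fun _ => Nat → Nat) (fun _ => 1)
    (fun _ ih e => ifz e 1
      (force (Nat.div e 2) fun e' => force (ih e') fun h => force (red p k u M (Nat.mul h h)) fun g =>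
        ifz (Nat.mod e 2) g (red p k u M (Nat.add g (Nat.shiftLeft g w))))) f

noncomputable def comb (p x : Nat) (l : L2) : Nat :=
  L2.rec (motive := fun _ => Nat) 0
    (fun b U _ ih => Nat.add (Nat.mul (Nat.mod (Nat.pow b x) p) U) ih) l

noncomputable def runc (p k u M R D H : Nat) (l : L2) (c : List Nat) : Bool :=
  List.rec (motive := fun _ => Bool) true
    (fun x _ ih =>
      force (comb p x l) fun A =>
      force (Nat.mul (red p k u M A) R) fun B =>
      Bool.rec (motive := fun _ => Bool) false ih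
        (Nat.beq (Nat.land (Nat.add (red p k u M B) D) H) H)) c

noncomputable def andB (a b : Bool) : Bool := Bool.rec (motive := fun _ => Bool) false b a

/-- checks that `p > s` is prime and that for each exponent in `c` there is no root modulo `p` -/
noncomputable def grp (s p : Nat) (c : List Nat) : Bool :=
  force (Nat.succ (Nat.log2 p)) fun v =>
  force (Nat.mul 4 v) fun k =>
  force (Nat.add (Nat.mul 6 v) 2) fun w =>
  force (Nat.succ (Nat.div (Nat.shiftLeft 1 k) p)) fun u =>
  andB (Nat.ble (Nat.succ s) p) (andB (primeB p) (andB (Nat.ble p 1000000000)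
    (andB (Nat.ble (Nat.succ (Nat.pow p 4)) (Nat.shiftLeft 1 k))
    (andB (Nat.ble (Nat.succ (Nat.mul (Nat.pow p 3) u)) (Nat.shiftLeft 1 w))
    (andB (Nat.ble (Nat.succ k) w)
      (force (ones w p) fun o =>
       force (Nat.mul o (Nat.pred (Nat.shiftLeft 1 (Nat.sub w k)))) fun M =>
       force (Nat.shiftLeft o k) fun H =>
       force (Nat.sub H o) fun D =>
       force (pw p k w u M 64 (Nat.sub p s)) fun R =>
       mkU s p k w u M s 1 L2.nil fun l => runc p k u M R D H l c))))))

inductive G : Type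
  | nil : G
  | node : G → Nat → List Nat → G → G

inductive T : Type
  | nil : T
  | node : T → Nat → Nat → T → T

noncomputable def chkG (s : Nat) (g : G) : Bool :=
  G.rec (motive := fun _ => Bool) true
    (fun _ p c _ a b => Bool.rec (motive := fun _ => Bool) false
      (Bool.rec (motive := fun _ => Bool) false b a) (grp s p c)) g

noncomputable def mask (c : List Nat) : Nat :=
  List.rec (motive := fun _ => Nat) 0 (fun x _ ih => Nat.lor (Nat.shiftLeft 1 x) ih) c

noncomputable def toT (g : G) : (T → Bool) → Bool :=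
  G.rec (motive := fun _ => (T → Bool) → Bool) (fun k => k T.nil)
    (fun _ p c _ a b k => a fun l => b fun r => force (mask c) fun x => k (T.node l p x r)) g

noncomputable def find (p : Nat) (t : T) : Nat :=
  T.rec (motive := fun _ => Nat) 0
    (fun _ q x _ a b => Bool.rec (motive := fun _ => Nat) a
      (Bool.rec (motive := fun _ => Nat) b x (Nat.ble p q)) (Nat.ble q p)) t

/-- union of the periodic patterns, at least up to `M` -/
noncomputable def cover (M : Nat) (t : T) : Nat :=
  T.rec (motive := fun _ => Nat) 0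
    (fun _ q x _ a b => Nat.lor (Nat.lor a b)
      (force (Nat.pred q) fun d => Nat.mul (Nat.mod x (Nat.shiftLeft 1 d))
        (ones d (Nat.succ (Nat.div M d))))) t

noncomputable def finOK (s M : Nat) (t : T) : Bool :=
  force (Nat.pred (Nat.shiftLeft 1 M)) fun U =>
    Nat.beq (Nat.land (Nat.lor (cover M t) (Nat.pred (Nat.shiftLeft 1 (Nat.pred (Nat.mul 2 s))))) U) U

noncomputable def prodD (l s : Nat) : Nat :=
  Nat.rec (motive := fun _ => Nat) 1 (fun j ih => ifz (Nat.mod j l) ih (Nat.mul ih j)) s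

noncomputable def coef (l s D r t n : Nat) : Nat :=
  Nat.rec (motive := fun _ => Nat) 0
    (fun j ih => ifz (Nat.mod j l) ih
      (Nat.add ih (Nat.mul (Nat.mul (Nat.pow (Nat.sub s j) r) (Nat.div D j))
        (Nat.pow (Nat.pred (Nat.pow (Nat.sub s j) (Nat.pred l))) t)))) n

/-- the list of the coefficients `t, t+1, ..` (`n` of them), evaluated -/
noncomputable def coefs (l s D r Q n : Nat) : Nat → (List Nat → Bool) → Bool :=
  Nat.rec (motive := fun _ => Nat → (List Nat → Bool) → Bool) (fun _ k => k [])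
    (fun _ ih t k => force (Nat.mod (coef l s D r t s) Q) fun x =>
      ih (Nat.succ t) fun c => k (x :: c)) n

noncomputable def ev (y : Nat) (c : List Nat) : Nat → Nat → Nat :=
  List.rec (motive := fun _ => Nat → Nat → Nat) (fun _ _ => 0)
    (fun x _ ih t b => Nat.add (Nat.mul b x)
      (ih (Nat.succ t) (Nat.div (Nat.mul b (Nat.sub y t)) (Nat.succ t)))) c

noncomputable def qleaf (l cm : Nat) (ds : List Nat) (M r e c : Nat) : Bool :=
  force (Nat.pow l e) fun u =>
  force (Nat.mul (Nat.pred l) u) fun P =>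
  force (Nat.pow l c) fun q =>
  force (Nat.div (Nat.mod r P) (Nat.pred l)) fun y =>
  force (Nat.mod (ev y ds 0 1) q) fun a =>
  ifz (Nat.mod M P)
    (Bool.rec (motive := fun _ => Bool) false
      (Bool.rec (motive := fun _ => Bool) false
        (ifz a false (force (Nat.add y u) fun z => Nat.beq (Nat.mod (ev z ds 0 1) q) a))
        (Nat.ble c (Nat.mul 2 (Nat.succ e)))) (Nat.ble c cm)) false

noncomputable def pleaf (t : T) (M r p : Nat) : Bool :=
  force (Nat.pred p) fun d =>
  ifz (Nat.mod M d) (ifz (Nat.land (Nat.shiftRight (find p t) (Nat.mod r d)) 1) false true) false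

noncomputable def chk (l cm : Nat) (t : T) (ds : List Nat) (f : Nat) : Nat → Nat → Nat → (Nat → Bool) → Bool :=
  Nat.rec (motive := fun _ => Nat → Nat → Nat → (Nat → Bool) → Bool) (fun _ _ _ _ => false)
    (fun _ ih M r code k =>
      force (Nat.shiftRight code 24) fun rest =>
      force (Nat.shiftRight (Nat.land code 16777215) 2) fun x =>
      Nat.rec (motive := fun _ => Bool)
        (ifz x false (force (Nat.mul M x) fun N =>
          Nat.rec (motive := fun _ => Nat → Bool) k
            (fun i jh cd => force (Nat.add r (Nat.mul M i)) fun r' => ih N r' cd jh) x rest))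
        (fun g _ => Bool.rec (motive := fun _ => Bool) false (k rest)
          (ifz g (pleaf t M r x) (qleaf l cm ds M r (Nat.shiftRight x 6) (Nat.land x 63))))
        (Nat.land code 3)) f

noncomputable def tree (s l cm : Nat) (t : T) (a b : Nat) (codes : List Nat) : Bool :=
  force (prodD l s) fun D =>
  force (Nat.pow l cm) fun Q =>
  force (Nat.pred l) fun g =>
  List.rec (motive := fun _ => Nat → Bool) (fun r => Nat.ble b r)
    (fun cd _ jh r => coefs l s D r Q cm 0 fun ds =>
      chk l cm t ds 100 g r cd (fun _ => force (Nat.add r 1) jh)) codes a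

noncomputable def treeG (s l cm : Nat) (g : G) (a b : Nat) (codes : List Nat) : Bool :=
  toT g fun t => tree s l cm t a b codes

noncomputable def finG (s M : Nat) (g : G) : Bool := toT g fun t => finOK s M t

end Pool.Agent.Lib.MP_b5d28a_nt.H6
end

-- part Pool.Agent.Lib.MP_b5d28a_nt.H6.Rep
section

/-!
Packed vectors and packed polynomials modulo `p`.
-/

namespace Pool.Agent.Lib.MP_b5d28a_nt.H6

open Finset Polynomial

theorem force_eq {α : Type} (n : ℕ) (k : ℕ → α) : force n k = k n := rfl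

theorem ifz_eq {α : Type} (x : ℕ) (a b : α) : ifz x a b = if x = 0 then a else b := by
  cases x <;> simp [ifz]

theorem andB_eq (a b : Bool) : andB a b = true ↔ a = true ∧ b = true := by
  cases a <;> simp [andB]

theorem brec_eq (a b : Bool) :
    Bool.rec (motive := fun _ => Bool) false b a = true ↔ a = true ∧ b = true := andB_eq a b

def rep (w N : ℕ) (f : ℕ → ℕ) : ℕ := ∑ u ∈ range N, f u * (2 ^ w) ^ u

theorem ones_eq {w : ℕ} (hw : 1 ≤ w) (N : ℕ) : ones w N = rep w N fun _ => 1 := by
  have h : 2 ≤ 2 ^ w := by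
    calc 2 = 2 ^ 1 := rfl
      _ ≤ 2 ^ w := Nat.pow_le_pow_right (by norm_num) hw
  have := Nat.geomSum_eq h N
  simp only [rep, one_mul, this]
  show (1 <<< (w * N) - 1) / (1 <<< w - 1) = _
  rw [Nat.one_shiftLeft, Nat.one_shiftLeft, pow_mul]

theorem rep_lt {w : ℕ} {f : ℕ → ℕ} (hf : ∀ u, f u < 2 ^ w) (N : ℕ) : rep w N f < 2 ^ (w * N) := by
  induction N with
  | zero => simp [rep]
  | succ N ih =>
    unfold rep at ih ⊢
    rw [sum_range_succ, ← pow_mul, mul_add, pow_add, mul_one]
    have := Nat.mul_le_mul_right (2 ^ (w * N)) (Nat.succ_le_of_lt (hf N))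
    rw [Nat.succ_mul] at this
    linarith

theorem testBit_rep {w : ℕ} {f : ℕ → ℕ} (hf : ∀ u, f u < 2 ^ w) (N a : ℕ) {c : ℕ} (hc : c < w) :
    (rep w N f).testBit (w * a + c) = (decide (a < N) && (f a).testBit c) := by
  induction N with
  | zero => simp [rep]
  | succ N ih =>
    have e : rep w (N + 1) f = 2 ^ (w * N) * f N + rep w N f := by
      unfold rep; rw [sum_range_succ, ← pow_mul]; ring
    rw [e, Nat.testBit_two_pow_mul_add _ (rep_lt hf N)]
    rcases lt_trichotomy a N with h | rfl | h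
    · have : w * a + c < w * N := by nlinarith
      rw [if_pos this, ih]
      simp [h, Nat.lt_succ_of_lt h]
    · simp
    · have h1 : w * (N + 1) ≤ w * a := Nat.mul_le_mul_left _ h
      rw [if_neg (by nlinarith)]
      have h2 : ¬ a < N + 1 := by omega
      simp only [h2, decide_false, Bool.false_and]
      refine Nat.testBit_lt_two_pow ((hf N).trans_le (Nat.pow_le_pow_right (by norm_num) ?_))
      rw [mul_add] at h1
      omega

theorem rep_mul (w N : ℕ) (f : ℕ → ℕ) (c : ℕ) : rep w N f * c = rep w N fun u => f u * c := by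
  unfold rep; rw [sum_mul]; exact sum_congr rfl fun u _ => by ring

theorem rep_add (w N : ℕ) (f g : ℕ → ℕ) : rep w N f + rep w N g = rep w N fun u => f u + g u := by
  unfold rep; rw [← sum_add_distrib]; exact sum_congr rfl fun u _ => by ring

theorem shift_mask {w k N : ℕ} {g : ℕ → ℕ} (hg : ∀ u, g u < 2 ^ w) (hk : k < w) :
    (rep w N g >>> k) &&& rep w N (fun _ => 2 ^ (w - k) - 1) = rep w N fun u => g u / 2 ^ k := by
  refine Nat.eq_of_testBit_eq fun i => ?_
  have hw : 0 < w := by omega
  have hc := Nat.mod_lt i hw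
  rw [← Nat.div_add_mod i w]
  generalize i / w = a at *
  generalize i % w = c at *
  have h1 : ∀ _ : ℕ, 2 ^ (w - k) - 1 < 2 ^ w := fun _ => by
    have : 2 ^ (w - k) ≤ 2 ^ w := Nat.pow_le_pow_right (by norm_num) (by omega)
    have : 0 < 2 ^ w := by positivity
    omega
  rw [Nat.testBit_and, testBit_rep h1 _ _ hc,
    testBit_rep (fun u => (Nat.div_le_self _ _).trans_lt (hg u)) _ _ hc, Nat.testBit_shiftRight,
    Nat.testBit_two_pow_sub_one, Nat.testBit_div_two_pow]
  by_cases h : c < w - k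
  · rw [show k + (w * a + c) = w * a + (c + k) by ring, testBit_rep hg _ _ (by omega)]
    by_cases h2 : a < N <;> simp [h, h2]
  · have : (g a).testBit (c + k) = false :=
      Nat.testBit_lt_two_pow ((hg a).trans_le (Nat.pow_le_pow_right (by norm_num) (by omega)))
    simp [h, this]

theorem barrett {p K x : ℕ} (hp : 0 < p) (hx : x * p < K) : x * (K / p + 1) / K = x / p := by
  have hK : 0 < K := by omega
  have e1 := Nat.div_add_mod K p
  have e2 := Nat.mod_lt K hp
  have e3 := Nat.div_add_mod x p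
  have e4 := Nat.mod_lt x hp
  generalize K / p = a at *
  generalize K % p = b at *
  generalize x / p = q at *
  generalize x % p = r at *
  refine Nat.div_eq_of_lt_le ?_ ?_
  · have : q * K ≤ q * (p * (a + 1)) := Nat.mul_le_mul_left _ (by nlinarith)
    nlinarith [Nat.zero_le (r * (a + 1))]
  · refine Nat.lt_of_mul_lt_mul_right (a := p) ?_
    have h1 : x * (p * a) ≤ x * K := Nat.mul_le_mul_left _ (by omega)
    have h2 : (x + 1) * K ≤ (q + 1) * p * K := Nat.mul_le_mul_right _ (by nlinarith)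
    nlinarith

structure Ctx (p k w u M : ℕ) : Prop where
  hp : 2 ≤ p
  hu : u = 2 ^ k / p + 1
  h1 : p ^ 4 < 2 ^ k
  h2 : p ^ 3 * u < 2 ^ w
  h3 : k < w
  hM : M = rep w p fun _ => 2 ^ (w - k) - 1

theorem red_rep {p k w u M : ℕ} (C : Ctx p k w u M) {f : ℕ → ℕ} (hf : ∀ i, f i ≤ p ^ 3) :
    red p k u M (rep w p f) = rep w p fun i => f i % p := by
  have hp : 0 < p := by have := C.hp; omega
  show rep w p f - ((rep w p f * u) >>> k &&& M) * p = _
  rw [rep_mul, C.hM, shift_mask (fun i => (Nat.mul_le_mul_right _ (hf i)).trans_lt C.h2) C.h3, rep_mul]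
  refine Nat.sub_eq_of_eq_add ?_
  rw [rep_add]
  congr 1
  funext i
  rw [C.hu, barrett hp ((Nat.mul_le_mul_right _ (hf i)).trans_lt (by rw [← pow_succ]; exact C.h1))]
  exact (Nat.mod_add_div' _ _).symm

/-- `A` packs a polynomial of degree at most `d`, coefficients at most `b`, reducing to `P` -/
def Rp (p w A b d : ℕ) (P : (ZMod p)[X]) : Prop :=
  ∃ Q : ℕ[X], A = Q.eval (2 ^ w) ∧ (∀ u, Q.coeff u ≤ b) ∧ Q.natDegree ≤ d ∧
    Q.map (Nat.castRingHom (ZMod p)) = P

variable {p w : ℕ}

theorem Rp.mono {A b d b' d' : ℕ} {P : (ZMod p)[X]} (h : Rp p w A b d P) (hb : b ≤ b') (hd : d ≤ d') :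
    Rp p w A b' d' P := by
  obtain ⟨Q, h1, h2, h3, h4⟩ := h
  exact ⟨Q, h1, fun u => (h2 u).trans hb, h3.trans hd, h4⟩

theorem Rp.zero (b d : ℕ) : Rp p w 0 b d 0 := ⟨0, by simp, by simp, by simp, by simp⟩

theorem Rp.one : Rp p w 1 1 0 1 :=
  ⟨1, by simp, fun u => by rw [coeff_one]; split_ifs <;> simp, by simp, by simp⟩

theorem Rp.add {A A' b b' d : ℕ} {P P' : (ZMod p)[X]} (h : Rp p w A b d P) (h' : Rp p w A' b' d P') :
    Rp p w (A + A') (b + b') d (P + P') := by
  obtain ⟨Q, h1, h2, h3, h4⟩ := h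
  obtain ⟨Q', h1', h2', h3', h4'⟩ := h'
  refine ⟨Q + Q', by simp [h1, h1'], fun u => ?_, natDegree_add_le_of_degree_le h3 h3', by
    rw [Polynomial.map_add, h4, h4']⟩
  rw [coeff_add]
  exact Nat.add_le_add (h2 u) (h2' u)

theorem Rp.smul {A b d : ℕ} {P : (ZMod p)[X]} (h : Rp p w A b d P) (c : ℕ) :
    Rp p w (c * A) (c * b) d (C (c : ZMod p) * P) := by
  obtain ⟨Q, h1, h2, h3, h4⟩ := h
  refine ⟨C c * Q, by simp [h1], fun u => ?_, (natDegree_C_mul_le _ _).trans h3, by
    rw [Polynomial.map_mul, h4, map_C]; rfl⟩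
  rw [coeff_C_mul]
  exact Nat.mul_le_mul_left _ (h2 u)

theorem Rp.shift {A b d : ℕ} {P : (ZMod p)[X]} (h : Rp p w A b d P) (i : ℕ) :
    Rp p w (A <<< (w * i)) b (d + i) (P * X ^ i) := by
  obtain ⟨Q, h1, h2, h3, h4⟩ := h
  refine ⟨Q * X ^ i, by simp [h1, Nat.shiftLeft_eq, pow_mul], fun u => ?_,
    natDegree_mul_le.trans (Nat.add_le_add h3 (natDegree_X_pow_le i)), by
    rw [Polynomial.map_mul, h4]; simp⟩
  rw [coeff_mul_X_pow']
  split_ifs
  · exact h2 _
  · exact Nat.zero_le _

theorem Rp.mul {A A' b b' d d' : ℕ} {P P' : (ZMod p)[X]} (h : Rp p w A b d P)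
    (h' : Rp p w A' b' d' P') : Rp p w (A * A') ((d + 1) * (b * b')) (d + d') (P * P') := by
  obtain ⟨Q, h1, h2, h3, h4⟩ := h
  obtain ⟨Q', h1', h2', h3', h4'⟩ := h'
  refine ⟨Q * Q', by simp [h1, h1'], fun u => ?_, natDegree_mul_le.trans (Nat.add_le_add h3 h3'), by
    rw [Polynomial.map_mul, h4, h4']⟩
  rw [coeff_mul, Finset.Nat.sum_antidiagonal_eq_sum_range_succ_mk]
  calc ∑ i ∈ range u.succ, Q.coeff i * Q'.coeff (u - i)
      = ∑ i ∈ range u.succ ∩ range (d + 1), Q.coeff i * Q'.coeff (u - i) := by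
        refine (sum_subset inter_subset_left fun i hi hi' => ?_).symm
        have : d < i := by
          by_contra hc
          exact hi' (mem_inter.2 ⟨hi, mem_range.2 (by omega)⟩)
        rw [coeff_eq_zero_of_natDegree_lt (h3.trans_lt this), zero_mul]
    _ ≤ (range u.succ ∩ range (d + 1)).card • (b * b') :=
        sum_le_card_nsmul _ _ _ fun i _ => Nat.mul_le_mul (h2 _) (h2' _)
    _ ≤ (d + 1) * (b * b') := by
        rw [smul_eq_mul]
        exact Nat.mul_le_mul_right _ ((card_le_card inter_subset_right).trans_eq (card_range _))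

theorem Rp.red' {k u M A b d : ℕ} {P : (ZMod p)[X]} (C : Ctx p k w u M) (h : Rp p w A b d P)
    (hb : b ≤ p ^ 3) (hd : d < p) :
    ∃ f : ℕ → ℕ, red p k u M A = rep w p f ∧ (∀ i, f i < p) ∧ (∀ i, d < i → f i = 0) ∧
      ∀ i, (f i : ZMod p) = P.coeff i := by
  obtain ⟨Q, h1, h2, h3, h4⟩ := h
  have hp : 0 < p := by omega
  refine ⟨fun i => Q.coeff i % p, ?_, fun i => Nat.mod_lt _ hp, fun i hi => ?_, fun i => ?_⟩
  · rw [h1, eval_eq_sum_range' (h3.trans_lt hd)]
    exact red_rep C fun i => (h2 i).trans hb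
  · simp [coeff_eq_zero_of_natDegree_lt (h3.trans_lt hi)]
  · simp [← h4]

theorem Rp.red {k u M A b d : ℕ} {P : (ZMod p)[X]} (C : Ctx p k w u M) (h : Rp p w A b d P)
    (hb : b ≤ p ^ 3) (hd : d < p) : Rp p w (red p k u M A) p d P := by
  obtain ⟨f, h1, h2, h3, h4⟩ := h.red' C hb hd
  have hc : ∀ i, (∑ j ∈ range p, monomial j (f j)).coeff i = f i := by
    intro i
    rw [finsetSum_coeff]
    simp only [coeff_monomial, sum_ite_eq', mem_range]
    split_ifs with hi
    · rfl
    · exact (h3 i (by omega)).symm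
  refine ⟨∑ j ∈ range p, monomial j (f j), ?_, fun i => ?_, ?_, ?_⟩
  · rw [h1, eval_finsetSum]
    simp [rep]
  · rw [hc]; exact (h2 i).le
  · exact natDegree_le_iff_coeff_eq_zero.2 fun i hi => by rw [hc, h3 i hi]
  · ext i
    rw [coeff_map, hc, ← h4]; rfl

theorem Rp.test {k u M A b d : ℕ} {P : (ZMod p)[X]} [Fact p.Prime] (C : Ctx p k w u M)
    (h : Rp p w A b d P) (hb : b ≤ p ^ 3) (hd : d < p)
    (ht : (Pool.Agent.Lib.MP_b5d28a_nt.H6.red p k u M A + (ones w p <<< k - ones w p)) &&& ones w p <<< k = ones w p <<< k) :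
    ∀ i, i < p → P.coeff i ≠ 0 := by
  obtain ⟨f, h1, h2, -, h4⟩ := h.red' C hb hd
  intro i hi h0
  have hfi : f i = 0 := by
    rw [← h4, ZMod.natCast_eq_zero_iff] at h0
    exact Nat.eq_zero_of_dvd_of_lt h0 (h2 i)
  have hk := C.h3
  have hK : 0 < 2 ^ k := by positivity
  have hkw : 2 ^ (k + 1) ≤ 2 ^ w := Nat.pow_le_pow_right (by norm_num) hk
  have hpk : p ≤ 2 ^ k := (Nat.le_self_pow (by norm_num) p).trans C.h1.le
  have e1 : ones w p <<< k = rep w p fun _ => 2 ^ k := by
    rw [ones_eq (by omega), Nat.shiftLeft_eq, rep_mul]; simp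
  have e2 : ones w p <<< k - ones w p = rep w p fun _ => 2 ^ k - 1 := by
    refine Nat.sub_eq_of_eq_add ?_
    rw [e1, ones_eq (by omega), rep_add]
    congr 1; funext _; omega
  rw [e2, e1, h1, rep_add] at ht
  have := congrArg (fun x => x.testBit (w * i + k)) ht
  simp only [Nat.testBit_and] at this
  rw [testBit_rep (fun j => by have := h2 j; rw [pow_succ] at hkw; omega) _ _ hk,
    testBit_rep (fun j => by rw [pow_succ] at hkw; omega) _ _ hk] at this
  simp [hi, hfi] at this

end Pool.Agent.Lib.MP_b5d28a_nt.H6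
end

-- part Pool.Agent.Lib.MP_b5d28a_nt.H6.Grp
section

/-!
Soundness of the checks modulo primes `p > s`.
-/

namespace Pool.Agent.Lib.MP_b5d28a_nt.H6

open Finset Polynomial

theorem noDiv_sound (p K : ℕ) (h : noDiv p K = true) : ∀ d, d < K → d + 2 < p → ¬ d + 2 ∣ p := by
  induction K with
  | zero => intro d hd; omega
  | succ K ih =>
    have e : noDiv p (K + 1) = ifz (p % (K + 2))
      (Bool.rec (motive := fun _ => Bool) (noDiv p K) false (Nat.ble (K + 3) p)) (noDiv p K) := rfl
    rw [e, ifz_eq] at h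
    intro d hd h2 h3
    split_ifs at h with h0
    · cases hb : Nat.ble (K + 3) p with
      | true => rw [hb] at h; exact Bool.noConfusion h
      | false =>
        rw [hb] at h
        have : ¬ K + 3 ≤ p := by rw [← Nat.ble_eq, hb]; simp
        exact ih h d (by omega) h2 h3
    · rcases Nat.lt_succ_iff_lt_or_eq.1 hd with h1 | rfl
      · exact ih h d h1 h2 h3
      · exact h0 (Nat.mod_eq_zero_of_dvd h3)

theorem primeB_sound {p : ℕ} (h : primeB p = true) : p.Prime := by
  unfold primeB at h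
  rw [force_eq, brec_eq, brec_eq, Nat.ble_eq, Nat.ble_eq] at h
  obtain ⟨h2, h3, h4⟩ := h
  generalize Nat.shiftLeft 1 _ = K at h3 h4
  rw [Nat.prime_def_le_sqrt]
  refine ⟨h2, fun d hd hs => ?_⟩
  have h5 : d * d ≤ p := Nat.le_sqrt.1 hs
  have h6 : d ≤ K := Nat.mul_self_le_mul_self_iff.1 (h5.trans h3)
  obtain ⟨e, rfl⟩ : ∃ e, d = e + 2 := ⟨d - 2, by omega⟩
  exact noDiv_sound p K h4 e (by omega) (by nlinarith)

variable {p k w u M : ℕ}

theorem Rp.step (C : Ctx p k w u M) {V t : ℕ} (h : Rp p w V p t ((1 + X) ^ t)) (ht : t + 1 < p) :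
    Rp p w (Pool.Agent.Lib.MP_b5d28a_nt.H6.red p k u M (V + V <<< w)) p (t + 1) ((1 + X) ^ (t + 1)) := by
  have h1 := (h.mono le_rfl (Nat.le_succ t)).add (h.shift 1)
  rw [mul_one] at h1
  have hp := C.hp
  have := h1.red C (by nlinarith [Nat.mul_le_mul hp hp]) ht
  convert this using 1
  ring

theorem pw_sound (C : Ctx p k w u M) (f : ℕ) :
    ∀ e, e < 2 ^ f → e < p → Rp p w (pw p k w u M f e) p e ((1 + X) ^ e) := by
  have hp := C.hp
  induction f with
  | zero =>
    intro e he _
    obtain rfl : e = 0 := by omega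
    exact Rp.one.mono (by omega) le_rfl
  | succ f ih =>
    intro e he hep
    have e1 : pw p k w u M (f + 1) e = ifz e 1 (ifz (e % 2)
      (red p k u M (pw p k w u M f (e / 2) * pw p k w u M f (e / 2)))
      (red p k u M (red p k u M (pw p k w u M f (e / 2) * pw p k w u M f (e / 2)) +
        red p k u M (pw p k w u M f (e / 2) * pw p k w u M f (e / 2)) <<< w))) := rfl
    rw [e1, ifz_eq, ifz_eq]
    split_ifs with h0 h1
    · subst h0
      exact Rp.one.mono (by omega) le_rfl
    all_goals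
      have h2 := ih (e / 2) (by rw [pow_succ] at he; omega) (by omega)
      have h3 := (h2.mul h2).red C (by
        rw [show p ^ 3 = p * (p * p) by ring]
        exact Nat.mul_le_mul_right _ (by omega)) (by omega)
      rw [← pow_add] at h3
    · rwa [show e / 2 + e / 2 = e by omega] at h3
    · have := h3.step C (by omega)
      rwa [show e / 2 + e / 2 + 1 = e by omega] at this

noncomputable def PP (p s x n : ℕ) : (ZMod p)[X] :=
  ∑ i ∈ Ico n s, C (((s - i) ^ x : ℕ) : ZMod p) * ((1 + X) ^ (s - 1 - i) * X ^ i)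

def Inv (p w s n : ℕ) (l : L2) : Prop :=
  ∀ x, Rp p w (comb p x l) ((s - n) * (p * p)) (s - 1) (PP p s x n)

theorem mkU_sound (C : Ctx p k w u M) {s : ℕ} (hs : s < p) (c : L2 → Bool) (n : ℕ) :
    ∀ V acc, n ≤ s → Rp p w V p (s - n) ((1 + X) ^ (s - n)) → Inv p w s n acc →
      mkU s p k w u M n V acc c = true → ∃ l, Inv p w s 0 l ∧ c l = true := by
  induction n with
  | zero => intro V acc _ _ h1 h2; exact ⟨acc, h1, h2⟩
  | succ i ih =>
    intro V acc hn hV hI h
    refine ih (red p k u M (V + V <<< w)) (L2.cons (s - i) (V <<< (w * i)) acc) (by omega) ?_ ?_ h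
    · have := hV.step C (by omega)
      rwa [show s - (i + 1) + 1 = s - i by omega] at this
    · intro x
      have e : comb p x (L2.cons (s - i) (V <<< (w * i)) acc)
        = (s - i) ^ x % p * V <<< (w * i) + comb p x acc := rfl
      have h1 := ((hV.shift i).smul ((s - i) ^ x % p)).mono
        (Nat.mul_le_mul_right p (Nat.mod_lt _ (by omega : 0 < p)).le) (by omega : _ ≤ s - 1)
      have h2 := h1.add (hI x)
      rw [e]
      convert h2 using 1
      · rw [show s - i = s - (i + 1) + 1 by omega]; ring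
      · unfold PP
        rw [sum_eq_sum_Ico_succ_bot (by omega), ZMod.natCast_mod,
          show s - 1 - i = s - (i + 1) by omega]

theorem choose_neg [hp : Fact p.Prime] (i t : ℕ) (h : i + t < p) :
    (((p - 1 - i).choose t : ℕ) : ZMod p) = (-1) ^ t * ((i + t).choose t : ℕ) := by
  induction t with
  | zero => simp
  | succ t ih =>
    have h1 := ih (by omega)
    have h2 : ((t + 1 : ℕ) : ZMod p) ≠ 0 := by
      rw [Ne, ZMod.natCast_eq_zero_iff]
      exact fun hc => absurd (Nat.le_of_dvd (by omega) hc) (by omega)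
    refine mul_right_cancel₀ h2 ?_
    have e1 := congrArg (Nat.cast : ℕ → ZMod p) (Nat.choose_succ_right_eq (p - 1 - i) t)
    have e2 := congrArg (Nat.cast : ℕ → ZMod p) (Nat.add_one_mul_choose_eq (i + t) t)
    have e3 : ((p - 1 - i - t : ℕ) : ZMod p) = -(i + t + 1) := by
      have : ((p - 1 - i - t + (i + t + 1) : ℕ) : ZMod p) = 0 := by
        rw [show p - 1 - i - t + (i + t + 1) = p by omega]; simp
      push_cast at this
      linear_combination this
    rw [Nat.cast_mul, Nat.cast_mul, h1, e3] at e1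
    rw [e1, ← add_assoc]
    push_cast at e2 ⊢
    linear_combination (-(-1) ^ t) * e2

theorem coeff_PP [hp : Fact p.Prime] {s : ℕ} (hs : s < p) (x : ℕ) {r : ℕ} (hr : r < p) :
    (PP p s x 0 * (1 + X) ^ (p - s)).coeff r = (-1) ^ r * (Fz s x r : ZMod p) := by
  unfold PP Fz
  rw [sum_mul, finsetSum_coeff, ← range_eq_Ico]
  push_cast
  rw [mul_sum]
  refine sum_congr rfl fun i hi => ?_
  have hi := mem_range.1 hi
  rw [mul_assoc, coeff_C_mul, mul_right_comm, ← pow_add, coeff_mul_X_pow',
    show s - 1 - i + (p - s) = p - 1 - i by omega]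
  split_ifs with h
  · obtain ⟨t, rfl⟩ := Nat.exists_eq_add_of_le h
    rw [Nat.add_sub_cancel_left, coeff_one_add_X_pow, choose_neg i t hr, Nat.choose_symm_add, pow_add]
    have : ((-1 : ZMod p) ^ i) * (-1) ^ i = 1 := by rw [← mul_pow]; simp
    linear_combination (-((s - i : ℕ) : ZMod p) ^ x * (-1) ^ t * ((i + t).choose t : ℕ)) * this
  · rw [Nat.choose_eq_zero_of_lt (by omega)]; simp

theorem Fz_mod [hp : Fact p.Prime] {s : ℕ} (hs : s < p) (m n : ℕ) :
    (Fz s m n : ZMod p) = Fz s (m % (p - 1)) (n % p) := by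
  unfold Fz
  push_cast
  refine sum_congr rfl fun i hi => ?_
  have hi := mem_range.1 hi
  have h1 : ((s - i : ℕ) : ZMod p) ≠ 0 := by
    rw [Ne, ZMod.natCast_eq_zero_iff]
    exact fun hc => absurd (Nat.le_of_dvd (by omega) hc) (by omega)
  have h2 : ((s - i : ℕ) : ZMod p) ^ m = ((s - i : ℕ) : ZMod p) ^ (m % (p - 1)) := by
    conv_lhs => rw [← Nat.div_add_mod m (p - 1), pow_add, pow_mul, ZMod.pow_card_sub_one_eq_one h1]
    simp
  have h3 := (ZMod.natCast_eq_natCast_iff _ _ _).2
    (Choose.choose_modEq_choose_mod_mul_choose_div_nat (n := n) (k := i) (p := p))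
  rw [Nat.mod_eq_of_lt (show i < p by omega), Nat.div_eq_of_lt (show i < p by omega),
    Nat.choose_zero_right, mul_one] at h3
  rw [h2, h3]

def Cov (s p x : ℕ) : Prop := ∀ m, m % (p - 1) = x → NoRoot s m

theorem runc_sound [hp : Fact p.Prime] (C : Ctx p k w u M) {s R : ℕ} (hs : s < p) {l : L2}
    (hl : Inv p w s 0 l) (hR : Rp p w R p (p - s) ((1 + X) ^ (p - s))) (hs1 : 1 ≤ s) (c : List ℕ)
    (h : runc p k u M R (ones w p <<< k - ones w p) (ones w p <<< k) l c = true) :
    ∀ x ∈ c, Cov s p x := by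
  induction c with
  | nil => simp
  | cons y c ih =>
    have e : runc p k u M R (ones w p <<< k - ones w p) (ones w p <<< k) l (y :: c) =
      andB (Nat.beq ((red p k u M (red p k u M (comb p y l) * R) + (ones w p <<< k - ones w p)) &&&
        (ones w p <<< k)) (ones w p <<< k))
        (runc p k u M R (ones w p <<< k - ones w p) (ones w p <<< k) l c) := rfl
    rw [e, andB_eq, Nat.beq_eq] at h
    intro x hx
    rcases List.mem_cons.1 hx with rfl | hx
    · have hb : ∀ a, a ≤ p → a * (p * p) ≤ p ^ 3 := fun a ha => by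
        rw [show p ^ 3 = p * (p * p) by ring]; exact Nat.mul_le_mul_right _ ha
      have h1 := ((hl x).red C (hb _ (by omega)) (by omega)).mul hR
      have h2 := h1.test C (hb _ (by omega)) (by omega) h.1
      intro m hm n h0
      have h3 := h2 (n % p) (Nat.mod_lt _ (by omega))
      rw [coeff_PP hs x (Nat.mod_lt _ (by omega)), ← hm, ← Fz_mod hs, h0] at h3
      simp at h3
    · exact ih h.2 x hx

theorem grp_sound {s p : ℕ} {c : List ℕ} (hs : 1 ≤ s) (h : grp s p c = true) :
    2 ≤ p ∧ ∀ x ∈ c, Cov s p x := by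
  unfold grp at h
  simp only [force_eq, andB_eq, Nat.ble_eq] at h
  obtain ⟨h1, h2, h3, h4, h5, h6, h7⟩ := h
  generalize Nat.mul 4 _ = k at *
  generalize Nat.add _ 2 = w at *
  have : Fact p.Prime := ⟨primeB_sound h2⟩
  have hp : 2 ≤ p := (primeB_sound h2).two_le
  have hk : k < w := h6
  have C : Ctx p k w (Nat.succ (Nat.div (Nat.shiftLeft 1 k) p))
      (Nat.mul (ones w p) (Nat.pred (Nat.shiftLeft 1 (Nat.sub w k)))) := by
    refine ⟨hp, ?_, ?_, ?_, hk, ?_⟩
    · show 1 <<< k / p + 1 = _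
      rw [Nat.one_shiftLeft]
    · rw [← Nat.one_shiftLeft]; exact h4
    · rw [← Nat.one_shiftLeft]; exact h5
    · show ones w p * (1 <<< (w - k) - 1) = _
      rw [ones_eq (by omega), rep_mul, Nat.one_shiftLeft]; simp
  have hsp : s < p := h1
  obtain ⟨l, hl, hc⟩ := mkU_sound C hsp _ s 1 L2.nil le_rfl
    (by simpa using Rp.one.mono (by omega : 1 ≤ p) le_rfl)
    (fun x => by simpa [PP, comb] using Rp.zero 0 (s - 1)) h7
  exact ⟨hp, runc_sound C hsp hl (pw_sound C 64 (p - s) (by omega) (by omega)) hs c hc⟩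

def OKG (s : ℕ) : G → Prop
  | G.nil => True
  | G.node l p c r => OKG s l ∧ OKG s r ∧ 2 ≤ p ∧ ∀ x ∈ c, Cov s p x

def OKT (s : ℕ) : T → Prop
  | T.nil => True
  | T.node l p y r => OKT s l ∧ OKT s r ∧ 2 ≤ p ∧ ∀ x, y.testBit x = true → Cov s p x

theorem okg_node {s p : ℕ} {c : List ℕ} {l r : G} (hs : 1 ≤ s) (h : grp s p c = true)
    (hl : OKG s l) (hr : OKG s r) : OKG s (G.node l p c r) := ⟨hl, hr, grp_sound hs h⟩

theorem okg {s : ℕ} (hs : 1 ≤ s) {g : G} (h : chkG s g = true) : OKG s g := by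
  induction g with
  | nil => trivial
  | node l p c r ihl ihr =>
    have e : chkG s (G.node l p c r) = andB (grp s p c) (andB (chkG s l) (chkG s r)) := rfl
    rw [e, andB_eq, andB_eq] at h
    exact okg_node hs h.1 (ihl h.2.1) (ihr h.2.2)

theorem mask_sound (c : List ℕ) (x : ℕ) (h : (mask c).testBit x = true) : x ∈ c := by
  induction c with
  | nil => simp [mask] at h
  | cons y c ih =>
    have e : mask (y :: c) = 1 <<< y ||| mask c := rfl
    rw [e, Nat.testBit_or, Bool.or_eq_true, Nat.one_shiftLeft, Nat.testBit_two_pow] at h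
    rcases h with h | h
    · simp at h; simp [h]
    · exact List.mem_cons_of_mem _ (ih h)

theorem toT_sound {s : ℕ} (g : G) : ∀ k : T → Bool, OKG s g → toT g k = true →
    ∃ t, OKT s t ∧ k t = true := by
  induction g with
  | nil => intro k _ h; exact ⟨T.nil, trivial, h⟩
  | node l p c r ihl ihr =>
    intro k hg h
    obtain ⟨a, ha, h1⟩ := ihl _ hg.1 h
    obtain ⟨b, hb, h2⟩ := ihr _ hg.2.1 h1
    exact ⟨T.node a p (mask c) b, ⟨ha, hb, hg.2.2.1, fun x hx => hg.2.2.2 x (mask_sound c x hx)⟩, h2⟩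

theorem find_sound {s : ℕ} (p : ℕ) (t : T) (ht : OKT s t) (x : ℕ) (h : (find p t).testBit x = true) :
    Cov s p x := by
  induction t with
  | nil => simp [find] at h
  | node l q y r ihl ihr =>
    have e : find p (T.node l q y r) = Bool.rec (motive := fun _ => ℕ) (find p l)
      (Bool.rec (motive := fun _ => ℕ) (find p r) y (Nat.ble p q)) (Nat.ble q p) := rfl
    rw [e] at h
    cases h1 : Nat.ble q p with
    | false => rw [h1] at h; exact ihl ht.1 h
    | true =>
      rw [h1] at h
      cases h2 : Nat.ble p q with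
      | false => rw [h2] at h; exact ihr ht.2.1 h
      | true =>
        rw [h2] at h
        rw [Nat.ble_eq] at h1 h2
        obtain rfl : p = q := le_antisymm h2 h1
        exact ht.2.2.2 x h

theorem cover_sound {s : ℕ} (N : ℕ) (t : T) (ht : OKT s t) (m : ℕ)
    (h : (cover N t).testBit m = true) : NoRoot s m := by
  induction t with
  | nil => simp [cover] at h
  | node l q y r ihl ihr =>
    have e : cover N (T.node l q y r) = (cover N l ||| cover N r) |||
      (y % 1 <<< (q - 1) * ones (q - 1) (N / (q - 1) + 1)) := rfl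
    rw [e, Nat.testBit_or, Nat.testBit_or, Bool.or_eq_true, Bool.or_eq_true] at h
    rcases h with (h | h) | h
    · exact ihl ht.1 h
    · exact ihr ht.2.1 h
    · have hq := ht.2.2.1
      rw [mul_comm, ones_eq (by omega), rep_mul, Nat.one_shiftLeft, ← Nat.div_add_mod m (q - 1),
        testBit_rep (fun _ => by rw [one_mul]; exact Nat.mod_lt _ (by positivity)) _ _
          (Nat.mod_lt _ (by omega)), one_mul, Nat.testBit_mod_two_pow] at h
      simp only [Bool.and_eq_true] at h
      exact ht.2.2.2 _ h.2.2 m rfl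

theorem fin_sound {s N : ℕ} {g : G} (hg : OKG s g) (h : finG s N g = true) :
    ∀ m, 2 * s - 1 ≤ m → m < N → NoRoot s m := by
  obtain ⟨t, ht, h1⟩ := toT_sound g _ hg h
  have e : finOK s N t = Nat.beq ((cover N t ||| (1 <<< (2 * s - 1) - 1)) &&& (1 <<< N - 1))
    (1 <<< N - 1) := rfl
  rw [e, Nat.beq_eq, Nat.one_shiftLeft, Nat.one_shiftLeft] at h1
  intro m hm hN
  have := congrArg (fun x => x.testBit m) h1
  simp only [Nat.testBit_and, Nat.testBit_or, Nat.testBit_two_pow_sub_one, hN, decide_true,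
    Bool.and_true, not_lt.2 hm, decide_false, Bool.or_false] at this
  exact cover_sound N t ht m this

end Pool.Agent.Lib.MP_b5d28a_nt.H6
end

-- part Pool.Agent.Lib.MP_b5d28a_nt.H6.Tree
section

/-!
Soundness of the covering trees.
-/

namespace Pool.Agent.Lib.MP_b5d28a_nt.H6

open Finset

theorem newton {l g : ℕ} (h : l ∣ g) (c y : ℕ) :
    (g + 1) ^ y ≡ ∑ t ∈ range c, y.choose t * g ^ t [MOD l ^ c] := by
  have e : (g + 1) ^ y = ∑ t ∈ range (c + (y + 1)), y.choose t * g ^ t := by
    rw [add_pow]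
    refine Eq.trans (sum_congr rfl fun t _ => by simp [mul_comm]) (sum_subset (fun t ht => ?_) ?_)
    · simp only [mem_range] at ht ⊢; omega
    · intro t _ ht
      simp only [mem_range] at ht
      rw [Nat.choose_eq_zero_of_lt (by omega), zero_mul]
  rw [e, sum_range_add]
  refine (Nat.modEq_iff_dvd' (Nat.le_add_right _ _)).2 ?_ |>.symm
  rw [Nat.add_sub_cancel_left]
  refine dvd_sum fun t _ => Dvd.dvd.mul_left ?_ _
  exact (pow_dvd_pow_of_dvd h c).trans (pow_dvd_pow _ (Nat.le_add_right _ _))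

theorem sum_modEq {n : ℕ} {f g : ℕ → ℕ} (s : ℕ) (h : ∀ j, j < s → f j ≡ g j [MOD n]) :
    ∑ j ∈ range s, f j ≡ ∑ j ∈ range s, g j [MOD n] := by
  induction s with
  | zero => rfl
  | succ s ih =>
    rw [sum_range_succ, sum_range_succ]
    exact (ih fun j hj => h j (by omega)).add (h s (by omega))

theorem unit_pow {l s j : ℕ} (hl : l.Prime) (hls : l ∣ s) (hj : j < s) (h : j % l ≠ 0) (e : ℕ) :
    ∃ z, (s - j) ^ ((l - 1) * l ^ e) = z + 1 ∧ l ^ (e + 1) ∣ z := by
  have h1 : Nat.Coprime (s - j) (l ^ (e + 1)) := by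
    refine Nat.Coprime.pow_right _ (((Nat.Prime.coprime_iff_not_dvd hl).2 fun hc => h ?_).symm)
    have := Nat.dvd_sub hls hc
    rw [Nat.sub_sub_self hj.le] at this
    exact Nat.mod_eq_zero_of_dvd this
  have h2 := Nat.ModEq.pow_totient h1
  rw [Nat.totient_prime_pow_succ hl, mul_comm] at h2
  have h3 : 1 ≤ (s - j) ^ ((l - 1) * l ^ e) := Nat.one_le_pow _ _ (by omega)
  exact ⟨(s - j) ^ ((l - 1) * l ^ e) - 1, by omega, (Nat.modEq_iff_dvd' h3).1 h2.symm⟩

theorem prodD_eq (l s : ℕ) : prodD l s = DD l s := by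
  induction s with
  | zero => rfl
  | succ s ih =>
    have e : prodD l (s + 1) = ifz (s % l) (prodD l s) (prodD l s * s) := rfl
    rw [e, ifz_eq, ih]
    unfold DD
    rw [prod_range_succ]
    split_ifs <;> simp

theorem coef_eq (l s D r t n : ℕ) : coef l s D r t n = ∑ j ∈ range n,
    if j % l = 0 then 0 else (s - j) ^ r * (D / j) * ((s - j) ^ (l - 1) - 1) ^ t := by
  induction n with
  | zero => rfl
  | succ n ih =>
    have e : coef l s D r t (n + 1) = ifz (n % l) (coef l s D r t n)
      (coef l s D r t n + (s - n) ^ r * (D / n) * ((s - n) ^ (l - 1) - 1) ^ t) := rfl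
    rw [e, ifz_eq, ih, sum_range_succ]
    split_ifs <;> simp

theorem E_newton {l s : ℕ} (hl : l.Prime) (hls : l ∣ s) (r y c : ℕ) :
    E s l (r + (l - 1) * y) ≡ ∑ t ∈ range c, y.choose t * coef l s (DD l s) r t s [MOD l ^ c] := by
  simp only [coef_eq, mul_sum]
  rw [sum_comm]
  refine sum_modEq s fun j hj => ?_
  by_cases h : j % l = 0
  · simp [h, Nat.ModEq.refl]
  · obtain ⟨z, h1, h2⟩ := unit_pow hl hls hj h 0
    simp only [pow_zero, mul_one, zero_add, pow_one] at h1 h2
    simp only [h, if_false]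
    rw [pow_add, pow_mul, h1, Nat.add_sub_cancel]
    have := (newton h2 c y).mul_left ((s - j) ^ r * (DD l s / j))
    rw [mul_sum] at this
    convert this using 1
    · ring
    · exact sum_congr rfl fun t _ => by ring

theorem E_lin {l s : ℕ} (hl : l.Prime) (hls : l ∣ s) {x e c : ℕ} (hc : c ≤ 2 * (e + 1)) (u : ℕ)
    (h : E s l (x + (l - 1) * l ^ e) ≡ E s l x [MOD l ^ c]) :
    E s l (x + (l - 1) * l ^ e * u) ≡ E s l x [MOD l ^ c] := by
  have h1 : E s l (x + (l - 1) * l ^ e * u) + u * E s l x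
      ≡ E s l x + u * E s l (x + (l - 1) * l ^ e) [MOD l ^ c] := by
    unfold E
    rw [mul_sum, mul_sum, ← sum_add_distrib, ← sum_add_distrib]
    refine sum_modEq s fun j hj => ?_
    by_cases h : j % l = 0
    · simp [h, Nat.ModEq.refl]
    · obtain ⟨z, h1, h2⟩ := unit_pow hl hls hj h e
      simp only [h, if_false]
      rw [pow_add, pow_add, pow_mul _ _ u, h1]
      have h3 : l ^ c ∣ z ^ 2 := by
        refine dvd_trans ?_ (pow_dvd_pow_of_dvd h2 2)
        rw [← pow_mul]
        exact pow_dvd_pow _ (by omega)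
      have := (((newton (dvd_refl z) 2 u).of_dvd h3).add_right u).mul_left ((s - j) ^ x * (DD l s / j))
      convert this using 1
      · ring
      · simp [sum_range_succ]; ring
  exact Nat.ModEq.add_right_cancel' _ (h1.trans ((h.mul_left u).add_left _))

theorem coefs_sound (l s D r Q n : ℕ) : ∀ (t : ℕ) (k : List ℕ → Bool), coefs l s D r Q n t k = true →
    k ((List.range' t n).map fun i => coef l s D r i s % Q) = true := by
  induction n with
  | zero => intro t k h; exact h
  | succ n ih => intro t k h; exact ih (t + 1) _ h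

theorem ev_eq (y : ℕ) (f : ℕ → ℕ) (n : ℕ) : ∀ t, ev y ((List.range' t n).map f) t (y.choose t)
    = ∑ i ∈ range n, y.choose (t + i) * f (t + i) := by
  induction n with
  | zero => intro t; rfl
  | succ n ih =>
    intro t
    have e : ev y ((List.range' t (n + 1)).map f) t (y.choose t) = y.choose t * f t +
      ev y ((List.range' (t + 1) n).map f) (t + 1) (y.choose t * (y - t) / (t + 1)) := rfl
    rw [e, ← Nat.choose_succ_right_eq, Nat.mul_div_cancel _ (Nat.succ_pos t), ih, sum_range_succ',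
      add_comm]
    simp only [add_zero, add_assoc, add_comm 1]

noncomputable def DS (l s r cm : ℕ) : List ℕ := (List.range' 0 cm).map fun i => coef l s (DD l s) r i s % l ^ cm

theorem ev_E {l s : ℕ} (hl : l.Prime) (hls : l ∣ s) (r y : ℕ) {c cm : ℕ} (hc : c ≤ cm) :
    E s l (r + (l - 1) * y) ≡ ev y (DS l s r cm) 0 1 [MOD l ^ c] := by
  have := ev_eq y (fun i => coef l s (DD l s) r i s % l ^ cm) cm 0
  rw [Nat.choose_zero_right] at this
  unfold DS
  rw [this]
  refine Nat.ModEq.of_dvd (pow_dvd_pow l hc) ((E_newton hl hls r y cm).trans ?_)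
  refine sum_modEq cm fun j _ => ?_
  rw [zero_add]
  exact (Nat.mod_modEq _ _).symm.mul_left _

theorem qleaf_sound {l s cm x M r e c : ℕ} (hl : l.Prime) (hls : l ∣ s) (hr : r % (l - 1) = x)
    (h : qleaf l cm (DS l s x cm) M r e c = true) (m : ℕ) (hm : m % M = r) : Good s l cm m := by
  have e1 : qleaf l cm (DS l s x cm) M r e c = ifz (M % ((l - 1) * l ^ e))
    (andB (Nat.ble c cm) (andB (Nat.ble c (2 * (e + 1)))
      (ifz (ev (r % ((l - 1) * l ^ e) / (l - 1)) (DS l s x cm) 0 1 % l ^ c) false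
        (Nat.beq (ev (r % ((l - 1) * l ^ e) / (l - 1) + l ^ e) (DS l s x cm) 0 1 % l ^ c)
          (ev (r % ((l - 1) * l ^ e) / (l - 1)) (DS l s x cm) 0 1 % l ^ c))))) false := rfl
  rw [e1, ifz_eq, ifz_eq] at h
  split_ifs at h with h1 h2
  · simp [andB_eq] at h
  rw [andB_eq, andB_eq, Nat.ble_eq, Nat.ble_eq, Nat.beq_eq] at h
  obtain ⟨h3, h4, h5⟩ := h
  have e2 : r % ((l - 1) * l ^ e) = x + (l - 1) * (r % ((l - 1) * l ^ e) / (l - 1)) := by
    rw [← hr, ← Nat.mod_mod_of_dvd r (Dvd.intro _ rfl : l - 1 ∣ (l - 1) * l ^ e), Nat.mod_add_div]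
  have e3 : m % ((l - 1) * l ^ e) = r % ((l - 1) * l ^ e) := by
    rw [← hm, Nat.mod_mod_of_dvd m (Nat.dvd_of_mod_eq_zero h1)]
  generalize r % ((l - 1) * l ^ e) / (l - 1) = y at *
  have a1 := ev_E hl hls x y h3
  have a2 := ev_E hl hls x (y + l ^ e) h3
  rw [mul_add, ← add_assoc] at a2
  have a3 := E_lin hl hls h4 (m / ((l - 1) * l ^ e)) ((a2.trans h5).trans a1.symm)
  rw [← e2, ← e3, Nat.mod_add_div, e3, e2] at a3
  refine Or.inr ⟨c, h3, fun hd => h2 ?_⟩
  rw [← a1, ← a3]
  exact Nat.mod_eq_zero_of_dvd hd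

theorem pleaf_sound {s M r p : ℕ} {t : T} (ht : OKT s t) (h : pleaf t M r p = true) (m : ℕ)
    (hm : m % M = r) : NoRoot s m := by
  have e1 : pleaf t M r p = ifz (M % (p - 1))
    (ifz ((find p t >>> (r % (p - 1))) &&& 1) false true) false := rfl
  rw [e1, ifz_eq, ifz_eq] at h
  split_ifs at h with h1 h2
  refine find_sound p t ht (r % (p - 1)) ?_ m ?_
  · simpa [Nat.testBit, Nat.and_comm] using h2
  · rw [← hm, Nat.mod_mod_of_dvd m (Nat.dvd_of_mod_eq_zero h1)]

theorem chk_sound {l s cm x : ℕ} {t : T} (hl : l.Prime) (hls : l ∣ s) (ht : OKT s t) (f : ℕ) :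
    ∀ (M r code : ℕ) (k : ℕ → Bool), chk l cm t (DS l s x cm) f M r code k = true →
      (l - 1 ∣ M → r % (l - 1) = x → ∀ m, m % M = r → Good s l cm m) ∧ ∃ cd, k cd = true := by
  induction f with
  | zero => intro M r code k h; exact Bool.noConfusion h
  | succ f ih =>
    intro M r code k h
    have e : chk l cm t (DS l s x cm) (f + 1) M r code k =
      Nat.rec (motive := fun _ => Bool)
        (ifz ((code &&& 16777215) >>> 2) false
          (Nat.rec (motive := fun _ => ℕ → Bool) k
            (fun i jh cd => chk l cm t (DS l s x cm) f (M * ((code &&& 16777215) >>> 2))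
              (r + M * i) cd jh) ((code &&& 16777215) >>> 2) (code >>> 24)))
        (fun g _ => andB (ifz g (pleaf t M r ((code &&& 16777215) >>> 2))
          (qleaf l cm (DS l s x cm) M r (((code &&& 16777215) >>> 2) >>> 6)
            (((code &&& 16777215) >>> 2) &&& 63))) (k (code >>> 24)))
        (code &&& 3) := rfl
    rw [e] at h
    generalize (code &&& 16777215) >>> 2 = y at h
    generalize code >>> 24 = rest at h
    generalize code &&& 3 = g at h
    cases g with
    | zero =>
      have h1 : ifz y false (Nat.rec (motive := fun _ => ℕ → Bool) k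
        (fun i jh cd => chk l cm t (DS l s x cm) f (M * y) (r + M * i) cd jh) y rest) = true := h
      rw [ifz_eq] at h1
      split_ifs at h1 with hy
      have key : ∀ i cd, Nat.rec (motive := fun _ => ℕ → Bool) k
          (fun i jh cd => chk l cm t (DS l s x cm) f (M * y) (r + M * i) cd jh) i cd = true →
          (l - 1 ∣ M → r % (l - 1) = x → ∀ j, j < i → ∀ m, m % (M * y) = r + M * j → Good s l cm m)
            ∧ ∃ cd, k cd = true := by
        intro i
        induction i with
        | zero => intro cd h2; exact ⟨fun _ _ j hj => by omega, cd, h2⟩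
        | succ i jh =>
          intro cd h2
          obtain ⟨b1, cd', b2⟩ := ih _ _ _ _ h2
          obtain ⟨b3, b4⟩ := jh cd' b2
          refine ⟨fun c1 c2 j hj => ?_, b4⟩
          rcases Nat.lt_succ_iff_lt_or_eq.1 hj with h3 | rfl
          · exact b3 c1 c2 j h3
          · refine b1 (c1.mul_right _) ?_
            obtain ⟨z, rfl⟩ := c1
            rw [mul_assoc, Nat.add_mul_mod_self_left, c2]
      obtain ⟨b1, b2⟩ := key y rest h1
      refine ⟨fun c1 c2 m hm => b1 c1 c2 (m / M % y) (Nat.mod_lt _ (by omega)) m ?_, b2⟩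
      rw [Nat.mod_mul, hm]
    | succ g =>
      have h1 : andB (ifz g (pleaf t M r y) (qleaf l cm (DS l s x cm) M r (y >>> 6) (y &&& 63)))
        (k rest) = true := h
      rw [andB_eq, ifz_eq] at h1
      refine ⟨fun _ c2 m hm => ?_, rest, h1.2⟩
      have h2 := h1.1
      split_ifs at h2
      · exact Or.inl (pleaf_sound ht h2 m hm)
      · exact qleaf_sound hl hls c2 h2 m hm

def Upto (s l cm b : ℕ) : Prop := ∀ m, m % (l - 1) < b → Good s l cm m

theorem upto_zero (s l cm : ℕ) : Upto s l cm 0 := fun _ h => by omega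

theorem upto_step {s l cm a b : ℕ} {g : G} {codes : List ℕ} (hl : l.Prime) (hls : l ∣ s)
    (hg : OKG s g) (h0 : Upto s l cm a) (h : treeG s l cm g a b codes = true) : Upto s l cm b := by
  obtain ⟨t, ht, h1⟩ := toT_sound g _ hg h
  unfold tree at h1
  simp only [force_eq, prodD_eq] at h1
  clear h
  induction codes generalizing a with
  | nil =>
    have : b ≤ a := Nat.le_of_ble_eq_true h1
    exact fun m hm => h0 m (by omega)
  | cons cd codes ih =>
    obtain ⟨b1, _, b2⟩ := chk_sound (x := a) hl hls ht 100 _ _ _ _ (coefs_sound _ _ _ _ _ _ _ _ h1)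
    refine ih (a := a + 1) (fun m hm => ?_) b2
    rcases Nat.lt_succ_iff_lt_or_eq.1 hm with h2 | h2
    · exact h0 m h2
    · exact b1 dvd_rfl (by rw [← h2, Nat.mod_mod]) m h2

theorem upto_all {s l cm : ℕ} (hl : l.Prime) (h : Upto s l cm (l - 1)) :
    l.Prime ∧ ∀ m, Good s l cm m :=
  ⟨hl, fun m => h m (Nat.mod_lt _ (by have := hl.two_le; omega))⟩

end Pool.Agent.Lib.MP_b5d28a_nt.H6
end
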